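import Pool.Agent.Helper17_EU.DefsR

/-! # CROSS -/

open Set Metric Topology unitInterval

namespace Pool.Agent.EU.H75

universe u v

variable {X : Type u} [MetricSpace X] {ι : Type v} (𝓔 : EdgeSys X ι)

theorem zero_mem_closure : (0 : I) ∈ closure (Ioo (0 : I) 1) := by
  rw [closure_Ioo (by exact zero_ne_one)]
  exact ⟨le_rfl, zero_le_one⟩

theorem one_mem_closure : (1 : I) ∈ closure (Ioo (0 : I) 1) := by
  rw [closure_Ioo (by exact zero_ne_one)]
  exact ⟨zero_le_one, le_rfl⟩

theorem end_mem_G (i : ι) (t : I) (ht : t = 0 ∨ t = 1) : 𝓔.φ i t ∈ 𝓔.G := by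
  have hcl : t ∈ closure (Ioo (0 : I) 1) := by
    rcases ht with rfl | rfl
    · exact zero_mem_closure
    · exact one_mem_closure
  intro hmem
  obtain ⟨j, hj⟩ := mem_iUnion.1 hmem
  by_cases hij : i = j
  · subst hij
    obtain ⟨s, hs, hst⟩ := hj
    have := 𝓔.inj i hst
    subst this
    rcases ht with rfl | rfl
    · exact lt_irrefl _ hs.1
    · exact lt_irrefl _ hs.2
  · have hopen : IsOpen (𝓔.φ i ⁻¹' (𝓔.o j)) := (𝓔.opn j).preimage (𝓔.φ i).continuous
    obtain ⟨s, hs1, hs2⟩ := mem_closure_iff.1 hcl _ hopen hj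
    exact (disjoint_left.1 (𝓔.disj i j hij)) ⟨s, hs2, rfl⟩ hs1

theorem tgt_mem_G {η : ℝ} (s : Step X ι) (hs : 𝓔.GoodStep η s) : 𝓔.tgt s ∈ 𝓔.G := by
  cases s with
  | edge i b =>
    simp only [EdgeSys.tgt]
    split_ifs
    · exact end_mem_G 𝓔 i 1 (Or.inr rfl)
    · exact end_mem_G 𝓔 i 0 (Or.inl rfl)
  | jump x y => exact hs.2.1
  | mark k x => exact hs

theorem cross : 𝓔.CrossStmt := by
  intro K η hK hd w x y hx hw
  induction hw with
  | nil x => intro _ h; exact absurd Iff.rfl h
  | cons s w y hw ih =>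
    intro hg hxy
    have hgs : 𝓔.GoodStep η s := hg s (List.mem_cons_self)
    by_cases hst : (𝓔.src s ∈ K ↔ 𝓔.tgt s ∈ K)
    · obtain ⟨i, hi, hiw⟩ := ih (tgt_mem_G 𝓔 s hgs)
        (fun s' hs' => hg s' (List.mem_cons_of_mem _ hs')) (fun h => hxy (hst.trans h))
      refine ⟨i, hi, ?_⟩
      simp only [items, List.mem_filterMap] at hiw ⊢
      obtain ⟨a, ha, hai⟩ := hiw
      exact ⟨a, List.mem_cons_of_mem _ ha, hai⟩
    · cases s with
      | edge i b =>
        refine ⟨i, ?_, ?_⟩
        · intro h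
          apply hst
          simp only [EdgeSys.src, EdgeSys.tgt]
          split_ifs
          · exact h
          · exact h.symm
        · simp [items, Step.item]
      | jump a b =>
        exfalso
        obtain ⟨ha, hb, hab⟩ := hgs
        simp only [EdgeSys.src, EdgeSys.tgt] at hst
        by_cases haK : a ∈ K
        · have hbK : b ∉ K := fun h => hst ⟨fun _ => h, fun _ => haK⟩
          exact absurd (hd a haK b ⟨hb, hbK⟩) (not_lt.2 hab)
        · have hbK : b ∈ K := by
            by_contra h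
            exact hst ⟨fun h' => absurd h' haK, fun h' => absurd h' h⟩
          have := hd b hbK a ⟨ha, haK⟩
          rw [dist_comm] at this
          exact absurd this (not_lt.2 hab)
      | mark k a => exact absurd Iff.rfl hst

end Pool.Agent.EU.H75
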