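import Pool.Agent.Helper75_EU.Walk

/-! # TAME -/

open Set Metric Topology unitInterval

namespace Pool.Agent.EU.H75

universe u v

section lists

variable {X : Type u} {ι : Type v}

/-- concatenation of a list of pieces -/
def flat (l : List (ℝ × List (Step X ι))) : List (Step X ι) := (l.map Prod.snd).flatten

/-- total displacement -/
def tot (l : List (ℝ × List (Step X ι))) : ℝ := (l.map Prod.fst).sum

def revP (l : List (ℝ × List (Step X ι))) : List (ℝ × List (Step X ι)) :=
  (l.map (fun p => (p.1, revW p.2))).reverse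

theorem flat_cons (p : ℝ × List (Step X ι)) (l : List (ℝ × List (Step X ι))) :
    flat (p :: l) = p.2 ++ flat l := rfl

theorem flat_append (l l' : List (ℝ × List (Step X ι))) : flat (l ++ l') = flat l ++ flat l' := by
  simp [flat]

theorem flat_revP (l : List (ℝ × List (Step X ι))) : flat (revP l) = revW (flat l) := by
  induction l with
  | nil => rfl
  | cons p l ih =>
    have : revP (p :: l) = revP l ++ [(p.1, revW p.2)] := by simp [revP]
    rw [this, flat_append, ih, flat_cons (p := p), revW_append]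
    simp [flat]

theorem tot_revP (l : List (ℝ × List (Step X ι))) : tot (revP l) = tot l := by
  simp only [tot, revP, List.map_reverse, List.sum_reverse, List.map_map]
  rfl

theorem tot_append (l l' : List (ℝ × List (Step X ι))) : tot (l ++ l') = tot l + tot l' := by
  simp [tot]

theorem tot_nonneg {l : List (ℝ × List (Step X ι))} (h : ∀ p ∈ l, 0 ≤ p.1) : 0 ≤ tot l := by
  apply List.sum_nonneg
  intro x hx
  obtain ⟨p, hp, rfl⟩ := List.mem_map.1 hx
  exact h p hp

end lists

variable {X : Type u} [MetricSpace X] {ι : Type v} (𝓔 : EdgeSys X ι)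

theorem basic_revW {E : Set (ι ⊕ ℕ)} {κ a : ℝ} {w : List (Step X ι)} (h : 𝓔.Basic E κ a w) :
    𝓔.Basic E κ a (revW w) := by
  intro x y hw
  have hw' : 𝓔.IsW y w x := by
    have := isW_revW 𝓔 hw
    rwa [revW_revW] at this
  obtain ⟨h1, h2, h3, h4⟩ := h y x hw'
  refine ⟨?_, ?_, ?_, ?_⟩
  · intro hi
    rw [dist_comm]
    exact h1 (fun i hi' => hi i (mem_items_revW.2 hi'))
  · intro w1 w2 hww hi
    have hww' : w = revW w2 ++ revW w1 := by rw [← revW_append, ← hww, revW_revW]
    have := h3 _ _ hww' (fun i hi' => hi i (mem_items_revW.1 hi'))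
    rwa [supW_revW] at this
  · intro w1 w2 hww hi
    have hww' : w = revW w2 ++ revW w1 := by rw [← revW_append, ← hww, revW_revW]
    have := h2 _ _ hww' (fun i hi' => hi i (mem_items_revW.1 hi'))
    rwa [supW_revW] at this
  · intro w1 w2 w3 hww hi
    have hww' : w = revW w3 ++ revW w2 ++ revW w1 := by
      rw [List.append_assoc, ← revW_append, ← revW_append, ← hww, revW_revW]
    have := h4 _ _ _ hww' (fun i hi' => hi i (mem_items_revW.1 hi'))
    rwa [supW_revW] at this

/-- `P` consists of concatenations of basic pieces of total displacement `S` -/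
def TInv (E : Set (ι ⊕ ℕ)) (κ S : ℝ) (P : Multiset (List (Step X ι))) : Prop :=
  ∃ Q : Multiset (List (ℝ × List (Step X ι))), Q.map flat = P ∧
    (∀ l ∈ Q, ∀ p ∈ l, 0 ≤ p.1 ∧ 𝓔.Basic E κ p.1 p.2) ∧ (Q.map tot).sum = S

theorem tInv_move {E : Set (ι ⊕ ℕ)} {κ S : ℝ} {P P' : Multiset (List (Step X ι))}
    (h : TInv 𝓔 E κ S P) (hm : AMove P P') : TInv 𝓔 E κ S P' := by
  classical
  obtain ⟨Q, hQ, hb, hS⟩ := h
  cases hm with
  | rev w P0 =>
    obtain ⟨l, hl, rfl, hQ'⟩ := (Multiset.map_eq_cons flat _ _ _).2 hQ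
    refine ⟨revP l ::ₘ Q.erase l, ?_, ?_, ?_⟩
    · rw [Multiset.map_cons, hQ', flat_revP]
    · intro l' hl'
      rcases Multiset.mem_cons.1 hl' with rfl | hl'
      · intro p hp
        simp only [revP, List.mem_reverse, List.mem_map] at hp
        obtain ⟨q, hq, rfl⟩ := hp
        exact ⟨(hb l hl q hq).1, basic_revW 𝓔 (hb l hl q hq).2⟩
      · exact hb l' (Multiset.mem_of_mem_erase hl')
    · rw [Multiset.map_cons, Multiset.sum_cons, tot_revP, ← hS]
      conv_rhs => rw [← Multiset.cons_erase hl, Multiset.map_cons, Multiset.sum_cons]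
  | join w w' P0 =>
    obtain ⟨l, hl, rfl, hQ'⟩ := (Multiset.map_eq_cons flat _ _ _).2 hQ
    obtain ⟨l', hl', rfl, hQ''⟩ := (Multiset.map_eq_cons flat _ _ _).2 hQ'
    refine ⟨(l ++ l') ::ₘ (Q.erase l).erase l', ?_, ?_, ?_⟩
    · rw [Multiset.map_cons, hQ'', flat_append]
    · intro l0 hl0
      rcases Multiset.mem_cons.1 hl0 with rfl | hl0
      · intro p hp
        rcases List.mem_append.1 hp with hp | hp
        · exact hb l hl p hp
        · exact hb l' (Multiset.mem_of_mem_erase hl') p hp
      · exact hb l0 (Multiset.mem_of_mem_erase (Multiset.mem_of_mem_erase hl0))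
    · rw [Multiset.map_cons, Multiset.sum_cons, tot_append, ← hS]
      conv_rhs => rw [← Multiset.cons_erase hl, Multiset.map_cons, Multiset.sum_cons,
        ← Multiset.cons_erase hl', Multiset.map_cons, Multiset.sum_cons]
      ring
  | nil P0 =>
    refine ⟨[] ::ₘ Q, ?_, ?_, ?_⟩
    · rw [Multiset.map_cons, hQ]; rfl
    · intro l hl
      rcases Multiset.mem_cons.1 hl with rfl | hl
      · simp
      · exact hb l hl
    · rw [Multiset.map_cons, Multiset.sum_cons, hS]
      simp [tot]

theorem pre_bound {E : Set (ι ⊕ ℕ)} {κ : ℝ} (l : List (ℝ × List (Step X ι)))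
    (hb : ∀ p ∈ l, 0 ≤ p.1 ∧ 𝓔.Basic E κ p.1 p.2) :
    ∀ (x y : X) (w w' : List (Step X ι)), 𝓔.IsW x (flat l) y → flat l = w ++ w' →
      (∀ i ∈ items w, i ∉ E) → 𝓔.supW w ⊆ closedBall x (κ + tot l) := by
  induction l with
  | nil =>
    intro x y w w' _ hw _
    have : w = [] := by
      have := congrArg List.length hw
      simp only [flat, List.map_nil, List.flatten_nil, List.length_nil, List.length_append] at this
      exact List.length_eq_zero_iff.1 (by omega)
    subst this
    rw [supW_nil]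
    exact empty_subset _
  | cons p l ih =>
    intro x y w w' hW hw hi
    have hp := hb p (List.mem_cons_self)
    have hl : ∀ q ∈ l, 0 ≤ q.1 ∧ 𝓔.Basic E κ q.1 q.2 := fun q hq =>
      hb q (List.mem_cons_of_mem _ hq)
    have ht : 0 ≤ tot l := tot_nonneg (fun q hq => (hl q hq).1)
    have htot : tot (p :: l) = p.1 + tot l := by simp [tot]
    rw [flat_cons] at hW hw
    obtain ⟨z, hz1, hz2⟩ := (isW_append 𝓔).1 hW
    obtain ⟨b1, b2, b3, b4⟩ := hp.2 x z hz1
    rcases List.append_eq_append_iff.1 hw with ⟨a', ha1, ha2⟩ | ⟨c', hc1, hc2⟩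
    · -- w = p.2 ++ a'
      subst ha1
      have hi1 : ∀ i ∈ items p.2, i ∉ E := fun i h => hi i (by
        rw [items_append]; exact List.mem_append_left _ h)
      have hi2 : ∀ i ∈ items a', i ∉ E := fun i h => hi i (by
        rw [items_append]; exact List.mem_append_right _ h)
      rw [supW_append]
      apply union_subset
      · refine (b2 p.2 [] (by simp) hi1).trans (closedBall_subset_closedBall ?_)
        rw [htot]; linarith [hp.1]
      · refine (ih hl z y a' w' hz2 ha2 hi2).trans (closedBall_subset_closedBall' ?_)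
        rw [htot, dist_comm]
        linarith [b1 hi1]
    · -- p.2 = w ++ c'
      refine (b2 w c' hc1 hi).trans (closedBall_subset_closedBall ?_)
      rw [htot]; linarith [hp.1]

theorem mid_bound {E : Set (ι ⊕ ℕ)} {κ : ℝ} (hκ : 0 ≤ κ) (l : List (ℝ × List (Step X ι)))
    (hb : ∀ p ∈ l, 0 ≤ p.1 ∧ 𝓔.Basic E κ p.1 p.2) :
    ∀ (x y : X) (w1 w2 w3 : List (Step X ι)), 𝓔.IsW x (flat l) y → flat l = w1 ++ w2 ++ w3 →
      (∀ i ∈ items w2, i ∉ E) → Small (2 * (κ + tot l)) (𝓔.supW w2) := by
  induction l with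
  | nil =>
    intro x y w1 w2 w3 _ hw _
    have : w2 = [] := by
      have := congrArg List.length hw
      simp only [flat, List.map_nil, List.flatten_nil, List.length_nil, List.length_append] at this
      exact List.length_eq_zero_iff.1 (by omega)
    subst this
    rw [supW_nil]
    intro y hy
    exact absurd hy (notMem_empty _)
  | cons p l ih =>
    intro x y w1 w2 w3 hW hw hi
    have hp := hb p (List.mem_cons_self)
    have hl : ∀ q ∈ l, 0 ≤ q.1 ∧ 𝓔.Basic E κ q.1 q.2 := fun q hq =>
      hb q (List.mem_cons_of_mem _ hq)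
    have ht : 0 ≤ tot l := tot_nonneg (fun q hq => (hl q hq).1)
    have htot : tot (p :: l) = p.1 + tot l := by simp [tot]
    rw [flat_cons] at hW hw
    obtain ⟨z, hz1, hz2⟩ := (isW_append 𝓔).1 hW
    obtain ⟨b1, b2, b3, b4⟩ := hp.2 x z hz1
    have mono : ∀ r, r ≤ 2 * (κ + tot (p :: l)) → Small r (𝓔.supW w2) →
        Small (2 * (κ + tot (p :: l))) (𝓔.supW w2) := fun r hr h a ha b hb =>
      (h a ha b hb).trans hr
    rw [List.append_assoc] at hw
    rcases List.append_eq_append_iff.1 hw with ⟨a', ha1, ha2⟩ | ⟨c', hc1, hc2⟩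
    · -- w1 = p.2 ++ a'
      refine mono _ ?_ (ih hl z y a' w2 w3 hz2 (by rw [ha2, List.append_assoc]) hi)
      rw [htot]; linarith [hp.1]
    · -- p.2 = w1 ++ c', c' ++ flat l = w2 ++ w3
      rcases List.append_eq_append_iff.1 hc2 with ⟨d', hd1, hd2⟩ | ⟨d', hd1, hd2⟩
      · -- c' = w2 ++ d'
        refine mono (2 * κ) ?_ (b4 w1 w2 d' (by rw [hc1, hd1, List.append_assoc]) hi)
        rw [htot]; linarith [hp.1]
      · -- w2 = c' ++ d'
        subst hd1
        have hi1 : ∀ i ∈ items c', i ∉ E := fun i h => hi i (by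
          rw [items_append]; exact List.mem_append_left _ h)
        have hi2 : ∀ i ∈ items d', i ∉ E := fun i h => hi i (by
          rw [items_append]; exact List.mem_append_right _ h)
        have s1 : 𝓔.supW c' ⊆ closedBall z (κ + tot l) :=
          (b3 w1 c' hc1 hi1).trans (closedBall_subset_closedBall (by linarith))
        have s2 : 𝓔.supW d' ⊆ closedBall z (κ + tot l) := pre_bound 𝓔 l hl z y d' w3 hz2 hd2 hi2
        have s3 : 𝓔.supW (c' ++ d') ⊆ closedBall z (κ + tot l) := by
          rw [supW_append]; exact union_subset s1 s2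
        refine mono (2 * (κ + tot l)) ?_ ?_
        · rw [htot]; linarith [hp.1]
        · intro a ha b hb'
          have h1 := mem_closedBall.1 (s3 ha)
          have h2 := mem_closedBall.1 (s3 hb')
          calc dist a b ≤ dist a z + dist z b := dist_triangle _ _ _
            _ ≤ (κ + tot l) + (κ + tot l) := add_le_add h1 (by rwa [dist_comm])
            _ = 2 * (κ + tot l) := by ring

theorem tame : 𝓔.TameStmt := by
  intro E κ D g x hκ hD hA hg w1 w2 w3 hw hi
  have h0 : TInv 𝓔 E κ (D.map Prod.fst).sum (D.map Prod.snd) := by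
    refine ⟨D.map (fun p => [p]), ?_, ?_, ?_⟩
    · rw [Multiset.map_map]
      apply Multiset.map_congr rfl
      intro p _
      simp [flat]
    · intro l hl
      obtain ⟨p, hp, rfl⟩ := Multiset.mem_map.1 hl
      intro q hq
      rw [List.mem_singleton.1 hq]
      exact hD p hp
    · rw [Multiset.map_map]
      congr 1
      apply Multiset.map_congr rfl
      intro p _
      simp [tot]
  have hgen : ∀ P, Asm (D.map Prod.snd) P → TInv 𝓔 E κ (D.map Prod.fst).sum P := by
    intro P hP
    induction hP with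
    | refl => exact h0
    | tail _ hm ih => exact tInv_move 𝓔 ih hm
  have h1 := hgen _ hA
  obtain ⟨Q, hQ, hb, hS⟩ := h1
  obtain ⟨l, rfl, hl⟩ : ∃ l, Q = {l} ∧ flat l = g := by
    obtain ⟨l, hl1, hl2⟩ := Multiset.map_eq_singleton.1 hQ
    exact ⟨l, hl1, hl2⟩
  have hS' : tot l = (D.map Prod.fst).sum := by simpa using hS
  rw [← hS']
  subst hl
  exact mid_bound 𝓔 hκ l (hb l (Multiset.mem_singleton_self l)) x x w1 w2 w3 hg hw hi

end Pool.Agent.EU.H75
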