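import Pool.Agent.Helper75_EU.Trail

/-! # Module ELIM: elimination of the vertices cell by cell -/

open Set Metric

namespace Pool.Agent.EU.H75

universe u

section gen

variable {X : Type u} {n : ℕ} {src tgt : Fin n → X}

theorem inner_of_chain {C : Set X} {R : Fin n × Bool → Fin n × Bool → Prop} {a b : X}
    {l : List (Fin n × Bool)} (h : IsTr src tgt a l b)
    (hch : l.IsChain (fun d d' => dtgt src tgt d ∈ C ∧ R d d')) :
    ∀ d ∈ l.tail, dsrc src tgt d ∈ C := by
  induction l generalizing a with
  | nil => simp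
  | cons x l ih =>
    cases l with
    | nil => simp
    | cons y l =>
      rw [isTr_cons] at h
      rw [List.isChain_cons_cons] at hch
      intro d hd
      simp only [List.tail_cons] at hd
      rcases List.mem_cons.1 hd with rfl | hd
      · have := h.2
        rw [isTr_cons] at this
        rw [this.1]
        exact hch.1.1
      · exact ih h.2 hch.2 d hd

theorem chain_split {C : Set X} {R : Fin n × Bool → Fin n × Bool → Prop}
    {l1 l2 : List (Fin n × Bool)} {d : Fin n × Bool}
    (hch : (l1 ++ d :: l2).IsChain (fun d d' => dtgt src tgt d ∈ C ∧ R d d')) (hl2 : l2 ≠ []) :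
    dtgt src tgt d ∈ C := by
  rw [List.isChain_append] at hch
  cases l2 with
  | nil => exact absurd rfl hl2
  | cons x l2 =>
    have := hch.2.1
    rw [List.isChain_cons_cons] at this
    exact this.1.1

theorem length_exL {m : ℕ} {q : Fin m → List (Fin n × Bool)} (hq : ∀ i, q i ≠ [])
    (l : List (Fin m × Bool)) : l.length ≤ (exL q l).length := by
  induction l with
  | nil => simp
  | cons d l ih =>
    have hex : exL q (d :: l) = exd q d ++ exL q l := by simp [exL]
    rw [hex, List.length_append, List.length_cons]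
    have : 1 ≤ (exd q d).length := by
      rw [Nat.one_le_iff_ne_zero, Ne, List.length_eq_zero_iff]
      unfold exd
      split_ifs
      · exact hq _
      · simpa [rv] using hq _
    omega

theorem ends_mem {sp : Fin n → Set X} (hsp : ∀ e, src e ∈ sp e ∧ tgt e ∈ sp e) {a b : X}
    {l : List (Fin n × Bool)} (h : IsTr src tgt a l b) (hl : l ≠ []) :
    a ∈ spL sp l ∧ b ∈ spL sp l := by
  have key : ∀ {a b : X} {l : List (Fin n × Bool)}, IsTr src tgt a l b → l ≠ [] →
      a ∈ spL sp l := by
    intro a b l h hl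
    cases l with
    | nil => exact absurd rfl hl
    | cons d l =>
      rw [isTr_cons] at h
      refine ⟨d, by simp, ?_⟩
      rw [← h.1]
      unfold dsrc
      split_ifs
      · exact (hsp _).1
      · exact (hsp _).2
  refine ⟨key h hl, ?_⟩
  rw [← spL_rv]
  exact key (isTr_rv src tgt h) (by simpa [rv] using hl)

end gen

section elim

variable {X : Type u} [MetricSpace X] {n : ℕ}

/-- state of the elimination -/
structure ESt (src tgt : Fin n → X) (sp : Fin n → Set X) (A U Uj : Finset X)
    (par : X → Fin n × X) (γ B : ℝ) (N : ℕ) (Q L M : List (List (Fin n × Bool))) : Prop where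
  hQ : ∀ l ∈ Q, ∃ a b, TrI src tgt (↑U : Set X) a l b ∧ (a ∈ A ∨ a ∈ Uj) ∧ (b ∈ A ∨ b ∈ Uj) ∧
    (a ∈ Uj ∨ b ∈ Uj) ∧ Small γ (spL sp l)
  hpar : ∀ u ∈ Uj, ∃ b, [((par u).1, b)] ∈ Q
  hL : OpenTrails src tgt A U L
  hM : ClosedTrails src tgt U M
  hsm : ∀ l ∈ L ++ M, Small B (spL sp l)
  hcov : CoversInc src tgt U (Q ++ (L ++ M))
  hcount : openCount src tgt L ≤ N

variable {src tgt : Fin n → X} {sp : Fin n → Set X} {A U : Finset X}
  {par : X → Fin n × X} {root : X → X} {rk : X → ℕ} {δ : ℝ}

omit [MetricSpace X] in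
open Classical in
/-- evenness in the current graph -/
theorem even_cur (hAU : ∀ x ∈ A, x ∉ U) (heven : ∀ u ∈ U, Even (degF src tgt u))
    {Q L M : List (List (Fin n × Bool))} (hL : OpenTrails src tgt A U L)
    (hM : ClosedTrails src tgt U M) (hcov : CoversInc src tgt U (Q ++ (L ++ M)))
    {s' t' : Fin Q.length → X} (hq : ∀ i, IsTr src tgt (s' i) (Q.get i) (t' i))
    {v : X} (hv : v ∈ U) : Even (degF s' t' v) := by
  have h1 := sum_eq_deg src tgt hcov hv
  rw [sum_flatten] at h1
  set c : List (Fin n × Bool) → ℕ := fun l => ((l.map Prod.fst).map (ends src tgt v)).sum with hc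
  rw [List.map_append, List.map_append, List.sum_append, List.sum_append] at h1
  have h2 : Even (L.map c).sum := by
    have : ∀ L' : List (List (Fin n × Bool)), (∀ l ∈ L', Even (c l)) → Even (L'.map c).sum := by
      intro L'
      induction L' with
      | nil => intro _; simp
      | cons l L' ih =>
        intro h
        rw [List.map_cons, List.sum_cons]
        exact (h l (by simp)).add (ih fun l' hl' => h l' (by simp [hl']))
    refine this L fun l hl => ?_
    obtain ⟨⟨a, ha, b, hb, hab⟩, -, -⟩ := hL l hl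
    have h3 := isTr_parity src tgt v hab
    rw [if_neg (by rintro rfl; exact hAU _ ha hv), if_neg (by rintro rfl; exact hAU _ hb hv)] at h3
    simpa only [add_zero] using h3
  have h3 : Even (M.map c).sum := by
    have : ∀ L' : List (List (Fin n × Bool)), (∀ l ∈ L', Even (c l)) → Even (L'.map c).sum := by
      intro L'
      induction L' with
      | nil => intro _; simp
      | cons l L' ih =>
        intro h
        rw [List.map_cons, List.sum_cons]
        exact (h l (by simp)).add (ih fun l' hl' => h l' (by simp [hl']))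
    refine this M fun l hl => ?_
    obtain ⟨⟨a, hab⟩, -, -⟩ := hM l hl
    have h3 := isTr_parity src tgt v hab
    rw [Nat.even_iff] at h3 ⊢
    simp only [hc]
    omega
  have h4 : Even ((Q.map c).sum + degF s' t' v) := by
    rw [degF_eq_sum]
    have h5 : (Q.map c).sum = ∑ i : Fin Q.length, c (Q.get i) := by
      conv_lhs => rw [← List.ofFn_get Q]
      rw [List.map_ofFn, List.sum_ofFn]
      rfl
    rw [h5, ← Finset.sum_add_distrib]
    refine Finset.even_sum _ fun i _ => ?_
    exact isTr_parity src tgt v (hq i)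
  have h6 := heven v hv
  rw [Nat.even_iff] at *
  simp only [hc] at *
  omega

open Classical in
theorem elim_step (hG : GraphOK src tgt sp A U) (heven : ∀ u ∈ U, Even (degF src tgt u))
    (hFo : ForestOK src tgt sp A U par root rk δ) (hδ : 0 ≤ δ) {D : Set X} {sg γ B : ℝ}
    (hD : Small sg D) (hδγ : δ ≤ γ) {C U' Uj : Finset X} (hUj : Uj ⊆ U)
    (hCU : ∀ u, u ∈ Uj ↔ u ∈ C ∨ u ∈ U') (hdisj : ∀ u ∈ C, u ∉ U')
    (hCD : ∀ u ∈ C, root u ∈ D)
    (hcl : ∀ u ∈ C, ∀ w ∈ U, root u = root w → w ∈ C)
    (hcl' : ∀ u ∈ U', ∀ w ∈ U, root u = root w → w ∈ U')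
    (hB : sg + 2 * (γ + δ) ≤ B) {N : ℕ} {Q L M : List (List (Fin n × Bool))}
    (h : ESt src tgt sp A U Uj par γ B N Q L M) :
    ∃ Q' L' M', ESt src tgt sp A U U' par (2 * γ + 2 * δ) B (N + 2 * C.card * A.card) Q' L' M' := by
  obtain ⟨hAU, hends, hsp⟩ := hG
  obtain ⟨hrA, hrU⟩ := hFo
  have hCUs : ∀ u ∈ C, u ∈ U := fun u hu => hUj ((hCU u).2 (Or.inl hu))
  have hU'Us : ∀ u ∈ U', u ∈ U := fun u hu => hUj ((hCU u).2 (Or.inr hu))
  by_cases hQe : Q = []
  · subst hQe
    have hUe : ∀ u, u ∉ Uj := by
      intro u hu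
      obtain ⟨b, hb⟩ := h.hpar u hu
      simp at hb
    refine ⟨[], L, M, ?_⟩
    refine ⟨by simp, ?_, h.hL, h.hM, h.hsm, h.hcov, h.hcount.trans (by omega)⟩
    intro u hu
    exact absurd ((hCU u).2 (Or.inr hu)) (hUe u)
  have hm : 0 < Q.length := List.length_pos_iff.2 hQe
  set m := Q.length with hmdef
  set q : Fin m → List (Fin n × Bool) := fun i => Q.get i with hqdef
  have hQi : ∀ i : Fin m, ∃ a b, TrI src tgt (↑U : Set X) a (q i) b ∧ (a ∈ A ∨ a ∈ Uj) ∧
      (b ∈ A ∨ b ∈ Uj) ∧ (a ∈ Uj ∨ b ∈ Uj) ∧ Small γ (spL sp (q i)) :=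
    fun i => h.hQ (q i) (List.get_mem Q i)
  choose s' t' hq1 hq2 hq3 hq4 hq5 using hQi
  -- indices of the parent edges
  have hiu : ∀ u, ∃ i : Fin m, u ∈ Uj → ∃ b, q i = [((par u).1, b)] := by
    intro u
    by_cases hu : u ∈ Uj
    · obtain ⟨b, hb⟩ := h.hpar u hu
      obtain ⟨i, hi⟩ := List.mem_iff_get.1 hb
      exact ⟨i, fun _ => ⟨b, hi⟩⟩
    · exact ⟨⟨0, hm⟩, fun h => absurd h hu⟩
  choose iu hiu using hiu
  have hpe : ∀ u ∈ Uj, (s' (iu u) = u ∧ t' (iu u) = (par u).2) ∨
      (t' (iu u) = u ∧ s' (iu u) = (par u).2) := by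
    intro u hu
    obtain ⟨b, hb⟩ := hiu u hu
    have h1 := (hq1 (iu u)).1
    rw [hb, isTr_cons, isTr_nil] at h1
    obtain ⟨h1, h2⟩ := h1
    have h3 := (hrU u (hUj hu)).1
    rw [← h1, ← h2]
    cases b
    · simp only [dsrc, dtgt, Bool.false_eq_true, if_false]
      rcases h3 with ⟨h3, h4⟩ | ⟨h3, h4⟩
      · exact Or.inr ⟨h3, h4⟩
      · exact Or.inl ⟨h3, h4⟩
    · simp only [dsrc, dtgt, if_true]
      rcases h3 with ⟨h3, h4⟩ | ⟨h3, h4⟩
      · exact Or.inl ⟨h3, h4⟩
      · exact Or.inr ⟨h3, h4⟩
  -- the edges from `C` to `U'`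
  set Bs : Finset (Fin m) := Finset.univ.filter (fun i => (s' i ∈ C ∧ t' i ∈ U') ∨
    (t' i ∈ C ∧ s' i ∈ U')) with hBs
  have hparC : ∀ u ∈ C, (par u).2 ∉ U' := by
    intro u hu hw
    have h1 := hrU u (hCUs u hu)
    have h2 := hcl u hu (par u).2 (hU'Us _ hw) h1.2.2.1
    exact hdisj _ h2 hw
  obtain ⟨F, hBF, hFB, hFev⟩ := exists_tjoin s' t' rk iu (fun u => (par u).2) Bs C
    (fun u hu => hpe u ((hCU u).2 (Or.inl hu)))
    (fun u hu => (hrU u (hCUs u hu)).2.2.2.1)
    (by
      intro u hu hmem
      rw [hBs, Finset.mem_filter] at hmem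
      rcases hpe u ((hCU u).2 (Or.inl hu)) with ⟨h1, h2⟩ | ⟨h1, h2⟩
      · rcases hmem.2 with ⟨h3, h4⟩ | ⟨h3, h4⟩
        · rw [h2] at h4; exact hparC u hu h4
        · rw [h1] at h4; exact hdisj u hu h4
      · rcases hmem.2 with ⟨h3, h4⟩ | ⟨h3, h4⟩
        · rw [h1] at h4; exact hdisj u hu h4
        · rw [h2] at h4; exact hparC u hu h4)
  -- the pairing
  have hdeg : ∀ v ∈ C, Even (Finset.univ.filter (fun d : Fin m × Bool => dtgt s' t' d = v)).card :=
    by
    intro v hv
    rw [card_darts]
    exact even_cur hAU heven h.hL h.hM h.hcov (fun i => (hq1 i).1) (hCUs v hv)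
  have hpair : ∀ a : X × Bool, Even ((Finset.univ.filter
      (fun d : Fin m × Bool => dtgt s' t' d ∈ C)).filter
      (fun d => (dtgt s' t' d, decide (d.1 ∈ F)) = a)).card := by
    rintro ⟨v, b⟩
    by_cases hv : v ∈ C
    · have h1 := hFev v hv
      have h2 := hdeg v hv
      have h3 := Finset.card_filter_add_card_filter_not
        (s := Finset.univ.filter (fun d : Fin m × Bool => dtgt s' t' d = v)) (fun d => d.1 ∈ F)
      rw [Finset.filter_filter, Finset.filter_filter] at h3
      cases b
      · have h4 : ((Finset.univ.filter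
            (fun d : Fin m × Bool => dtgt s' t' d ∈ C)).filter
            (fun d => (dtgt s' t' d, decide (d.1 ∈ F)) = (v, false))) =
            Finset.univ.filter (fun d : Fin m × Bool => dtgt s' t' d = v ∧ ¬ d.1 ∈ F) := by
          ext d
          simp only [Finset.mem_filter, Finset.mem_univ, true_and, Prod.mk.injEq,
            decide_eq_false_iff_not]
          constructor
          · rintro ⟨-, h5⟩; exact h5
          · rintro h5; exact ⟨h5.1 ▸ hv, h5⟩
        rw [h4]
        rw [Nat.even_iff] at *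
        omega
      · have h4 : ((Finset.univ.filter
            (fun d : Fin m × Bool => dtgt s' t' d ∈ C)).filter
            (fun d => (dtgt s' t' d, decide (d.1 ∈ F)) = (v, true))) =
            Finset.univ.filter (fun d : Fin m × Bool => dtgt s' t' d = v ∧ d.1 ∈ F) := by
          ext d
          simp only [Finset.mem_filter, Finset.mem_univ, true_and, Prod.mk.injEq,
            decide_eq_true_eq]
          constructor
          · rintro ⟨-, h5⟩; exact h5
          · rintro h5; exact ⟨h5.1 ▸ hv, h5⟩
        rw [h4]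
        exact h1
    · have h4 : ((Finset.univ.filter
            (fun d : Fin m × Bool => dtgt s' t' d ∈ C)).filter
            (fun d => (dtgt s' t' d, decide (d.1 ∈ F)) = (v, b))) = ∅ := by
        ext d
        simp only [Finset.mem_filter, Finset.mem_univ, true_and, Prod.mk.injEq,
          Finset.notMem_empty, iff_false]
        rintro ⟨h5, h6, -⟩
        exact hv (h6 ▸ h5)
      rw [h4]
      simp
  obtain ⟨π, hπ1, hπ2⟩ := exists_pairing (fun d : Fin m × Bool => (dtgt s' t' d, decide (d.1 ∈ F)))
    (fun d => dsrc s' t' d) _ (Finset.univ.filter (fun d : Fin m × Bool => dtgt s' t' d ∈ C))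
    le_rfl hpair
  have hπC : ∀ d, dtgt s' t' d ∈ C → π (π d) = d ∧ π d ≠ d ∧ dtgt s' t' (π d) = dtgt s' t' d ∧
      ((π d).1 ∈ F ↔ d.1 ∈ F) := by
    intro d hd
    obtain ⟨-, h1, h2, h3⟩ := hπ1 d (by simp [hd])
    simp only [Prod.mk.injEq, decide_eq_decide] at h3
    exact ⟨h1, h2, h3.1, h3.2⟩
  obtain ⟨L1, M1, hL1, hM1, hch, hMc, hnd, hall⟩ := tdec X m s' t' (↑C : Set X) π
    (fun d hd => by
      obtain ⟨h1, h2, h3, -⟩ := hπC d (by simpa using hd)
      exact ⟨h3, h1, h2⟩)
  -- consequences of the chain conditions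
  have hkind : ∀ (l : List (Fin m × Bool)) (d : Fin m × Bool),
      (d :: l).IsChain (fun d d' => dtgt s' t' d ∈ (↑C : Set X) ∧ π d = (d'.1, !d'.2)) →
      ∀ x ∈ l, (x.1 ∈ F ↔ d.1 ∈ F) := by
    intro l
    induction l with
    | nil => intro d _ x hx; simp at hx
    | cons y l ih =>
      intro d hc x hx
      rw [List.isChain_cons_cons] at hc
      have h1 : y.1 ∈ F ↔ d.1 ∈ F := by
        have := (hπC d (by simpa using hc.1.1)).2.2.2
        rw [hc.1.2] at this
        exact this
      rcases List.mem_cons.1 hx with rfl | hx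
      · exact h1
      · exact (ih y hc.2 x hx).trans h1
  have hAC : ∀ x ∈ A, x ∉ C := fun x hx h => hAU x hx (hCUs x h)
  have hdend : ∀ d : Fin m × Bool, (dsrc s' t' d ∈ A ∨ dsrc s' t' d ∈ Uj) ∧
      (dtgt s' t' d ∈ A ∨ dtgt s' t' d ∈ Uj) ∧ (dsrc s' t' d ∈ Uj ∨ dtgt s' t' d ∈ Uj) := by
    rintro ⟨i, b⟩
    cases b
    · exact ⟨by simpa [dsrc] using hq3 i, by simpa [dtgt] using hq2 i,
        by simpa [dsrc, dtgt] using (hq4 i).symm⟩
    · exact ⟨by simpa [dsrc] using hq2 i, by simpa [dtgt] using hq3 i,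
        by simpa [dsrc, dtgt] using hq4 i⟩
  -- the dart lemma for `Bs`
  have hBdart : ∀ d : Fin m × Bool, (dsrc s' t' d ∈ C ∧ dtgt s' t' d ∈ U') ∨
      (dtgt s' t' d ∈ C ∧ dsrc s' t' d ∈ U') → d.1 ∈ F := by
    rintro ⟨i, b⟩ hd
    refine hBF ?_
    rw [hBs, Finset.mem_filter]
    refine ⟨Finset.mem_univ _, ?_⟩
    cases b
    · simp only [dsrc, dtgt, Bool.false_eq_true, if_false] at hd
      tauto
    · simp only [dsrc, dtgt, if_true] at hd
      tauto
  -- edges of `F` with both ends in `C`
  have hroot : ∀ d : Fin m × Bool, d.1 ∈ F → dsrc s' t' d ∈ C → dtgt s' t' d ∈ C →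
      root (dsrc s' t' d) = root (dtgt s' t' d) := by
    rintro ⟨i, b⟩ hdF h1 h2
    rcases hFB i hdF with h3 | ⟨u, hu, rfl⟩
    · exfalso
      rw [hBs, Finset.mem_filter] at h3
      cases b
      · simp only [dsrc, dtgt, Bool.false_eq_true, if_false] at h1 h2
        rcases h3.2 with ⟨h4, h5⟩ | ⟨h4, h5⟩
        · exact hdisj _ h1 h5
        · exact hdisj _ h2 h5
      · simp only [dsrc, dtgt, if_true] at h1 h2
        rcases h3.2 with ⟨h4, h5⟩ | ⟨h4, h5⟩
        · exact hdisj _ h2 h5
        · exact hdisj _ h1 h5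
    · have h4 := (hrU u (hCUs u hu)).2.2.1
      have h5 := hpe u ((hCU u).2 (Or.inl hu))
      cases b
      · simp only [dsrc, dtgt, Bool.false_eq_true, if_false]
        rcases h5 with ⟨h5, h6⟩ | ⟨h5, h6⟩
        · rw [h5, h6, h4]
        · rw [h5, h6, h4]
      · simp only [dsrc, dtgt, if_true]
        rcases h5 with ⟨h5, h6⟩ | ⟨h5, h6⟩
        · rw [h5, h6, h4]
        · rw [h5, h6, h4]
  -- supports
  have hsupp : ∀ d : Fin m × Bool, ∀ v, (v = dsrc s' t' d ∨ v = dtgt s' t' d) →
      ∀ z ∈ spL sp (q d.1), dist z v ≤ γ := by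
    rintro ⟨i, b⟩ v hv z hz
    have h1 := ends_mem hsp (hq1 i).1 (hq1 i).2.1
    have h2 : v ∈ spL sp (q i) := by
      cases b
      · simp only [dsrc, dtgt, Bool.false_eq_true, if_false] at hv
        rcases hv with rfl | rfl
        · exact h1.2
        · exact h1.1
      · simp only [dsrc, dtgt, if_true] at hv
        rcases hv with rfl | rfl
        · exact h1.1
        · exact h1.2
    exact hq5 i z hz v h2
  have hsuppC : ∀ d : Fin m × Bool, ∀ v ∈ C, (v = dsrc s' t' d ∨ v = dtgt s' t' d) →
      ∀ z ∈ spL sp (q d.1), dist z (root v) ≤ γ + δ := by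
    intro d v hvC hv z hz
    have h1 := hsupp d v hv z hz
    have h2 := (hrU v (hCUs v hvC)).2.2.2.2.2.1
    rw [mem_closedBall] at h2
    linarith [dist_triangle z v (root v)]
  have hγ0 : 0 ≤ γ := hδ.trans hδγ
  -- expansions
  have hq1' : ∀ i, TrI src tgt (↑U : Set X) (s' i) (q i) (t' i) := hq1
  have hTrL1 : ∀ l ∈ L1, ∀ a b, IsTr s' t' a l b → TrI s' t' (↑U : Set X) a l b := by
    intro l hl a b hab
    refine ⟨hab, ?_, ?_⟩
    · obtain ⟨_, _, _, _, _, h1⟩ := hL1 l hl; exact h1
    · intro d hd
      have := inner_of_chain hab (hch l (List.mem_append_left _ hl)) d hd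
      exact hCUs _ (by simpa using this)
  -- the size of all new trails with every edge at `C`
  have hsizeB : ∀ l : List (Fin m × Bool), (∀ d ∈ l, dsrc s' t' d ∈ C ∨ dtgt s' t' d ∈ C) →
      Small B (spL sp (exL q l)) := by
    intro l hl
    have hc : ∀ z ∈ spL sp (exL q l), ∃ x ∈ D, dist z x ≤ γ + δ := by
      intro z hz
      rw [mem_spL_exL] at hz
      obtain ⟨d, hd, hz⟩ := hz
      rcases hl d hd with h1 | h1
      · exact ⟨_, hCD _ h1, hsuppC d _ h1 (Or.inl rfl) z hz⟩
      · exact ⟨_, hCD _ h1, hsuppC d _ h1 (Or.inr rfl) z hz⟩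
    intro y hy z hz
    obtain ⟨x, hx, hyx⟩ := hc y hy
    obtain ⟨x', hx', hzx'⟩ := hc z hz
    have h1 := hD x hx x' hx'
    rw [dist_comm] at hzx'
    linarith [dist_triangle y x z, dist_triangle x x' z]
  -- structure of long open trails
  have hlong : ∀ l ∈ L1, ∀ d1 d2 l', l = d1 :: d2 :: l' → (∀ d ∈ l, dsrc s' t' d ∈ C ∨
      dtgt s' t' d ∈ C) ∧ dtgt s' t' d1 ∈ C ∧ dsrc s' t' d1 ∉ C := by
    rintro l hl d1 d2 l' rfl
    obtain ⟨a, b, hab, ha, hb, -⟩ := hL1 _ hl
    have hc := hch _ (List.mem_append_left _ hl)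
    have h1 := inner_of_chain hab hc
    have h2 : dtgt s' t' d1 ∈ C := by
      rw [List.isChain_cons_cons] at hc
      simpa using hc.1.1
    refine ⟨?_, h2, ?_⟩
    · intro d hd
      rcases List.mem_cons.1 hd with rfl | hd
      · exact Or.inr h2
      · exact Or.inl (by simpa using h1 d (by simpa using hd))
    · rw [isTr_cons] at hab
      rw [hab.1]
      simpa using ha
  -- first kind: small
  have hfirst : ∀ l ∈ L1, ∀ d1 d2 l', l = d1 :: d2 :: l' → d1.1 ∈ F →
      Small (2 * γ + 2 * δ) (spL sp (exL q l)) := by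
    rintro l hl d1 d2 l' rfl hd1F
    obtain ⟨a, b, hab, ha, hb, -⟩ := hL1 _ hl
    have hc := hch _ (List.mem_append_left _ hl)
    have hk := hkind _ _ hc
    have hC1 := (hlong _ hl d1 d2 l' rfl).2.1
    have key : ∀ (l : List (Fin m × Bool)) (x : X), x ∈ C → IsTr s' t' x l b →
        l.IsChain (fun d d' => dtgt s' t' d ∈ (↑C : Set X) ∧ π d = (d'.1, !d'.2)) →
        (∀ d ∈ l, d.1 ∈ F) → ∀ d ∈ l, dsrc s' t' d ∈ C ∧ root (dsrc s' t' d) = root x := by
      intro l
      induction l with
      | nil => intro x _ _ _ _ d hd; simp at hd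
      | cons y l ih =>
        intro x hxC hx hc hF d hd
        rw [isTr_cons] at hx
        rcases List.mem_cons.1 hd with rfl | hd
        · rw [hx.1]; exact ⟨hxC, rfl⟩
        · cases l with
          | nil => simp at hd
          | cons z l =>
            rw [List.isChain_cons_cons] at hc
            have hyC : dtgt s' t' y ∈ C := by simpa using hc.1.1
            have h1 := ih (dtgt s' t' y) hyC hx.2 hc.2
              (fun d hd => hF d (List.mem_cons_of_mem _ hd)) d hd
            refine ⟨h1.1, h1.2.trans ?_⟩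
            rw [← hroot y (hF y (by simp)) (by rw [hx.1]; exact hxC) hyC, hx.1]
    rw [isTr_cons] at hab
    have h3 := key (d2 :: l') (dtgt s' t' d1) hC1 hab.2
      (by rw [List.isChain_cons_cons] at hc; exact hc.2) (fun d hd => (hk d hd).2 hd1F)
    have hcen : ∀ z ∈ spL sp (exL q (d1 :: d2 :: l')), dist z (root (dtgt s' t' d1)) ≤ γ + δ := by
      intro z hz
      rw [mem_spL_exL] at hz
      obtain ⟨d, hd, hz⟩ := hz
      rcases List.mem_cons.1 hd with rfl | hd
      · exact hsuppC d _ hC1 (Or.inr rfl) z hz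
      · obtain ⟨h4, h5⟩ := h3 d hd
        rw [← h5]
        exact hsuppC d _ h4 (Or.inl rfl) z hz
    intro y hy z hz
    have h4 := hcen y hy
    have h5 := hcen z hz
    rw [dist_comm] at h5
    linarith [dist_triangle y (root (dtgt s' t' d1)) z]
  -- second kind: ends in `A`
  have hsecond : ∀ l ∈ L1, ∀ d1 d2 l', l = d1 :: d2 :: l' → d1.1 ∉ F → ∀ a b,
      IsTr s' t' a l b → a ∉ U' ∧ b ∉ U' := by
    rintro l hl d1 d2 l' rfl hd1F a b hab
    have hc := hch _ (List.mem_append_left _ hl)
    have hk := hkind _ _ hc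
    obtain ⟨h1, h2, h3⟩ := hlong _ hl d1 d2 l' rfl
    refine ⟨?_, ?_⟩
    · intro ha
      rw [isTr_cons] at hab
      exact hd1F (hBdart d1 (Or.inr ⟨h2, by rw [hab.1]; exact ha⟩))
    · intro hb
      have h4 := inner_of_chain hab hc
      have h5 : (d2 :: l') ≠ [] := by simp
      obtain ⟨l'', x, hx⟩ := List.eq_nil_or_concat (d2 :: l') |>.resolve_left h5
      have hx' : d1 :: d2 :: l' = (d1 :: l'') ++ [x] := by
        rw [List.cons_append]; rw [hx]; simp
      have hxm : x ∈ d2 :: l' := by rw [hx]; simp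
      rw [hx', isTr_append] at hab
      obtain ⟨c, -, hcx⟩ := hab
      rw [isTr_cons, isTr_nil] at hcx
      have h6 : dsrc s' t' x ∈ C := by simpa using h4 x (by simpa using hxm)
      have h7 := hBdart x (Or.inl ⟨h6, by rw [hcx.2]; exact hb⟩)
      exact hd1F ((hk x hxm).1 h7)
  -- ends of open trails
  have hends' : ∀ l ∈ L1, ∀ a b, IsTr s' t' a l b → (a ∈ A ∨ a ∈ U') ∧ (b ∈ A ∨ b ∈ U') := by
    intro l hl a b hab
    obtain ⟨a', b', hab', ha', hb', hne⟩ := hL1 l hl
    obtain rfl := isTr_src_unique s' t' hab hab' hne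
    obtain rfl := isTr_tgt_unique s' t' hab hab' hne
    have key : ∀ x, x ∉ (↑C : Set X) → (x ∈ A ∨ x ∈ Uj) → (x ∈ A ∨ x ∈ U') := by
      intro x hx hx'
      rcases hx' with h | h
      · exact Or.inl h
      · rcases (hCU x).1 h with h | h
        · exact absurd (by simpa using h) hx
        · exact Or.inr h
    constructor
    · refine key a ha' ?_
      cases l with
      | nil => exact absurd rfl hne
      | cons d l => rw [isTr_cons] at hab; rw [← hab.1]; exact (hdend d).1
    · refine key b hb' ?_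
      have hr := isTr_rv s' t' hab
      have hrne : rv l ≠ [] := by simpa [rv] using hne
      cases hrv : rv l with
      | nil => exact absurd hrv hrne
      | cons d l'' =>
        rw [hrv, isTr_cons] at hr
        rw [← hr.1]; exact (hdend d).1
  have hsubC : (↑C : Set X) ⊆ (↑U : Set X) := fun x hx => hCUs x (by simpa using hx)
  -- the new state
  set P1 : List (Fin m × Bool) → Bool :=
    fun l => decide (∃ a b, IsTr s' t' a l b ∧ (a ∈ U' ∨ b ∈ U')) with hP1
  have hP1F : ∀ l ∈ L1, P1 l = false → ∀ a b, IsTr s' t' a l b → a ∈ A ∧ b ∈ A := by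
    intro l hl h1 a b hab
    rw [hP1] at h1
    simp only [decide_eq_false_iff_not] at h1
    have h2 : ¬ (a ∈ U' ∨ b ∈ U') := fun h => h1 ⟨a, b, hab, h⟩
    push Not at h2
    obtain ⟨h3, h4⟩ := hends' l hl a b hab
    exact ⟨h3.resolve_right h2.1, h4.resolve_right h2.2⟩
  have hlen2 : ∀ l ∈ L1, P1 l = false → ∃ d1 d2 l', l = d1 :: d2 :: l' := by
    intro l hl h1
    obtain ⟨a, b, hab, ha, hb, hne⟩ := hL1 l hl
    cases l with
    | nil => exact absurd rfl hne
    | cons d1 l =>
      cases l with
      | nil =>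
        exfalso
        obtain ⟨h2, h3⟩ := hP1F _ hl h1 a b hab
        rw [isTr_cons, isTr_nil] at hab
        rcases (hdend d1).2.2 with h4 | h4
        · rw [hab.1] at h4; exact hAU a h2 (hUj h4)
        · rw [hab.2] at h4; exact hAU b h3 (hUj h4)
      | cons d2 l => exact ⟨d1, d2, l, rfl⟩
  have hqne : ∀ i, q i ≠ [] := fun i => (hq1 i).2.1
  refine ⟨(L1.filter P1).map (exL q), L ++ (L1.filter (fun l => !P1 l)).map (exL q),
    M ++ M1.map (exL q), ?_, ?_, ?_, ?_, ?_, ?_, ?_⟩
  · -- hQ
    intro l' hl'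
    rw [List.mem_map] at hl'
    obtain ⟨l, hl, rfl⟩ := hl'
    rw [List.mem_filter] at hl
    obtain ⟨hl, hP⟩ := hl
    rw [hP1] at hP
    simp only [decide_eq_true_eq] at hP
    obtain ⟨a, b, hab, habU⟩ := hP
    obtain ⟨h1, h2⟩ := hends' l hl a b hab
    refine ⟨a, b, TrI_exL hq1' (hTrL1 l hl a b hab), h1, h2, habU, ?_⟩
    obtain ⟨_, _, _, _, _, hne⟩ := hL1 l hl
    cases l with
    | nil => exact absurd rfl hne
    | cons d1 l =>
      cases l with
      | nil =>
        have h3 : spL sp (exL q [d1]) ⊆ spL sp (q d1.1) := by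
          intro z hz
          rw [mem_spL_exL] at hz
          obtain ⟨d, hd, hz⟩ := hz
          rw [List.mem_singleton] at hd
          rwa [hd] at hz
        intro y hy z hz
        have := hq5 d1.1 y (h3 hy) z (h3 hz)
        linarith
      | cons d2 l =>
        by_cases hF1 : d1.1 ∈ F
        · exact hfirst _ hl d1 d2 l rfl hF1
        · exfalso
          have := hsecond _ hl d1 d2 l rfl hF1 a b hab
          tauto
  · -- hpar
    intro u hu
    have huU := hU'Us u hu
    have huj : u ∈ Uj := (hCU u).2 (Or.inr hu)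
    obtain ⟨b, hb⟩ := hiu u huj
    have hw : (par u).2 ∉ C := by
      intro hw
      have h1 := (hrU u huU).2.2.1
      exact hdisj _ hw (hcl' u hu _ (hCUs _ hw) h1)
    have huC : u ∉ C := fun h => hdisj u h hu
    have hnotC : ∀ c : Bool, dsrc s' t' (iu u, c) ∉ C ∧ dtgt s' t' (iu u, c) ∉ C := by
      intro c
      rcases hpe u huj with ⟨h1, h2⟩ | ⟨h1, h2⟩ <;> cases c <;>
        simp only [dsrc, dtgt, Bool.false_eq_true, if_false, if_true, h1, h2] <;>
        exact ⟨by assumption, by assumption⟩
    have hmem := hall (iu u)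
    rw [List.mem_map] at hmem
    obtain ⟨d, hd, hdi⟩ := hmem
    rw [List.mem_flatten] at hd
    obtain ⟨l, hl, hdl⟩ := hd
    obtain ⟨i, c⟩ := d
    simp only at hdi
    subst hdi
    rcases List.mem_append.1 hl with hl1 | hl1
    · obtain ⟨a, b', hab, ha, hb', hne⟩ := hL1 l hl1
      have hc := hch l hl
      obtain ⟨l1, l2, rfl⟩ := List.append_of_mem hdl
      have h2 : l2 = [] := by
        by_contra h2
        exact (hnotC c).2 (by simpa using chain_split hc h2)
      have h1 : l1 = [] := by
        by_contra h1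
        have := inner_of_chain hab hc (iu u, c) (by
          rw [List.tail_append_of_ne_nil h1]
          simp)
        exact (hnotC c).1 (by simpa using this)
      subst h1 h2
      simp only [List.nil_append] at hl1 hab
      have hP : P1 [(iu u, c)] = true := by
        rw [hP1]
        simp only [decide_eq_true_eq]
        refine ⟨a, b', hab, ?_⟩
        rw [isTr_cons, isTr_nil] at hab
        rw [← hab.1, ← hab.2]
        rcases hpe u huj with ⟨h1, h2⟩ | ⟨h1, h2⟩ <;> cases c <;>
          simp [dsrc, dtgt, h1, hu]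
      have hexp : exL q [(iu u, c)] = if c then [((par u).1, b)] else [((par u).1, !b)] := by
        simp only [exL, List.flatMap_cons, List.flatMap_nil, List.append_nil, exd, hb]
        cases c <;> simp [rv, fl]
      refine ⟨if c then b else !b, ?_⟩
      rw [List.mem_map]
      refine ⟨[(iu u, c)], List.mem_filter.2 ⟨hl1, hP⟩, ?_⟩
      rw [hexp]
      cases c <;> simp
    · exfalso
      obtain ⟨a, -, -, -, h1⟩ := hM1 l hl1
      exact (hnotC c).1 (by simpa using h1 _ hdl)
  · -- hL
    intro l' hl'
    rcases List.mem_append.1 hl' with hl' | hl'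
    · exact h.hL l' hl'
    · rw [List.mem_map] at hl'
      obtain ⟨l, hl, rfl⟩ := hl'
      rw [List.mem_filter] at hl
      obtain ⟨hl, hP⟩ := hl
      have hP : P1 l = false := by simpa using hP
      obtain ⟨a, b, hab, -, -, hne⟩ := hL1 l hl
      obtain ⟨h1, h2⟩ := hP1F l hl hP a b hab
      have h3 := TrI_exL hq1' (hTrL1 l hl a b hab)
      refine ⟨⟨a, h1, b, h2, h3.1⟩, ?_, ?_⟩
      · obtain ⟨d1, d2, l', rfl⟩ := hlen2 l hl hP
        refine le_trans ?_ (length_exL hqne _)
        simp
      · intro l1 d l2 h4 h5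
        have := h3.2.2 d (by
          rw [h4, List.tail_append_of_ne_nil h5]
          simp)
        simpa using this
  · -- hM
    intro l' hl'
    rcases List.mem_append.1 hl' with hl' | hl'
    · exact h.hM l' hl'
    · rw [List.mem_map] at hl'
      obtain ⟨l, hl, rfl⟩ := hl'
      obtain ⟨a, haC, hab, hne, hall'⟩ := hM1 l hl
      have h1 : TrI s' t' (↑U : Set X) a l a :=
        ⟨hab, hne, fun d hd => hsubC (hall' d (List.mem_of_mem_tail hd))⟩
      have h3 := TrI_exL hq1' h1
      refine ⟨⟨a, h3.1⟩, h3.2.1, ?_⟩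
      intro d hd
      have hex : exL q l ≠ [] := h3.2.1
      cases hl'' : exL q l with
      | nil => exact absurd hl'' hex
      | cons x l'' =>
        rw [hl''] at hd h3
        rcases List.mem_cons.1 hd with rfl | hd
        · have h4 := h3.1
          rw [isTr_cons] at h4
          rw [h4.1]
          exact hCUs a (by simpa using haC)
        · simpa using h3.2.2 d (by simpa using hd)
  · -- hsm
    intro l' hl'
    have key : l' ∈ L ++ M ∨ l' ∈ (L1.filter (fun l => !P1 l)).map (exL q) ∨
        l' ∈ M1.map (exL q) := by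
      simp only [List.mem_append] at hl' ⊢
      tauto
    rcases key with hl' | hl' | hl'
    · exact h.hsm l' hl'
    · rw [List.mem_map] at hl'
      obtain ⟨l, hl, rfl⟩ := hl'
      rw [List.mem_filter] at hl
      obtain ⟨hl, hP⟩ := hl
      have hP : P1 l = false := by simpa using hP
      obtain ⟨d1, d2, l', rfl⟩ := hlen2 l hl hP
      exact hsizeB _ (hlong _ hl d1 d2 l' rfl).1
    · rw [List.mem_map] at hl'
      obtain ⟨l, hl, rfl⟩ := hl'
      obtain ⟨a, haC, hab, hne, hall'⟩ := hM1 l hl
      exact hsizeB _ fun d hd => Or.inl (by simpa using hall' d hd)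
  · -- hcov
    have hp1 : ((L1 ++ M1).flatten.map Prod.fst).Perm (List.finRange m) :=
      (List.perm_ext_iff_of_nodup hnd (List.nodup_finRange m)).2 
        (fun a => ⟨fun _ => List.mem_finRange a, fun _ => hall a⟩)
    have hp2 : (((L1 ++ M1).map (exL q)).flatten.map Prod.fst).Perm (Q.flatten.map Prod.fst) := by
      refine (exLs_fst q (L1 ++ M1)).trans ?_
      have h1 : Q.flatten.map Prod.fst = (List.finRange m).flatMap fun i => (q i).map Prod.fst := by
        have h2 : (List.finRange m).map q = Q := by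
          rw [hqdef]
          exact List.map_get_finRange Q
        have h3 : (List.finRange m).flatMap (fun i => (q i).map Prod.fst) =
            ((List.finRange m).map q).flatMap (fun l => l.map Prod.fst) := by
          rw [List.flatMap_map]
        rw [h3, h2, List.map_flatten, List.flatMap_def]
      rw [h1]
      exact hp1.flatMap_right _
    have hp3 : ((L1.filter P1).map (exL q) ++ ((L ++ (L1.filter (fun l => !P1 l)).map (exL q)) ++
        (M ++ M1.map (exL q)))).Perm ((L1 ++ M1).map (exL q) ++ (L ++ M)) := by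
      have h1 : ((L1.filter P1).map (exL q) ++ (L1.filter (fun l => !P1 l)).map (exL q)).Perm
          (L1.map (exL q)) := by
        rw [← List.map_append]
        exact (List.filter_append_perm P1 L1).map _
      rw [← Multiset.coe_eq_coe] at h1 ⊢
      rw [← Multiset.coe_add] at h1
      rw [List.map_append]
      simp only [← Multiset.coe_add]
      rw [← h1]
      abel
    have hp4 : (((L1.filter P1).map (exL q) ++ ((L ++ (L1.filter (fun l => !P1 l)).map (exL q)) ++
        (M ++ M1.map (exL q)))).flatten.map Prod.fst).Perm ((Q ++ (L ++ M)).flatten.map Prod.fst)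
        := by
      have e1 : ∀ A B : List (List (Fin n × Bool)), (A ++ B).flatten.map Prod.fst =
          A.flatten.map Prod.fst ++ B.flatten.map Prod.fst := by
        intro A B
        rw [List.flatten_append, List.map_append]
      refine (hp3.flatten.map _).trans ?_
      rw [e1 ((L1 ++ M1).map (exL q)) (L ++ M), e1 Q (L ++ M)]
      exact hp2.append_right _
    exact ⟨hp4.nodup_iff.2 h.hcov.1, fun e => (hp4.mem_iff).trans (h.hcov.2 e)⟩
  · -- hcount
    unfold openCount
    rw [List.countP_append]
    refine add_le_add h.hcount ?_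
    rw [List.countP_map, List.countP_eq_length_filter]
    set S := (L1.filter (fun l => !P1 l)).filter
      ((fun l => decide (¬ ∃ a, IsTr src tgt a l a)) ∘ exL q) with hS
    have hSsub : S.Sublist L1 := (List.filter_sublist).trans List.filter_sublist
    have hSm : ∀ l ∈ S, l ∈ L1 ∧ P1 l = false ∧ ¬ ∃ a, IsTr src tgt a (exL q l) a := by
      intro l hl
      rw [hS, List.mem_filter, List.mem_filter] at hl
      obtain ⟨⟨h1, h2⟩, h3⟩ := hl
      refine ⟨h1, by simpa using h2, ?_⟩
      simpa using h3
    set ψ : Fin m × Bool → (X × Bool) × X :=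
      fun d => ((dtgt s' t' d, decide (d.1 ∈ F)), dsrc s' t' d) with hψ
    -- the first dart is mispaired
    have hmis : ∀ l ∈ S, ∃ d, d ∈ l.head? ∧ d ∈ l ∧ dtgt s' t' d ∈ C ∧ dsrc s' t' d ∈ A ∧
        dsrc s' t' (π d) ≠ dsrc s' t' d := by
      intro l hl
      obtain ⟨h1, h2, h3⟩ := hSm l hl
      obtain ⟨d1, d2, l', rfl⟩ := hlen2 l h1 h2
      obtain ⟨a, b, hab, ha, hb, -⟩ := hL1 _ h1
      obtain ⟨h4, h5⟩ := hP1F _ h1 h2 a b hab
      have hc := hch _ (List.mem_append_left _ h1)
      obtain ⟨-, h6, h7⟩ := hlong _ h1 d1 d2 l' rfl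
      have hab' := hab
      rw [isTr_cons] at hab'
      refine ⟨d1, by simp, by simp, h6, by rw [hab'.1]; exact h4, ?_⟩
      intro hpi
      rw [List.isChain_cons_cons] at hc
      rw [hc.1.2] at hpi
      have h8 : dsrc s' t' (d2.1, !d2.2) = dtgt s' t' d2 := dsrc_fl s' t' d2
      rw [h8, hab'.1] at hpi
      have h9 := hab'.2
      rw [isTr_cons] at h9
      cases l' with
      | nil =>
        rw [isTr_nil] at h9
        rw [hpi] at h9
        obtain rfl := h9.2
        exact h3 ⟨a, (TrI_exL hq1' (hTrL1 _ h1 a a hab)).1⟩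
      | cons d3 l' =>
        have h10 := hc.2
        rw [List.isChain_cons_cons] at h10
        rw [hpi] at h10
        exact ha h10.1.1
    -- injectivity
    have hnd2 : L1.Pairwise List.Disjoint := by
      have h1 : (L1 ++ M1).flatten.Nodup := List.Nodup.of_map _ hnd
      rw [List.flatten_append, List.nodup_append] at h1
      exact (List.nodup_flatten.1 h1.1).2
    have hnd3 : S.Pairwise List.Disjoint := hnd2.sublist hSsub
    have hnd4 : (S.map (fun l => l.head?.map ψ)).Nodup := by
      rw [List.Nodup, List.pairwise_map]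
      refine hnd3.imp_of_mem ?_
      intro l1 l2 hl1 hl2 hdis heq
      obtain ⟨d1, h1, h2, h3, h4, h5⟩ := hmis l1 hl1
      obtain ⟨d2, g1, g2, g3, g4, g5⟩ := hmis l2 hl2
      rw [Option.mem_def] at h1 g1
      rw [h1, g1] at heq
      simp only [Option.map_some, Option.some.injEq, hψ, Prod.mk.injEq] at heq
      have := hπ2 d1 (by simp [h3]) d2 (by simp [g3]) (by simp only [Prod.mk.injEq]; exact heq.1)
        heq.2 h5 g5
      subst this
      exact hdis h2 g2
    have hsubs : (S.map (fun l => l.head?.map ψ)).toFinset ⊆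
        ((C ×ˢ (Finset.univ : Finset Bool)) ×ˢ A).image some := by
      intro x hx
      rw [List.mem_toFinset, List.mem_map] at hx
      obtain ⟨l, hl, rfl⟩ := hx
      obtain ⟨d1, h1, h2, h3, h4, h5⟩ := hmis l hl
      rw [Option.mem_def] at h1
      rw [h1, Finset.mem_image]
      refine ⟨ψ d1, ?_, rfl⟩
      simp only [hψ, Finset.mem_product, Finset.mem_univ, and_true]
      exact ⟨h3, h4⟩
    calc S.length = (S.map (fun l => l.head?.map ψ)).length := by rw [List.length_map]
      _ = (S.map (fun l => l.head?.map ψ)).toFinset.card :=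
          (List.toFinset_card_of_nodup hnd4).symm
      _ ≤ (((C ×ˢ (Finset.univ : Finset Bool)) ×ˢ A).image some).card := Finset.card_le_card hsubs
      _ ≤ ((C ×ˢ (Finset.univ : Finset Bool)) ×ˢ A).card := Finset.card_image_le
      _ = 2 * C.card * A.card := by
          rw [Finset.card_product, Finset.card_product, Finset.card_univ, Fintype.card_bool]
          ring

/-- ELIM -/
theorem elim (X : Type u) [MetricSpace X] : ElimStmt X := by
  classical
  intro K D sg δ hδ hD hcov hsg n src tgt sp A U hG hsmall heven par root rk hFo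
  -- the cell of a point
  have hcell : ∀ x : X, ∃ j : Fin K, x ∈ D j := by
    intro x
    have : x ∈ ⋃ j, D j := by rw [hcov]; exact mem_univ _
    simpa using this
  choose cell hcell using hcell
  set c : X → ℕ := fun u => (cell (root u) : ℕ) with hc
  have hsg0 : 0 ≤ sg := le_trans (by positivity) hsg
  set g : ℕ → ℝ := fun j => ((2:ℝ) ^ (j + 2) - 2) * δ with hg
  have hgs : ∀ j, g (j + 1) = 2 * g j + 2 * δ := by
    intro j
    simp only [hg]
    ring
  have hgδ : ∀ j, δ ≤ g j := by
    intro j
    simp only [hg]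
    have h1 : (1:ℝ) ≤ 2 ^ j := one_le_pow₀ (by norm_num)
    have h2 : (2:ℝ) ^ (j + 2) = 4 * 2 ^ j := by ring
    rw [h2]
    nlinarith
  have key : ∀ j : ℕ, j ≤ K → ∃ Q L M, ESt src tgt sp A U (U.filter (fun u => j ≤ c u)) par (g j)
      (4 * sg) (2 * (U.filter (fun u => c u < j)).card * A.card) Q L M := by
    intro j
    induction j with
    | zero =>
      intro _
      refine ⟨((List.finRange n).filter (fun e => decide (src e ∈ U ∨ tgt e ∈ U))).map
        (fun e => [(e, true)]), [], [], ?_, ?_, ?_, ?_, ?_, ?_, ?_⟩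
      · intro l hl
        rw [List.mem_map] at hl
        obtain ⟨e, he, rfl⟩ := hl
        rw [List.mem_filter] at he
        have he2 : src e ∈ U ∨ tgt e ∈ U := by simpa using he.2
        refine ⟨src e, tgt e, ⟨by simp [dsrc, dtgt], by simp, by simp⟩, ?_, ?_, ?_, ?_⟩
        · simpa using (hG.2.1 e).1
        · simpa using (hG.2.1 e).2
        · simpa using he2
        · intro y hy z hz
          obtain ⟨d, hd, hy⟩ := hy
          obtain ⟨d', hd', hz⟩ := hz
          rw [List.mem_singleton] at hd hd'
          subst hd hd'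
          exact (hsmall e he2 y hy z hz).trans (hgδ 0)
      · intro u hu
        rw [Finset.mem_filter] at hu
        refine ⟨true, ?_⟩
        rw [List.mem_map]
        refine ⟨(par u).1, ?_, rfl⟩
        rw [List.mem_filter]
        refine ⟨List.mem_finRange _, ?_⟩
        simp only [decide_eq_true_eq]
        rcases (hFo.2 u hu.1).1 with ⟨h1, -⟩ | ⟨h1, -⟩
        · left; rw [h1]; exact hu.1
        · right; rw [h1]; exact hu.1
      · intro l hl; simp at hl
      · intro l hl; simp at hl
      · intro l hl; simp at hl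
      · have h1 : ((((List.finRange n).filter (fun e => decide (src e ∈ U ∨ tgt e ∈ U))).map
            (fun e => [(e, true)]) ++ ([] ++ [])).flatten.map Prod.fst) =
            (List.finRange n).filter (fun e => decide (src e ∈ U ∨ tgt e ∈ U)) := by
          rw [List.append_nil, List.append_nil]
          induction (List.finRange n).filter (fun e => decide (src e ∈ U ∨ tgt e ∈ U)) with
          | nil => rfl
          | cons a l ih =>
            rw [List.map_cons, List.flatten_cons, List.map_append, ih]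
            rfl
        unfold CoversInc
        rw [h1]
        refine ⟨(List.nodup_finRange n).filter _, fun e => ?_⟩
        rw [List.mem_filter]
        simp
      · simp [openCount]
    | succ j ih =>
      intro hj
      obtain ⟨Q, L, M, h⟩ := ih (by omega)
      have hjK : j < K := by omega
      have hB : sg + 2 * (g j + δ) ≤ 4 * sg := by
        have h1 : g j + δ ≤ 2 ^ (j + 2) * δ := by
          simp only [hg]
          nlinarith
        have h2 : (2:ℝ) ^ (j + 2) * δ ≤ 2 ^ (K + 4) * δ := by
          refine mul_le_mul_of_nonneg_right ?_ hδ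
          exact pow_le_pow_right₀ (by norm_num) (by omega)
        linarith
      obtain ⟨Q', L', M', h'⟩ := elim_step hG heven hFo hδ (hD ⟨j, hjK⟩) (hgδ j)
        (C := U.filter (fun u => c u = j)) (U' := U.filter (fun u => j + 1 ≤ c u))
        (Uj := U.filter (fun u => j ≤ c u)) (Finset.filter_subset _ _)
        (by
          intro u
          simp only [Finset.mem_filter]
          constructor
          · rintro ⟨h1, h2⟩
            rcases Nat.lt_or_eq_of_le h2 with h3 | h3
            · exact Or.inr ⟨h1, h3⟩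
            · exact Or.inl ⟨h1, h3.symm⟩
          · rintro (⟨h1, h2⟩ | ⟨h1, h2⟩)
            · exact ⟨h1, h2.ge⟩
            · exact ⟨h1, by omega⟩)
        (by
          intro u hu hu'
          rw [Finset.mem_filter] at hu hu'
          omega)
        (by
          intro u hu
          rw [Finset.mem_filter] at hu
          have h1 : cell (root u) = ⟨j, hjK⟩ := Fin.ext hu.2
          rw [← h1]
          exact hcell _)
        (by
          intro u hu w hw hr
          rw [Finset.mem_filter] at hu ⊢
          refine ⟨hw, ?_⟩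
          rw [← hu.2]
          simp only [hc, hr])
        (by
          intro u hu w hw hr
          rw [Finset.mem_filter] at hu ⊢
          refine ⟨hw, hu.2.trans (le_of_eq ?_)⟩
          simp only [hc, hr])
        hB h
      refine ⟨Q', L', M', ?_⟩
      rw [hgs]
      have hN : 2 * (U.filter (fun u => c u < j)).card * A.card +
          2 * (U.filter (fun u => c u = j)).card * A.card =
          2 * (U.filter (fun u => c u < j + 1)).card * A.card := by
        have h1 : U.filter (fun u => c u < j + 1) = U.filter (fun u => c u < j) ∪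
            U.filter (fun u => c u = j) := by
          ext u
          simp only [Finset.mem_union, Finset.mem_filter]
          constructor
          · rintro ⟨h1, h2⟩
            rcases Nat.lt_succ_iff_lt_or_eq.1 h2 with h3 | h3
            · exact Or.inl ⟨h1, h3⟩
            · exact Or.inr ⟨h1, h3⟩
          · rintro (⟨h1, h2⟩ | ⟨h1, h2⟩)
            · exact ⟨h1, by omega⟩
            · exact ⟨h1, by omega⟩
        have h2 : Disjoint (U.filter (fun u => c u < j)) (U.filter (fun u => c u = j)) := by
          rw [Finset.disjoint_left]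
          intro u hu hu'
          rw [Finset.mem_filter] at hu hu'
          omega
        rw [h1, Finset.card_union_of_disjoint h2]
        ring
      rw [hN] at h'
      exact h'
  obtain ⟨Q, L, M, h⟩ := key K le_rfl
  have hUe : U.filter (fun u => K ≤ c u) = ∅ := by
    rw [Finset.filter_eq_empty_iff]
    intro u _ h1
    have := (cell (root u)).2
    simp only [hc] at h1
    omega
  have hQe : Q = [] := by
    cases Q with
    | nil => rfl
    | cons l Q =>
      exfalso
      obtain ⟨a, b, -, -, -, h1, -⟩ := h.hQ l (by simp)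
      rw [hUe] at h1
      simp at h1
  subst hQe
  refine ⟨L, M, h.hL, h.hM, by simpa using h.hcov, h.hsm, h.hcount.trans ?_⟩
  have h1 : (U.filter (fun u => c u < K)).card ≤ U.card := Finset.card_filter_le _ _
  have h2 : 2 * (U.filter (fun u => c u < K)).card * A.card ≤ 2 * U.card * A.card :=
    Nat.mul_le_mul_right _ (Nat.mul_le_mul_left _ h1)
  refine h2.trans ?_
  nlinarith

end elim

end Pool.Agent.EU.H75
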