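import Pool.Agent.Helper17_EU.DefsC

/-! # Module SF: small forests by carving -/

open Set Metric

namespace Pool.Agent.EU.H75

universe u w w'

/-- reaching `T` inside `W` -/
inductive Rch {V : Type w} (Adj : V → V → Prop) (T W : Set V) : V → Prop
  | base (a : V) : a ∈ T → Rch Adj T W a
  | step (x y : V) : x ∈ W → Adj x y → Rch Adj T W y → Rch Adj T W x

theorem Rch.mono {V : Type w} {Adj : V → V → Prop} {T W T' W' : Set V} (hT : T ⊆ T')
    (hW : W ⊆ W') {x : V} (h : Rch Adj T W x) : Rch Adj T' W' x := by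
  induction h with
  | base a ha => exact Rch.base a (hT ha)
  | step x y hx hxy _ ih => exact Rch.step x y (hW hx) hxy ih

/-- a set in which every element reaches `A` -/
def GoodS {V : Type w} (Adj : V → V → Prop) (A W : Set V) : Prop :=
  ∀ x ∈ W, Rch Adj (A ∩ W) W x

theorem GoodS.sUnion {V : Type w} {Adj : V → V → Prop} {A : Set V} {F : Set (Set V)}
    (h : ∀ S ∈ F, GoodS Adj A S) : GoodS Adj A (⋃₀ F) := by
  rintro x ⟨S, hS, hx⟩
  refine Rch.mono ?_ ?_ (h S hS x hx)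
  · exact fun y hy => ⟨hy.1, S, hS, hy.2⟩
  · exact fun y hy => ⟨S, hS, hy⟩

/-- support of a set of vertices -/
def supS {X : Type u} {V : Type w} (sv : V → Set X) (S : Set V) : Set X := {z | ∃ v ∈ S, z ∈ sv v}

theorem Small.mono' {X : Type u} [MetricSpace X] {r s : ℝ} {A B : Set X} (h : Small s B)
    (hrs : s ≤ r) (hAB : A ⊆ B) : Small r A :=
  fun y hy z hz => (h y (hAB hy) z (hAB hz)).trans hrs

/-- the carving step -/
theorem carve {X : Type u} [MetricSpace X] {V : Type w} (Adj : V → V → Prop) (A : Set V) (pos : V → X) (sv : V → Set X)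
    (hpos : ∀ v, pos v ∈ sv v) (η : ℝ) (D : Set X) (W : Set V)
    (hW : ∀ v ∈ W, ∃ S ⊆ W, v ∈ S ∧ GoodS Adj A S ∧ Small η (supS sv S)) :
    ∃ C ⊆ W, GoodS Adj A C ∧ (∀ v ∈ W, pos v ∈ D → v ∈ C) ∧
      (∀ v ∈ C, ∀ z ∈ sv v, ∃ d ∈ D, dist z d ≤ 2 * η) ∧
      ∀ v ∈ W \ C, ∃ S ⊆ W \ C, v ∈ S ∧ GoodS Adj A S ∧ Small (2 * η) (supS sv S) := by
  by_cases hη : 0 ≤ η
  swap
  · have hWe : W = ∅ := by
      rw [Set.eq_empty_iff_forall_notMem]
      intro v hv
      obtain ⟨S, -, hvS, -, hsm⟩ := hW v hv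
      have := hsm (pos v) ⟨v, hvS, hpos v⟩ (pos v) ⟨v, hvS, hpos v⟩
      rw [dist_self] at this
      exact hη this
    subst hWe
    refine ⟨∅, by simp, ?_, ?_, ?_, ?_⟩
    · intro x hx; simp at hx
    · intro v hv; simp at hv
    · intro v hv; simp at hv
    · intro v hv; simp at hv
  set C0 : Set V := ⋃₀ {S | S ⊆ W ∧ GoodS Adj A S ∧ Small η (supS sv S) ∧ ∃ v ∈ S, pos v ∈ D}
    with hC0
  have hC0W : C0 ⊆ W := by
    rintro x ⟨S, hS, hx⟩
    exact hS.1 hx
  have hC0g : GoodS Adj A C0 := GoodS.sUnion fun S hS => hS.2.1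
  set Fr : Set V := ⋃₀ {S | S ⊆ W \ C0 ∧ GoodS Adj A S ∧ Small η (supS sv S)} with hFr
  have hFrW : Fr ⊆ W \ C0 := by
    rintro x ⟨S, hS, hx⟩
    exact hS.1 hx
  set B : Set V := (W \ C0) \ Fr with hB
  -- the bad part of the blocked vertices
  set N0 : Set V := {x | ∃ y ∈ C0, Adj x y} with hN0
  set B1 : Set V := {x | x ∈ B ∧ Rch Adj (B ∩ N0) B x} with hB1
  have hB1B : B1 ⊆ B := fun x hx => hx.1
  have hB1W : B1 ⊆ W := fun x hx => (hB1B hx).1.1
  refine ⟨C0 ∪ B1, union_subset hC0W hB1W, ?_, ?_, ?_, ?_⟩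
  · -- good
    intro x hx
    rcases hx with hx | hx
    · refine Rch.mono ?_ subset_union_left (hC0g x hx)
      exact fun y hy => ⟨hy.1, Or.inl hy.2⟩
    · obtain ⟨hxB, hr⟩ := hx
      have key : ∀ x, Rch Adj (B ∩ N0) B x →
          x ∈ B → Rch Adj (A ∩ (C0 ∪ B1)) (C0 ∪ B1) x := by
        intro x hr
        induction hr with
        | base a ha =>
          intro haB
          obtain ⟨y, hy, hay⟩ := ha.2
          refine Rch.step a y (Or.inr ⟨haB, Rch.base a ha⟩) hay ?_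
          refine Rch.mono ?_ subset_union_left (hC0g y hy)
          exact fun y hy => ⟨hy.1, Or.inl hy.2⟩
        | step x y hx hxy hy ih =>
          intro _
          have hyB : y ∈ B := by
            cases hy with
            | base _ h => exact h.1
            | step _ _ h _ _ => exact h
          exact Rch.step x y (Or.inr ⟨hx, Rch.step x y hx hxy hy⟩) hxy (ih hyB)
      exact key x hr hxB
  · intro v hv hvD
    obtain ⟨S, hSW, hvS, hSg, hSs⟩ := hW v hv
    exact Or.inl ⟨S, ⟨hSW, hSg, hSs, v, hvS, hvD⟩, hvS⟩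
  · -- close to `D`
    have h0 : ∀ v ∈ C0, ∀ z ∈ sv v, ∃ d ∈ D, dist z d ≤ η := by
      rintro v ⟨S, ⟨-, -, hSs, v', hv', hv'D⟩, hvS⟩ z hz
      exact ⟨pos v', hv'D, hSs z ⟨v, hvS, hz⟩ _ ⟨v', hv', hpos v'⟩⟩
    intro v hv z hz
    rcases hv with hv | hv
    · obtain ⟨d, hd, hzd⟩ := h0 v hv z hz
      exact ⟨d, hd, by linarith⟩
    · obtain ⟨S, hSW, hvS, hSg, hSs⟩ := hW v (hB1W hv)
      have hmeet : ∃ y ∈ S, y ∈ C0 := by
        by_contra hcon
        push Not at hcon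
        exact (hB1B hv).2 ⟨S, ⟨fun y hy => ⟨hSW hy, hcon y hy⟩, hSg, hSs⟩, hvS⟩
      obtain ⟨y, hyS, hy0⟩ := hmeet
      obtain ⟨d, hd, hyd⟩ := h0 y hy0 (pos y) (hpos y)
      refine ⟨d, hd, ?_⟩
      have h1 := hSs z ⟨v, hvS, hz⟩ (pos y) ⟨y, hyS, hpos y⟩
      linarith [dist_triangle z (pos y) d]
  · -- the remaining vertices
    rintro v ⟨hvW, hvC⟩
    have hFrC : Fr ⊆ W \ (C0 ∪ B1) := by
      intro x hx
      refine ⟨(hFrW hx).1, ?_⟩
      rintro (h | h)
      · exact (hFrW hx).2 h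
      · exact (hB1B h).2 hx
    by_cases hvF : v ∈ Fr
    · obtain ⟨S, hS, hvS⟩ := id hvF
      refine ⟨S, ?_, hvS, hS.2.1, Small.mono' hS.2.2 (by linarith) Subset.rfl⟩
      intro x hx
      exact hFrC ⟨S, hS, hx⟩
    · -- blocked
      have hvB : v ∈ B := ⟨⟨hvW, fun h => hvC (Or.inl h)⟩, hvF⟩
      obtain ⟨S0, hS0W, hvS0, hS0g, hS0s⟩ := hW v hvW
      set B2 : Set V := B \ B1 with hB2
      have hvB2 : v ∈ B2 := ⟨hvB, fun h => hvC (Or.inr h)⟩
      have hB2C : B2 ⊆ W \ (C0 ∪ B1) := by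
        intro x hx
        refine ⟨hx.1.1.1, ?_⟩
        rintro (h | h)
        · exact hx.1.1.2 h
        · exact hx.2 h
      -- follow the path to a free vertex
      have key : ∀ x, Rch Adj (A ∩ S0) S0 x → x ∈ B2 → x ∈ S0 →
          ∃ y ∈ Fr, y ∈ S0 ∧ Rch Adj {z | z ∈ S0 ∩ B2 ∧ Adj z y} (S0 ∩ B2) x := by
        intro x hr
        induction hr with
        | base a ha =>
          intro haB2 haS
          exfalso
          refine haB2.1.2 ⟨{a}, ⟨?_, ?_, ?_⟩, rfl⟩
          · rintro x rfl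
            exact haB2.1.1
          · rintro x rfl
            exact Rch.base _ ⟨ha.1, rfl⟩
          · refine Small.mono' hS0s le_rfl ?_
            rintro z ⟨v, rfl, hz⟩
            exact ⟨_, haS, hz⟩
        | step x y hx hxy hy ih =>
          intro hxB2 hxS
          have hyS : y ∈ S0 := by
            cases hy with
            | base _ h => exact h.2
            | step _ _ h _ _ => exact h
          by_cases hyB2 : y ∈ B2
          · obtain ⟨z, hzF, hzS, hz⟩ := ih hyB2 hyS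
            exact ⟨z, hzF, hzS, Rch.step x y ⟨hxS, hxB2⟩ hxy hz⟩
          · have hy0 : y ∉ C0 := by
              intro h
              exact hxB2.2 ⟨hxB2.1, Rch.base x ⟨hxB2.1, y, h, hxy⟩⟩
            have hy1 : y ∉ B1 := by
              intro h
              exact hxB2.2 ⟨hxB2.1, Rch.step x y hxB2.1 hxy h.2⟩
            have hyF : y ∈ Fr := by
              by_contra hyF
              exact hyB2 ⟨⟨⟨hS0W hyS, hy0⟩, hyF⟩, hy1⟩
            exact ⟨y, hyF, hyS, Rch.base x ⟨⟨hxS, hxB2⟩, hxy⟩⟩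
      obtain ⟨y, hyF, hyS0, hry⟩ := key v (hS0g v hvS0) hvB2 hvS0
      obtain ⟨S1, hS1, hyS1⟩ := id hyF
      have hS1F : S1 ⊆ Fr := fun x hx => ⟨S1, hS1, hx⟩
      set R : Set V := {x | x ∈ S0 ∩ B2 ∧ Rch Adj {z | z ∈ S0 ∩ B2 ∧ Adj z y} (S0 ∩ B2) x} with hR
      refine ⟨S1 ∪ R, ?_, Or.inr ⟨⟨hvS0, hvB2⟩, hry⟩, ?_, ?_⟩
      · rintro x (hx | hx)
        · exact hFrC (hS1F hx)
        · exact hB2C hx.1.2
      · have hg1 : ∀ x ∈ S1, Rch Adj (A ∩ (S1 ∪ R)) (S1 ∪ R) x := by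
          intro x hx
          refine Rch.mono ?_ subset_union_left (hS1.2.1 x hx)
          exact fun y hy => ⟨hy.1, Or.inl hy.2⟩
        intro x hx
        rcases hx with hx | hx
        · exact hg1 x hx
        · obtain ⟨hx1, hx2⟩ := hx
          have key2 : ∀ x, Rch Adj {z | z ∈ S0 ∩ B2 ∧ Adj z y} (S0 ∩ B2) x →
              Rch Adj (A ∩ (S1 ∪ R)) (S1 ∪ R) x := by
            intro x hr
            induction hr with
            | base a ha =>
              exact Rch.step a y (Or.inr ⟨ha.1, Rch.base a ha⟩) ha.2 (hg1 y hyS1)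
            | step x z hx hxz hz ih =>
              exact Rch.step x z (Or.inr ⟨hx, Rch.step x z hx hxz hz⟩) hxz ih
          exact key2 x hx2
      · have hsub : supS sv (S1 ∪ R) ⊆ supS sv S1 ∪ supS sv S0 := by
          rintro z ⟨v, hv | hv, hz⟩
          · exact Or.inl ⟨v, hv, hz⟩
          · exact Or.inr ⟨v, hv.1.1, hz⟩
        have hp1 : pos y ∈ supS sv S1 := ⟨y, hyS1, hpos y⟩
        have hp0 : pos y ∈ supS sv S0 := ⟨y, hyS0, hpos y⟩
        intro a ha b hb
        have hc : ∀ a ∈ supS sv S1 ∪ supS sv S0, dist a (pos y) ≤ η := by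
          rintro a (ha | ha)
          · exact hS1.2.2 a ha _ hp1
          · exact hS0s a ha _ hp0
        have h1 := hc a (hsub ha)
        have h2 := hc b (hsub hb)
        rw [dist_comm] at h2
        linarith [dist_triangle a (pos y) b]

/-- carving all cells -/
theorem carve_all {X : Type u} [MetricSpace X] {V : Type w} (Adj : V → V → Prop)
    (A : Set V) (pos : V → X) (sv : V → Set X)
    (hpos : ∀ v, pos v ∈ sv v) (ε : ℝ) (hε : 0 ≤ ε) (K : ℕ) (D : Fin K → Set X)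
    (hV : ∀ v, ∃ S, v ∈ S ∧ GoodS Adj A S ∧ Small ε (supS sv S)) (j : ℕ) (hj : j ≤ K) :
    ∃ (W : Set V) (c : V → ℕ),
      (∀ v ∈ W, ∃ S ⊆ W, v ∈ S ∧ GoodS Adj A S ∧ Small (2 ^ j * ε) (supS sv S)) ∧
      (∀ v ∉ W, Rch (fun x y => Adj x y ∧ c x = c y) (A ∩ {x | x ∉ W}) {x | x ∉ W} v) ∧
      (∀ v ∉ W, ∃ h : c v < K, ∀ z ∈ sv v, ∃ d ∈ D ⟨c v, h⟩, dist z d ≤ 2 ^ j * ε) ∧
      (∀ v ∈ W, ∀ i : Fin K, (i : ℕ) < j → pos v ∉ D i) := by
  induction j with
  | zero =>
    refine ⟨univ, fun _ => 0, ?_, ?_, ?_, ?_⟩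
    · intro v _
      obtain ⟨S, h1, h2, h3⟩ := hV v
      exact ⟨S, subset_univ _, h1, h2, by simpa using h3⟩
    · intro v hv; exact absurd (mem_univ v) hv
    · intro v hv; exact absurd (mem_univ v) hv
    · intro v _ i hi; omega
  | succ j ih =>
    obtain ⟨W, c, h1, h2, h3, h5⟩ := ih (by omega)
    have hjK : j < K := by omega
    obtain ⟨C, hCW, hCg, hCD, hCn, hrest⟩ := carve Adj A pos sv hpos (2 ^ j * ε)
      (D ⟨j, hjK⟩) W h1
    classical
    have hpow : 2 * ((2:ℝ) ^ j * ε) = 2 ^ (j + 1) * ε := by ring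
    have hle : (2:ℝ) ^ j * ε ≤ 2 ^ (j + 1) * ε := by
      rw [← hpow]
      have : 0 ≤ (2:ℝ) ^ j * ε := by positivity
      linarith
    refine ⟨W \ C, fun v => if v ∈ C then j else c v, ?_, ?_, ?_, ?_⟩
    · intro v hv
      obtain ⟨S, g1, g2, g3, g4⟩ := hrest v hv
      exact ⟨S, g1, g2, g3, hpow ▸ g4⟩
    · intro v hv
      by_cases hvC : v ∈ C
      · have key : ∀ x, Rch Adj (A ∩ C) C x → x ∈ C →
            Rch (fun x y => Adj x y ∧ (if x ∈ C then j else c x) = (if y ∈ C then j else c y))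
              (A ∩ {x | x ∉ W \ C}) {x | x ∉ W \ C} x := by
          intro x hr
          induction hr with
          | base a ha => exact fun _ => Rch.base a ⟨ha.1, fun h => h.2 ha.2⟩
          | step x y hx hxy hy ih =>
            intro _
            have hyC : y ∈ C := by
              cases hy with
              | base _ h => exact h.2
              | step _ _ h _ _ => exact h
            exact Rch.step x y (fun h => h.2 hx) ⟨hxy, by simp [hx, hyC]⟩ (ih hyC)
        exact key v (hCg v hvC) hvC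
      · have hvW : v ∉ W := fun h => hv ⟨h, hvC⟩
        have key : ∀ x, Rch (fun x y => Adj x y ∧ c x = c y) (A ∩ {x | x ∉ W}) {x | x ∉ W} x →
            Rch (fun x y => Adj x y ∧ (if x ∈ C then j else c x) = (if y ∈ C then j else c y))
              (A ∩ {x | x ∉ W \ C}) {x | x ∉ W \ C} x := by
          intro x hr
          induction hr with
          | base a ha => exact Rch.base a ⟨ha.1, fun h => ha.2 h.1⟩
          | step x y hx hxy hy ih =>
            have hxC : x ∉ C := fun h => hx (hCW h)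
            have hyW : y ∉ W := by
              cases hy with
              | base _ h => exact h.2
              | step _ _ h _ _ => exact h
            have hyC : y ∉ C := fun h => hyW (hCW h)
            exact Rch.step x y (fun h => hx h.1) ⟨hxy.1, by simp [hxC, hyC, hxy.2]⟩ ih
        exact key v (h2 v hvW)
    · intro v hv
      by_cases hvC : v ∈ C
      · simp only [hvC, if_true]
        refine ⟨hjK, fun z hz => ?_⟩
        obtain ⟨d, hd, hzd⟩ := hCn v hvC z hz
        exact ⟨d, hd, hpow ▸ hzd⟩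
      · have hvW : v ∉ W := fun h => hv ⟨h, hvC⟩
        simp only [hvC, if_false]
        obtain ⟨h, h'⟩ := h3 v hvW
        refine ⟨h, fun z hz => ?_⟩
        obtain ⟨d, hd, hzd⟩ := h' z hz
        exact ⟨d, hd, hzd.trans hle⟩
    · intro v hv i hi hvi
      rcases Nat.lt_succ_iff_lt_or_eq.1 hi with hi | hi
      · exact h5 v hv.1 i hi hvi
      · refine hv.2 (hCD v hv.1 ?_)
        have : i = ⟨j, hjK⟩ := Fin.ext hi
        rwa [this] at hvi

/-- levels -/
def lev {V : Type w} (Adj : V → V → Prop) (A : Set V) : ℕ → Set V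
  | 0 => A
  | n + 1 => lev Adj A n ∪ {x | ∃ y ∈ lev Adj A n, Adj x y}

/-- breadth first search -/
theorem bfs {V : Type w} [Finite V] (Adj : V → V → Prop) (A : Set V)
    (h : ∀ v, Rch Adj A univ v) :
    ∃ (p : V → V) (root : V → V) (rk : V → ℕ), (∀ a ∈ A, root a = a) ∧ (∀ v, root v ∈ A) ∧
      (∀ v, v ∉ A → Adj v (p v) ∧ root v = root (p v) ∧ rk (p v) < rk v) := by
  classical
  have hlev : ∀ n, lev Adj A (n + 1) = lev Adj A n ∪ {x | ∃ y ∈ lev Adj A n, Adj x y} :=
    fun n => rfl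
  have hex : ∀ v, ∃ n, v ∈ lev Adj A n := by
    intro v
    induction h v with
    | base a ha => exact ⟨0, ha⟩
    | step x y _ hxy _ ih =>
      obtain ⟨n, hn⟩ := ih
      exact ⟨n + 1, Or.inr ⟨y, hn, hxy⟩⟩
  let rk : V → ℕ := fun v => Nat.find (hex v)
  have hp : ∀ v, ∃ w, (v ∈ A → w = v) ∧ (v ∉ A → Adj v w ∧ rk w < rk v) := by
    intro v
    by_cases hv : v ∈ A
    · exact ⟨v, fun _ => rfl, fun h => absurd hv h⟩
    · have h1 : v ∈ lev Adj A (rk v) := Nat.find_spec (hex v)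
      obtain ⟨m, hm⟩ : ∃ m, rk v = m + 1 := by
        rcases hk : rk v with - | m
        · rw [hk] at h1
          exact absurd h1 hv
        · exact ⟨m, rfl⟩
      rw [hm, hlev] at h1
      rcases h1 with h1 | ⟨y, hy, hvy⟩
      · exfalso
        have : rk v ≤ m := Nat.find_min' (hex v) h1
        omega
      · refine ⟨y, fun h => absurd h hv, fun _ => ⟨hvy, ?_⟩⟩
        have : rk y ≤ m := Nat.find_min' (hex y) hy
        omega
  choose p hpA hpn using hp
  have hiter : ∀ n v, rk v ≤ n → p^[n] v ∈ A := by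
    intro n
    induction n with
    | zero =>
      intro v hv
      by_contra hvA
      have := (hpn v hvA).2
      omega
    | succ n ih =>
      intro v hv
      rw [Function.iterate_succ_apply]
      by_cases hvA : v ∈ A
      · rw [hpA v hvA]
        have : rk v = 0 := by
          have : rk v ≤ 0 := Nat.find_min' (hex v) hvA
          omega
        exact ih v (by omega)
      · have := (hpn v hvA).2
        exact ih (p v) (by omega)
  obtain ⟨N, hN⟩ : ∃ N, ∀ v, rk v ≤ N := by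
    obtain ⟨N, hN⟩ := (Set.finite_range rk).bddAbove
    exact ⟨N, fun v => hN ⟨v, rfl⟩⟩
  refine ⟨p, fun v => p^[N] v, rk, ?_, fun v => hiter N v (hN v), ?_⟩
  · intro a ha
    exact Function.iterate_fixed (hpA a ha) N
  · intro v hv
    refine ⟨(hpn v hv).1, ?_, (hpn v hv).2⟩
    show p^[N] v = p^[N] (p v)
    rw [← Function.iterate_succ_apply, Function.iterate_succ_apply']
    exact (hpA _ (hiter N v (hN v))).symm

/-- paths given as lists -/
theorem rch_of_list {V : Type w} {E : Type w'} (e1 e2 : E → V) (A S : Set V) (Adj : V → V → Prop)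
    (hAdj : ∀ v w, Adj v w ↔ ∃ e, (e1 e = v ∧ e2 e = w) ∨ (e2 e = v ∧ e1 e = w))
    (l : List (E × V)) : ∀ v, v ∈ S → (∀ p ∈ l, p.2 ∈ S) →
      List.IsChain (fun p q : E × V => (e1 q.1 = p.2 ∧ e2 q.1 = q.2) ∨
          (e2 q.1 = p.2 ∧ e1 q.1 = q.2)) l →
      (∀ p ∈ l.head?, (e1 p.1 = v ∧ e2 p.1 = p.2) ∨ (e2 p.1 = v ∧ e1 p.1 = p.2)) →
      ((l.getLast?.map Prod.snd).getD v ∈ A) →
      Rch Adj (A ∩ S) S v ∧ ∀ p ∈ l, Rch Adj (A ∩ S) S p.2 := by
  induction l with
  | nil =>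
    intro v hv _ _ _ hA
    exact ⟨Rch.base v ⟨by simpa using hA, hv⟩, by simp⟩
  | cons q l ih =>
    intro v hv hS hch hhd hA
    rw [List.isChain_cons] at hch
    have := ih q.2 (hS q (by simp)) (fun p hp => hS p (by simp [hp])) hch.2
      (fun p hp => hch.1 p hp) (by
        rcases l with - | ⟨q', l⟩
        · simpa using hA
        · rw [List.getLast?_cons_cons] at hA
          rw [List.getLast?_eq_some_getLast (by simp)] at hA ⊢
          simpa using hA)
    refine ⟨Rch.step v q.2 hv ?_ this.1, ?_⟩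
    · rw [hAdj]
      exact ⟨q.1, hhd q (by simp)⟩
    · intro p hp
      rcases List.mem_cons.1 hp with rfl | hp
      · exact this.1
      · exact this.2 p hp

/-- SF with the hypothesis that there is an edge -/
def SFStmt' (X : Type u) [MetricSpace X] : Prop :=
  ∀ (K : ℕ) (D : Fin K → Set X) (sg ε : ℝ), 0 ≤ ε → (∀ j, Small sg (D j)) → (⋃ j, D j) = univ →
    2 ^ (K + 3) * ε ≤ sg →
    ∀ (V : Type w) (E : Type w') [Finite V] [Nonempty E] (e1 e2 : E → V) (pos : V → X)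
      (sv : V → Set X) (se : E → Set X) (A : Set V),
      (∀ v, pos v ∈ sv v) →
      (∀ e, Small ε (sv (e1 e) ∪ se e ∪ sv (e2 e))) →
      (∀ v, ∃ (l : List (E × V)) (a : V), a ∈ A ∧
        List.IsChain (fun p q : E × V => (e1 q.1 = p.2 ∧ e2 q.1 = q.2) ∨
          (e2 q.1 = p.2 ∧ e1 q.1 = q.2)) l ∧
        (∀ p ∈ l.head?, (e1 p.1 = v ∧ e2 p.1 = p.2) ∨ (e2 p.1 = v ∧ e1 p.1 = p.2)) ∧
        ((l.getLast?.map Prod.snd).getD v = a) ∧
        Small ε (sv v ∪ {x | ∃ p ∈ l, x ∈ se p.1 ∪ sv p.2})) →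
      ∃ (par : V → E × V) (root : V → V) (rk : V → ℕ),
        (∀ a ∈ A, root a = a) ∧ (∀ v, root v ∈ A) ∧
        (∀ v, v ∉ A → ((e1 (par v).1 = v ∧ e2 (par v).1 = (par v).2) ∨
          (e2 (par v).1 = v ∧ e1 (par v).1 = (par v).2)) ∧
          root v = root (par v).2 ∧ rk (par v).2 < rk v) ∧
        (∀ v, sv v ⊆ closedBall (pos (root v)) (2 * sg)) ∧
        (∀ v, v ∉ A → se (par v).1 ⊆ closedBall (pos (root v)) (2 * sg))

theorem sf' (X : Type u) [MetricSpace X] : SFStmt'.{u, w, w'} X := by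
  intro K D sg ε hε hD hcov hsg V E _ _ e1 e2 pos sv se A hpos hE hpath
  set Adj : V → V → Prop := fun v w => ∃ e, (e1 e = v ∧ e2 e = w) ∨ (e2 e = v ∧ e1 e = w)
    with hAdj
  have hV : ∀ v, ∃ S, v ∈ S ∧ GoodS Adj A S ∧ Small ε (supS sv S) := by
    intro v
    obtain ⟨l, a, ha, h1, h2, h3, h4⟩ := hpath v
    refine ⟨{w | w = v ∨ ∃ p ∈ l, w = p.2}, Or.inl rfl, ?_, ?_⟩
    · have := rch_of_list e1 e2 A {w | w = v ∨ ∃ p ∈ l, w = p.2} Adj (fun v w => Iff.rfl) l v
        (Or.inl rfl) (fun p hp => Or.inr ⟨p, hp, rfl⟩) h1 h2 (by rw [h3]; exact ha)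
      rintro x (rfl | ⟨p, hp, rfl⟩)
      · exact this.1
      · exact this.2 p hp
    · refine Small.mono' h4 le_rfl ?_
      rintro z ⟨w, rfl | ⟨p, hp, rfl⟩, hz⟩
      · exact Or.inl hz
      · exact Or.inr ⟨p, hp, Or.inr hz⟩
  obtain ⟨W, c, h1, h2, h3, h4⟩ := carve_all Adj A pos sv hpos ε hε K D hV K le_rfl
  have hWe : ∀ v, v ∉ W := by
    intro v hv
    have : pos v ∈ ⋃ j, D j := by rw [hcov]; exact mem_univ _
    rw [mem_iUnion] at this
    obtain ⟨i, hi⟩ := this
    exact h4 v hv i i.2 hi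
  have h2' : ∀ v, Rch (fun x y => Adj x y ∧ c x = c y) A univ v := fun v =>
    (h2 v (hWe v)).mono inter_subset_left (subset_univ _)
  obtain ⟨p, root, rk, g1, g2, g3⟩ := bfs _ A h2'
  have hc : ∀ n v, rk v ≤ n → c (root v) = c v := by
    intro n
    induction n with
    | zero =>
      intro v hv
      by_cases hvA : v ∈ A
      · rw [g1 v hvA]
      · have := (g3 v hvA).2.2
        omega
    | succ n ih =>
      intro v hv
      by_cases hvA : v ∈ A
      · rw [g1 v hvA]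
      · obtain ⟨⟨-, g4⟩, g5, g6⟩ := g3 v hvA
        rw [g5, ih (p v) (by omega), g4]
  have hc' : ∀ v, c (root v) = c v := fun v => hc (rk v) v le_rfl
  -- the size of a tree
  have hsize : ∀ v, ∀ z ∈ sv v, dist z (pos (root v)) ≤ sg + 2 * (2 ^ K * ε) := by
    intro v z hz
    obtain ⟨k1, k2⟩ := h3 v (hWe v)
    obtain ⟨k3, k4⟩ := h3 (root v) (hWe _)
    obtain ⟨d, hd, hzd⟩ := k2 z hz
    obtain ⟨d', hd', hzd'⟩ := k4 (pos (root v)) (hpos _)
    have hfin : (⟨c (root v), k3⟩ : Fin K) = ⟨c v, k1⟩ := Fin.ext (hc' v)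
    rw [hfin] at hd'
    have := hD _ d hd d' hd'
    have t1 := dist_triangle z d (pos (root v))
    have t2 := dist_triangle d d' (pos (root v))
    rw [dist_comm] at hzd'
    linarith
  have hpw : (2:ℝ) ^ (K + 3) * ε = 8 * (2 ^ K * ε) := by ring
  have hK1 : ε ≤ 2 ^ K * ε := by
    have : (1:ℝ) ≤ 2 ^ K := one_le_pow₀ (by norm_num)
    nlinarith
  have hsel : ∀ v, ∃ q : E × V, v ∉ A → ((e1 q.1 = v ∧ e2 q.1 = q.2) ∨
      (e2 q.1 = v ∧ e1 q.1 = q.2)) ∧ q.2 = p v := by
    intro v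
    by_cases hvA : v ∈ A
    · exact ⟨(Classical.arbitrary E, v), fun h => absurd hvA h⟩
    · obtain ⟨⟨⟨e, he⟩, -⟩, -⟩ := g3 v hvA
      exact ⟨(e, p v), fun _ => ⟨he, rfl⟩⟩
  choose par hpar using hsel
  refine ⟨par, root, rk, g1, g2, ?_, ?_, ?_⟩
  · intro v hvA
    obtain ⟨q1, q2⟩ := hpar v hvA
    refine ⟨q1, ?_, ?_⟩
    · rw [q2]; exact (g3 v hvA).2.1
    · rw [q2]; exact (g3 v hvA).2.2
  · intro v z hz
    rw [mem_closedBall]
    have := hsize v z hz
    have h0 : 0 ≤ 2 ^ K * ε := by positivity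
    linarith
  · intro v hvA z hz
    rw [mem_closedBall]
    obtain ⟨q1, q2⟩ := hpar v hvA
    have h0 : 0 ≤ 2 ^ K * ε := by positivity
    have hv : pos v ∈ sv (e1 (par v).1) ∪ se (par v).1 ∪ sv (e2 (par v).1) := by
      rcases q1 with q1 | q1
      · rw [q1.1]; exact Or.inl (Or.inl (hpos v))
      · rw [q1.1]; exact Or.inr (hpos v)
    have h5 := hE (par v).1 z (Or.inl (Or.inr hz)) (pos v) hv
    have h6 := hsize v (pos v) (hpos v)
    have t1 := dist_triangle z (pos v) (pos (root v))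
    linarith

/-- SF -/
theorem sf (X : Type u) [MetricSpace X] : SFStmt.{u, w, w'} X := by
  intro K D sg ε hε hD hcov hsg V E _ _ _ e1 e2 pos sv se A hpos hE hpath
  exact sf'.{u, w, w'} X K D sg ε hε hD hcov hsg V E e1 e2 pos sv se A hpos hE hpath

end Pool.Agent.EU.H75
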