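import Pool.Agent.Helper75_EU.Elim
import Pool.Agent.Helper75_EU.Sf

/-! # Module INS: insertion of the closed trails -/

open Set Metric

namespace Pool.Agent.EU.H75

universe u

section gen

variable {X : Type u} {n : ℕ} {src tgt : Fin n → X}

/-- the trail visits `u` -/
def Vis (src tgt : Fin n → X) (l : List (Fin n × Bool)) (u : X) : Prop :=
  ∃ d ∈ l, dsrc src tgt d = u ∨ dtgt src tgt d = u

theorem vis_split {a b u : X} {l : List (Fin n × Bool)} (h : IsTr src tgt a l b)
    (hv : Vis src tgt l u) : ∃ l1 l2, l = l1 ++ l2 ∧ IsTr src tgt a l1 u ∧ IsTr src tgt u l2 b := by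
  obtain ⟨d, hd, hdu⟩ := hv
  obtain ⟨l1, l2, rfl⟩ := List.append_of_mem hd
  rw [isTr_append] at h
  obtain ⟨c, h1, h2⟩ := h
  rw [isTr_cons] at h2
  rcases hdu with hdu | hdu
  · refine ⟨l1, d :: l2, rfl, ?_, ?_⟩
    · rw [← hdu, h2.1]; exact h1
    · rw [isTr_cons]; exact ⟨hdu, h2.2⟩
  · refine ⟨l1 ++ [d], l2, by simp, ?_, ?_⟩
    · rw [isTr_append]
      refine ⟨c, h1, ?_⟩
      rw [isTr_cons, isTr_nil]
      exact ⟨h2.1, hdu⟩
    · rw [← hdu]; exact h2.2

theorem rotate_to {x u : X} {c : List (Fin n × Bool)} (h : IsTr src tgt x c x)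
    (hv : Vis src tgt c u) : ∃ c', c'.Perm c ∧ IsTr src tgt u c' u := by
  obtain ⟨l1, l2, rfl, h1, h2⟩ := vis_split h hv
  exact ⟨l2 ++ l1, List.perm_append_comm, (isTr_append src tgt).2 ⟨x, h2, h1⟩⟩

theorem insert_trail {a b x u : X} {t c : List (Fin n × Bool)} (h : IsTr src tgt a t b)
    (hv : Vis src tgt t u) (hc : IsTr src tgt x c x) (hvc : Vis src tgt c u) :
    ∃ t1 t2 c', t = t1 ++ t2 ∧ c'.Perm c ∧ IsTr src tgt a t1 u ∧ IsTr src tgt u c' u ∧
      IsTr src tgt u t2 b := by
  obtain ⟨t1, t2, rfl, h1, h2⟩ := vis_split h hv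
  obtain ⟨c', h3, h4⟩ := rotate_to hc hvc
  exact ⟨t1, t2, c', rfl, h3, h1, h4, h2⟩

theorem closed_tgt {U : Set X} {a : X} {c : List (Fin n × Bool)} (h : IsTr src tgt a c a)
    (hU : ∀ d ∈ c, dsrc src tgt d ∈ U) : ∀ d ∈ c, dtgt src tgt d ∈ U := by
  intro d hd
  have hd' : fl d ∈ rv c := by rw [mem_rv]; simpa using hd
  obtain ⟨l1, l2, rfl⟩ := List.append_of_mem hd
  have h0 := h
  rw [isTr_append] at h
  obtain ⟨x, h1, h2⟩ := h
  rw [isTr_cons] at h2
  cases l2 with
  | nil =>
    rw [isTr_nil] at h2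
    rw [h2.2]
    cases l1 with
    | nil =>
      rw [isTr_nil] at h1
      rw [h1, ← h2.1]
      exact hU d (by simp)
    | cons y l1 =>
      rw [isTr_cons] at h1
      rw [← h1.1]
      exact hU y (by simp)
  | cons y l2 =>
    have := h2.2
    rw [isTr_cons] at this
    rw [← this.1]
    exact hU y (by simp)

theorem Vis.perm {t t' : List (Fin n × Bool)} (h : t'.Perm t) {u : X} (hv : Vis src tgt t u) :
    Vis src tgt t' u := by
  obtain ⟨d, hd, hdu⟩ := hv
  exact ⟨d, h.mem_iff.2 hd, hdu⟩

end gen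

theorem coe_flatten_fst {n : ℕ} (S : List (List (Fin n × Bool))) :
    ((S.flatten.map Prod.fst : List (Fin n)) : Multiset (Fin n)) =
      ∑ i : Fin S.length, (((S.get i).map Prod.fst : List (Fin n)) : Multiset (Fin n)) := by
  have h1 : ((S.flatten.map Prod.fst : List (Fin n)) : Multiset (Fin n)) =
      (S.map (fun l => ((l.map Prod.fst : List (Fin n)) : Multiset (Fin n)))).sum := by
    induction S with
    | nil => simp
    | cons l S ih =>
      rw [List.flatten_cons, List.map_append, ← Multiset.coe_add, ih, List.map_cons,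
        List.sum_cons]
  rw [h1]
  conv_lhs => rw [← List.ofFn_get S]
  rw [List.map_ofFn, List.sum_ofFn]
  rfl

section ins

variable {X : Type u} [MetricSpace X] {n : ℕ}

/-- INS -/
theorem ins (X : Type u) [MetricSpace X] : InsStmt X := by
  classical
  intro K D sg s' hs' hD hcov hsg n src tgt sp A U hG par root rk hFo L M hL hM hcovr hsm
  obtain ⟨hAU, hends, hsp⟩ := hG
  obtain ⟨hrA, hrU⟩ := hFo
  have hsg1 : 8 * s' ≤ sg := by
    have h1 : (1:ℝ) ≤ 2 ^ (K + 3) := one_le_pow₀ (by norm_num)
    nlinarith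
  by_cases hMe : M = []
  · subst hMe
    refine ⟨L, hL, by simpa using hcovr, ?_, le_rfl⟩
    intro l hl y hy z hz
    have := hsm l (by simpa using hl) y hy z hz
    linarith
  -- the graph of trails
  let V := Fin L.length ⊕ Fin M.length
  let T : V → List (Fin n × Bool) := Sum.elim L.get M.get
  have hTmem : ∀ i, T i ∈ L ++ M := by
    rintro (i | i)
    · exact List.mem_append_left _ (List.get_mem L i)
    · exact List.mem_append_right _ (List.get_mem M i)
  have hTne : ∀ i, T i ≠ [] := by
    rintro (i | i)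
    · have := (hL _ (List.get_mem L i)).2.1
      intro h0
      simp only [T, Sum.elim_inl] at h0
      rw [h0] at this
      simp at this
    · exact (hM _ (List.get_mem M i)).2.1
  let E := {p : V × V // ∃ u ∈ U, Vis src tgt (T p.1) u ∧ Vis src tgt (T p.2) u}
  have hE : Nonempty E := by
    obtain ⟨c, hc⟩ := List.exists_mem_of_ne_nil _ hMe
    obtain ⟨i, hi⟩ := List.mem_iff_get.1 hc
    obtain ⟨⟨a, ha⟩, hne, hU⟩ := hM c hc
    obtain ⟨d, hd⟩ := List.exists_mem_of_ne_nil _ hne
    have hT : T (Sum.inr i) = c := hi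
    refine ⟨⟨(Sum.inr i, Sum.inr i), dsrc src tgt d, hU d hd, ?_, ?_⟩⟩
    · rw [hT]; exact ⟨d, hd, Or.inl rfl⟩
    · rw [hT]; exact ⟨d, hd, Or.inl rfl⟩
  let sv : V → Set X := fun i => spL sp (T i)
  have hdsp : ∀ d : Fin n × Bool, dsrc src tgt d ∈ sp d.1 ∧ dtgt src tgt d ∈ sp d.1 := by
    rintro ⟨e, b⟩
    cases b
    · exact ⟨by simpa [dsrc] using (hsp e).2, by simpa [dtgt] using (hsp e).1⟩
    · exact ⟨by simpa [dsrc] using (hsp e).1, by simpa [dtgt] using (hsp e).2⟩
  have hvis : ∀ l u, Vis src tgt l u → u ∈ spL sp l := by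
    rintro l u ⟨d, hd, h1 | h1⟩
    · exact ⟨d, hd, h1 ▸ (hdsp d).1⟩
    · exact ⟨d, hd, h1 ▸ (hdsp d).2⟩
  have hpos : ∀ i : V, ∃ x, x ∈ sv i := by
    intro i
    obtain ⟨d, hd⟩ := List.exists_mem_of_ne_nil _ (hTne i)
    exact ⟨_, d, hd, (hdsp d).1⟩
  choose pos hpos using hpos
  have hsvs : ∀ i, Small s' (sv i) := fun i => hsm _ (hTmem i)
  -- an edge of `U` lies on some trail
  have hon : ∀ u ∈ U, ∃ k : V, Vis src tgt (T k) u ∧ Vis src tgt (T k) (par u).2 ∧
      sv k ⊆ closedBall (root u) (2 * s') := by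
    intro u hu
    obtain ⟨h1, -, -, -, -, -, h7⟩ := hrU u hu
    have h2 : (par u).1 ∈ (L ++ M).flatten.map Prod.fst := by
      rw [hcovr.2]
      rcases h1 with ⟨h1, -⟩ | ⟨h1, -⟩
      · left; rw [h1]; exact hu
      · right; rw [h1]; exact hu
    rw [List.mem_map] at h2
    obtain ⟨d, hd, hde⟩ := h2
    rw [List.mem_flatten] at hd
    obtain ⟨l, hl, hdl⟩ := hd
    obtain ⟨k, hk⟩ : ∃ k : V, T k = l := by
      rcases List.mem_append.1 hl with hl | hl
      · obtain ⟨i, hi⟩ := List.mem_iff_get.1 hl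
        exact ⟨Sum.inl i, hi⟩
      · obtain ⟨i, hi⟩ := List.mem_iff_get.1 hl
        exact ⟨Sum.inr i, hi⟩
    subst hk
    have h3 : (dsrc src tgt d = u ∧ dtgt src tgt d = (par u).2) ∨
        (dtgt src tgt d = u ∧ dsrc src tgt d = (par u).2) := by
      obtain ⟨e, b⟩ := d
      simp only at hde
      subst hde
      cases b
      · simp only [dsrc, dtgt, Bool.false_eq_true, if_false]
        tauto
      · simp only [dsrc, dtgt, if_true]
        tauto
    refine ⟨k, ?_, ?_, ?_⟩
    · rcases h3 with ⟨h3, -⟩ | ⟨h3, -⟩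
      · exact ⟨d, hdl, Or.inl h3⟩
      · exact ⟨d, hdl, Or.inr h3⟩
    · rcases h3 with ⟨-, h3⟩ | ⟨-, h3⟩
      · exact ⟨d, hdl, Or.inr h3⟩
      · exact ⟨d, hdl, Or.inl h3⟩
    · intro z hz
      have h4 : dsrc src tgt d ∈ sp (par u).1 := hde ▸ (hdsp d).1
      have h5 := h7 h4
      rw [mem_closedBall] at h5 ⊢
      have h6 := hsvs k z hz (dsrc src tgt d) ⟨d, hdl, (hdsp d).1⟩
      linarith [dist_triangle z (dsrc src tgt d) (root u)]
  -- paths to the roots
  have hpath : ∀ N u, rk u ≤ N → u ∈ U → ∀ i : V, Vis src tgt (T i) u →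
      ∃ (l : List (E × V)) (a : V), a ∈ range (Sum.inl : Fin L.length → V) ∧
        List.IsChain (fun p q : E × V => (q.1.1.1 = p.2 ∧ q.1.1.2 = q.2) ∨
          (q.1.1.2 = p.2 ∧ q.1.1.1 = q.2)) l ∧
        (∀ p ∈ l.head?, (p.1.1.1 = i ∧ p.1.1.2 = p.2) ∨ (p.1.1.2 = i ∧ p.1.1.1 = p.2)) ∧
        ((l.getLast?.map Prod.snd).getD i = a) ∧
        (∀ p ∈ l, sv p.2 ⊆ closedBall (root u) (2 * s')) := by
    intro N
    induction N with
    | zero =>
      intro u hN hu
      have := (hrU u hu).2.2.2.1
      omega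
    | succ N ih =>
      intro u hN hu i hi
      obtain ⟨k, hk1, hk2, hk3⟩ := hon u hu
      obtain ⟨-, h2, h3, h4, -, -, -⟩ := hrU u hu
      rcases k with k | k
      · refine ⟨[(⟨(i, Sum.inl k), u, hu, hi, hk1⟩, Sum.inl k)], Sum.inl k, ⟨k, rfl⟩, ?_, ?_, ?_,
          ?_⟩
        · simp
        · intro p hp
          simp only [List.head?_cons, Option.mem_def, Option.some.injEq] at hp
          subst hp
          exact Or.inl ⟨rfl, rfl⟩
        · simp
        · intro p hp
          rw [List.mem_singleton] at hp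
          subst hp
          exact hk3
      · have hwU : (par u).2 ∈ U := by
          obtain ⟨⟨a, ha⟩, -, hU⟩ := hM _ (List.get_mem M k)
          obtain ⟨d, hd, h5⟩ := hk2
          rcases h5 with h5 | h5
          · rw [← h5]; exact hU d hd
          · rw [← h5]
            exact closed_tgt (U := (↑U : Set X)) ha hU d hd
        obtain ⟨l, a, g1, g2, g3, g4, g5⟩ := ih (par u).2 (by omega) hwU (Sum.inr k) hk2
        refine ⟨(⟨(i, Sum.inr k), u, hu, hi, hk1⟩, Sum.inr k) :: l, a, g1, ?_, ?_, ?_, ?_⟩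
        · rw [List.isChain_cons]
          exact ⟨fun p hp => g3 p hp, g2⟩
        · intro p hp
          simp only [List.head?_cons, Option.mem_def, Option.some.injEq] at hp
          subst hp
          exact Or.inl ⟨rfl, rfl⟩
        · cases l with
          | nil => simpa using g4
          | cons x l =>
            rw [List.getLast?_cons_cons]
            rw [List.getLast?_eq_some_getLast (by simp)] at g4 ⊢
            simpa using g4
        · intro p hp
          rcases List.mem_cons.1 hp with rfl | hp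
          · exact hk3
          · rw [h3]; exact g5 p hp
  obtain ⟨par', root', rk', f1, f2, f3, f4, -⟩ := sf' X K D sg (8 * s') (by linarith) hD hcov hsg
    V E (fun e => e.1.1) (fun e => e.1.2) pos sv (fun _ => ∅)
    (range (Sum.inl : Fin L.length → V)) hpos
    (by
      rintro ⟨⟨i, j⟩, u, hu, hi, hj⟩ y hy z hz
      have hc : ∀ y ∈ sv i ∪ ∅ ∪ sv j, dist y u ≤ s' := by
        rintro y ((hy | hy) | hy)
        · exact hsvs i y hy u (hvis _ _ hi)
        · exact absurd hy (by simp)
        · exact hsvs j y hy u (hvis _ _ hj)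
      have h1 := hc y hy
      have h2 := hc z hz
      rw [dist_comm] at h2
      linarith [dist_triangle y u z])
    (by
      rintro (i | i)
      · refine ⟨[], Sum.inl i, ⟨i, rfl⟩, by simp, by simp, by simp, ?_⟩
        intro y hy z hz
        have hc : ∀ y ∈ sv (Sum.inl i) ∪ {x | ∃ p ∈ ([] : List (E × V)), x ∈ (∅ : Set X) ∪ sv p.2},
            y ∈ sv (Sum.inl i) := by
          rintro y (hy | ⟨p, hp, -⟩)
          · exact hy
          · simp at hp
        have := hsvs _ y (hc y hy) z (hc z hz)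
        linarith
      · obtain ⟨⟨a, ha⟩, hne, hU⟩ := hM _ (List.get_mem M i)
        obtain ⟨d, hd⟩ := List.exists_mem_of_ne_nil _ hne
        have hu := hU d hd
        have hv : Vis src tgt (T (Sum.inr i)) (dsrc src tgt d) := ⟨d, hd, Or.inl rfl⟩
        obtain ⟨l, a, g1, g2, g3, g4, g5⟩ := hpath _ _ le_rfl hu _ hv
        refine ⟨l, a, g1, g2, g3, g4, ?_⟩
        have hc : ∀ y ∈ sv (Sum.inr i) ∪ {x | ∃ p ∈ l, x ∈ (∅ : Set X) ∪ sv p.2},
            dist y (root (dsrc src tgt d)) ≤ 2 * s' := by
          rintro y (hy | ⟨p, hp, hy | hy⟩)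
          · have h1 := hsvs _ y hy _ (hvis _ _ hv)
            have h2 := (hrU _ hu).2.2.2.2.2.1
            rw [mem_closedBall] at h2
            linarith [dist_triangle y (dsrc src tgt d) (root (dsrc src tgt d))]
          · exact absurd hy (by simp)
          · exact g5 p hp hy
        intro y hy z hz
        have h1 := hc y hy
        have h2 := hc z hz
        rw [dist_comm] at h2
        linarith [dist_triangle y (root (dsrc src tgt d)) z])
  -- merging
  let F : List (Fin n × Bool) → Multiset (Fin n) := fun l => ((l.map Prod.fst : List (Fin n)) :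
    Multiset (Fin n))
  let MS : Finset V → (V → List (Fin n × Bool)) → Prop := fun R W =>
    (∀ i : Fin L.length, Sum.inl i ∈ R) ∧
    (∀ i : Fin L.length, (∃ a ∈ A, ∃ b ∈ A, IsTr src tgt a (W (Sum.inl i)) b ∧
      IsTr src tgt a (T (Sum.inl i)) b) ∧ 2 ≤ (W (Sum.inl i)).length ∧
      ∀ d ∈ (W (Sum.inl i)).tail, dsrc src tgt d ∈ U) ∧
    (∀ j : Fin M.length, Sum.inr j ∈ R → (∃ a, IsTr src tgt a (W (Sum.inr j)) a) ∧
      ∀ d ∈ W (Sum.inr j), dsrc src tgt d ∈ U) ∧
    (∀ i ∈ R, (∀ u, Vis src tgt (T i) u → Vis src tgt (W i) u) ∧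
      spL sp (W i) ⊆ closedBall (pos (root' i)) (2 * sg)) ∧
    (∑ i ∈ R, F (W i) = F (L ++ M).flatten) ∧
    (∀ i ∈ R, i ∉ range (Sum.inl : Fin L.length → V) → (par' i).2 ∈ R)
  have hmerge : ∀ N (R : Finset V) (W : V → List (Fin n × Bool)), R.card ≤ N → MS R W →
      ∃ R' W', MS R' W' ∧ ∀ i ∈ R', i ∈ range (Sum.inl : Fin L.length → V) := by
    intro N
    induction N with
    | zero =>
      intro R W hN h
      have : R = ∅ := by simpa using hN
      subst this
      exact ⟨∅, W, h, by simp⟩
    | succ N ih =>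
      intro R W hN h
      by_cases hR : ∀ i ∈ R, i ∈ range (Sum.inl : Fin L.length → V)
      · exact ⟨R, W, h, hR⟩
      push Not at hR
      have hne : (R.filter (fun i => i ∉ range (Sum.inl : Fin L.length → V))).Nonempty := by
        obtain ⟨i, hi, hi'⟩ := hR
        exact ⟨i, Finset.mem_filter.2 ⟨hi, hi'⟩⟩
      obtain ⟨i, hi, himax⟩ := Finset.exists_max_image _ rk' hne
      rw [Finset.mem_filter] at hi
      obtain ⟨hiR, hir⟩ := hi
      obtain ⟨h0, h1, h2, h3, h4, h5⟩ := h
      obtain ⟨g1, g2, g3⟩ := f3 i hir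
      set p := (par' i).2 with hp
      have hpR : p ∈ R := h5 i hiR hir
      have hpi : p ≠ i := by
        intro h
        rw [h] at g3
        exact lt_irrefl _ g3
      obtain ⟨u, huU, hvi, hvp⟩ : ∃ u ∈ U, Vis src tgt (T i) u ∧ Vis src tgt (T p) u := by
        obtain ⟨u, hu, k1, k2⟩ := (par' i).1.2
        rcases g1 with ⟨g4, g5⟩ | ⟨g4, g5⟩
        · rw [g4] at k1
          rw [g5] at k2
          exact ⟨u, hu, k1, k2⟩
        · rw [g4] at k2
          rw [g5] at k1
          exact ⟨u, hu, k2, k1⟩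
      have hWi := (h3 i hiR).1 u hvi
      have hWp := (h3 p hpR).1 u hvp
      obtain ⟨j, rfl⟩ : ∃ j, i = Sum.inr j := by
        rcases i with i | j
        · exact absurd ⟨i, rfl⟩ hir
        · exact ⟨j, rfl⟩
      obtain ⟨⟨x, hx⟩, hxU⟩ := h2 j hiR
      -- the new trail at `p`
      have hnew : ∃ t', t'.Perm (W p ++ W (Sum.inr j)) ∧
          (∀ i0, p = Sum.inl i0 → (∃ a ∈ A, ∃ b ∈ A, IsTr src tgt a t' b ∧
            IsTr src tgt a (T p) b) ∧ 2 ≤ t'.length ∧ ∀ d ∈ t'.tail, dsrc src tgt d ∈ U) ∧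
          (∀ j0, p = Sum.inr j0 → (∃ a, IsTr src tgt a t' a) ∧ ∀ d ∈ t', dsrc src tgt d ∈ U) := by
        rcases hpc : p with i0 | j0
        · rw [hpc] at hWp
          obtain ⟨⟨a, ha, b, hb, hab, haT⟩, hlen, htail⟩ := h1 i0
          obtain ⟨t1, t2, c', k1, k2, k3, k4, k5⟩ := insert_trail hab hWp hx hWi
          have ht1 : t1 ≠ [] := by
            rintro rfl
            rw [isTr_nil] at k3
            exact hAU a ha (k3 ▸ huU)
          have hperm : (t1 ++ (c' ++ t2)).Perm (W (Sum.inl i0) ++ W (Sum.inr j)) := by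
            rw [k1, List.append_assoc]
            refine List.Perm.append_left _ ?_
            exact (List.perm_append_comm).trans (List.Perm.append_left _ k2)
          refine ⟨t1 ++ (c' ++ t2), hperm, ?_, ?_⟩
          · rintro i1 h6
            obtain rfl := Sum.inl_injective h6
            refine ⟨⟨a, ha, b, hb, ?_, haT⟩, ?_, ?_⟩
            · rw [isTr_append]
              exact ⟨u, k3, (isTr_append src tgt).2 ⟨u, k4, k5⟩⟩
            · rw [hperm.length_eq, List.length_append]
              omega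
            · intro d hd
              rw [List.tail_append_of_ne_nil ht1] at hd
              rw [k1, List.tail_append_of_ne_nil ht1] at htail
              rcases List.mem_append.1 hd with hd | hd
              · exact htail d (List.mem_append_left _ hd)
              · rcases List.mem_append.1 hd with hd | hd
                · exact hxU d (k2.mem_iff.1 hd)
                · exact htail d (List.mem_append_right _ hd)
          · intro j0 h6
            simp at h6
        · rw [hpc] at hWp
          have hj0R : Sum.inr j0 ∈ R := hpc ▸ hpR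
          obtain ⟨⟨a, hab⟩, haU⟩ := h2 j0 hj0R
          obtain ⟨t1, t2, c', k1, k2, k3, k4, k5⟩ := insert_trail hab hWp hx hWi
          have hperm : (t1 ++ (c' ++ t2)).Perm (W (Sum.inr j0) ++ W (Sum.inr j)) := by
            rw [k1, List.append_assoc]
            refine List.Perm.append_left _ ?_
            exact (List.perm_append_comm).trans (List.Perm.append_left _ k2)
          refine ⟨t1 ++ (c' ++ t2), hperm, ?_, ?_⟩
          · intro j0 h6
            simp at h6
          · rintro i1 h6
            obtain rfl := Sum.inr_injective h6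
            refine ⟨⟨a, ?_⟩, ?_⟩
            · rw [isTr_append]
              exact ⟨u, k3, (isTr_append src tgt).2 ⟨u, k4, k5⟩⟩
            · intro d hd
              rcases List.mem_append.1 (hperm.mem_iff.1 hd) with hd | hd
              · exact haU d hd
              · exact hxU d hd
      obtain ⟨t', ht'p, ht'l, ht'r⟩ := hnew
      refine ih (R.erase (Sum.inr j)) (Function.update W p t') ?_ ⟨?_, ?_, ?_, ?_, ?_, ?_⟩
      · rw [Finset.card_erase_of_mem hiR]
        omega
      · intro i0
        exact Finset.mem_erase.2 ⟨by simp, h0 i0⟩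
      · intro i0
        by_cases hpi0 : Sum.inl i0 = p
        · rw [hpi0, Function.update_self]
          exact ht'l i0 hpi0.symm
        · rw [Function.update_of_ne hpi0]
          exact h1 i0
      · intro j0 hj0
        rw [Finset.mem_erase] at hj0
        by_cases hpj0 : Sum.inr j0 = p
        · rw [hpj0, Function.update_self]
          exact ht'r j0 hpj0.symm
        · rw [Function.update_of_ne hpj0]
          exact h2 j0 hj0.2
      · intro i0 hi0
        rw [Finset.mem_erase] at hi0
        by_cases hpi0 : i0 = p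
        · subst hpi0
          rw [Function.update_self]
          refine ⟨fun v hv => ?_, ?_⟩
          · obtain ⟨d, hd, hdv⟩ := (h3 _ hpR).1 v hv
            exact ⟨d, ht'p.mem_iff.2 (List.mem_append_left _ hd), hdv⟩
          · rintro z ⟨d, hd, hz⟩
            rcases List.mem_append.1 (ht'p.mem_iff.1 hd) with hd | hd
            · exact (h3 _ hpR).2 ⟨d, hd, hz⟩
            · have := (h3 _ hiR).2 ⟨d, hd, hz⟩
              rw [g2] at this
              exact this
        · rw [Function.update_of_ne hpi0]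
          exact h3 i0 hi0.2
      · have hpR' : p ∈ R.erase (Sum.inr j) := Finset.mem_erase.2 ⟨hpi, hpR⟩
        rw [← Finset.add_sum_erase _ _ hiR, ← Finset.add_sum_erase _ _ hpR'] at h4
        rw [← Finset.add_sum_erase _ _ hpR', ← h4]
        rw [Function.update_self]
        have h6 : ∑ x ∈ (R.erase (Sum.inr j)).erase p, F (Function.update W p t' x) =
            ∑ x ∈ (R.erase (Sum.inr j)).erase p, F (W x) := by
          refine Finset.sum_congr rfl fun x hx => ?_
          rw [Function.update_of_ne (Finset.ne_of_mem_erase hx)]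
        have h7 : F t' = F (W p) + F (W (Sum.inr j)) := by
          simp only [F]
          rw [Multiset.coe_add, ← List.map_append, Multiset.coe_eq_coe]
          exact ht'p.map _
        rw [h6, h7]
        abel
      · intro i0 hi0 hi0r
        rw [Finset.mem_erase] at hi0 ⊢
        refine ⟨?_, h5 i0 hi0.2 hi0r⟩
        intro h6
        have h7 := himax i0 (Finset.mem_filter.2 ⟨hi0.2, hi0r⟩)
        have h8 := (f3 i0 hi0r).2.2
        rw [h6] at h8
        omega
  obtain ⟨R, W, ⟨h0, h1, h2, h3, h4, h5⟩, hR⟩ := hmerge _ Finset.univ T le_rfl (by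
    refine ⟨fun i => Finset.mem_univ _, ?_, ?_, ?_, ?_, fun i _ _ => Finset.mem_univ _⟩
    · intro i
      obtain ⟨⟨a, ha, b, hb, hab⟩, k2, k3⟩ := hL _ (List.get_mem L i)
      refine ⟨⟨a, ha, b, hb, hab, hab⟩, k2, ?_⟩
      intro d hd
      have hd : d ∈ (L.get i).tail := hd
      cases hl : L.get i with
      | nil => rw [hl] at hd; simp at hd
      | cons x l =>
        rw [hl, List.tail_cons] at hd
        obtain ⟨l1, l2, hl12⟩ := List.append_of_mem hd
        exact k3 (x :: l1) d l2 (by rw [hl, hl12]; rfl) (by simp)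
    · intro j _
      obtain ⟨k1, k2, k3⟩ := hM _ (List.get_mem M j)
      exact ⟨k1, k3⟩
    · intro i _
      exact ⟨fun u hu => hu, f4 i⟩
    · simp only [F]
      rw [Fintype.sum_sum_type, List.flatten_append, List.map_append, ← Multiset.coe_add,
        coe_flatten_fst, coe_flatten_fst]
      rfl)
  have hRe : R = Finset.univ.map ⟨(Sum.inl : Fin L.length → V), Sum.inl_injective⟩ := by
    ext i
    constructor
    · intro hi
      obtain ⟨i0, rfl⟩ := hR i hi
      exact Finset.mem_map.2 ⟨i0, Finset.mem_univ _, rfl⟩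
    · intro hi
      obtain ⟨i0, -, rfl⟩ := Finset.mem_map.1 hi
      exact h0 i0
  set L' : List (List (Fin n × Bool)) := List.ofFn (fun i : Fin L.length => W (Sum.inl i)) with hL'
  have hL'm : ∀ l ∈ L', ∃ i : Fin L.length, W (Sum.inl i) = l := by
    intro l hl
    rw [hL', List.mem_ofFn] at hl
    exact hl
  have hmul : F L'.flatten = F (L ++ M).flatten := by
    rw [← h4, hRe, Finset.sum_map]
    simp only [F, Function.Embedding.coeFn_mk]
    have h6 : ((L'.flatten.map Prod.fst : List (Fin n)) : Multiset (Fin n)) =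
      (L'.map (fun l => ((l.map Prod.fst : List (Fin n)) : Multiset (Fin n)))).sum := by
      induction L' with
      | nil => simp
      | cons l S ih =>
        rw [List.flatten_cons, List.map_append, ← Multiset.coe_add, ih, List.map_cons,
          List.sum_cons]
    rw [h6, hL', List.map_ofFn, List.sum_ofFn]
    rfl
  have hperm : (L'.flatten.map Prod.fst).Perm ((L ++ M).flatten.map Prod.fst) :=
    Multiset.coe_eq_coe.1 hmul
  refine ⟨L', ?_, ?_, ?_, ?_⟩
  · intro l hl
    obtain ⟨i, rfl⟩ := hL'm l hl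
    obtain ⟨⟨a, ha, b, hb, hab, -⟩, k2, k3⟩ := h1 i
    refine ⟨⟨a, ha, b, hb, hab⟩, k2, ?_⟩
    intro l1 d l2 h6 h7
    exact k3 d (by
      rw [h6, List.tail_append_of_ne_nil h7]
      simp)
  · exact ⟨hperm.nodup_iff.2 hcovr.1, fun e => hperm.mem_iff.trans (hcovr.2 e)⟩
  · intro l hl
    obtain ⟨i, rfl⟩ := hL'm l hl
    have h6 := (h3 _ (h0 i)).2
    intro y hy z hz
    have h7 := h6 hy
    have h8 := h6 hz
    rw [mem_closedBall] at h7 h8
    rw [dist_comm] at h8
    linarith [dist_triangle y (pos (root' (Sum.inl i))) z]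
  · unfold openCount
    have h6 : L = List.ofFn L.get := (List.ofFn_get L).symm
    conv_rhs => rw [h6]
    rw [hL', List.ofFn_eq_map, List.ofFn_eq_map, List.countP_map, List.countP_map]
    refine List.countP_mono_left fun i _ hi => ?_
    simp only [Function.comp_apply, decide_eq_true_eq] at hi ⊢
    rintro ⟨x, hx⟩
    refine hi ?_
    obtain ⟨⟨a, ha, b, hb, hab, haT⟩, k2, k3⟩ := h1 i
    have hx' : IsTr src tgt x (T (Sum.inl i)) x := hx
    have e1 := isTr_src_unique src tgt hx' haT (hTne _)
    have e2 := isTr_tgt_unique src tgt hx' haT (hTne _)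
    refine ⟨a, ?_⟩
    rw [← e2, e1] at hab
    exact hab

end ins

end Pool.Agent.EU.H75
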