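import Pool.Agent.Helper75_EU.Ins

/-! # Module STAGE: the stage theorem -/

open Set Metric

namespace Pool.Agent.EU.H75

universe u

variable {X : Type u} [MetricSpace X]

omit [MetricSpace X] in
/-- a trail from `U` to `A` gives a path in the graph of the edges at `U` -/
theorem path_to_A {n : ℕ} {src tgt : Fin n → X} {sp : Fin n → Set X} {A U : Finset X}
    (hG : GraphOK src tgt sp A U) :
    ∀ (l : List (Fin n × Bool)) (u : {x : X // x ∈ A ∨ x ∈ U}) (a : X), a ∈ A → (u : X) ∈ U →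
      IsTr src tgt (u : X) l a →
      ∃ (k : List ({e : Fin n // src e ∈ U ∨ tgt e ∈ U} × {x : X // x ∈ A ∨ x ∈ U}))
        (b : {x : X // x ∈ A ∨ x ∈ U}), (b : X) ∈ A ∧ k ≠ [] ∧
        List.IsChain (fun p q : {e : Fin n // src e ∈ U ∨ tgt e ∈ U} × {x : X // x ∈ A ∨ x ∈ U} =>
          ((⟨src q.1, (hG.2.1 q.1).1⟩ : {x : X // x ∈ A ∨ x ∈ U}) = p.2 ∧
            (⟨tgt q.1, (hG.2.1 q.1).2⟩ : {x : X // x ∈ A ∨ x ∈ U}) = q.2) ∨
          ((⟨tgt q.1, (hG.2.1 q.1).2⟩ : {x : X // x ∈ A ∨ x ∈ U}) = p.2 ∧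
            (⟨src q.1, (hG.2.1 q.1).1⟩ : {x : X // x ∈ A ∨ x ∈ U}) = q.2)) k ∧
        (∀ p ∈ k.head?, ((⟨src p.1, (hG.2.1 p.1).1⟩ : {x : X // x ∈ A ∨ x ∈ U}) = u ∧
            (⟨tgt p.1, (hG.2.1 p.1).2⟩ : {x : X // x ∈ A ∨ x ∈ U}) = p.2) ∨
          ((⟨tgt p.1, (hG.2.1 p.1).2⟩ : {x : X // x ∈ A ∨ x ∈ U}) = u ∧
            (⟨src p.1, (hG.2.1 p.1).1⟩ : {x : X // x ∈ A ∨ x ∈ U}) = p.2)) ∧
        ((k.getLast?.map Prod.snd).getD u = b) ∧
        ((u : X) ∈ spL sp l) ∧ ∀ p ∈ k, sp p.1 ⊆ spL sp l ∧ (p.2 : X) ∈ spL sp l := by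
  intro l
  induction l with
  | nil =>
    intro u a ha hu h
    rw [isTr_nil] at h
    exact absurd hu (h ▸ hG.1 a ha)
  | cons d l ih =>
    intro u a ha hu h
    rw [isTr_cons] at h
    obtain ⟨h1, h2⟩ := h
    have hdsp : dsrc src tgt d ∈ sp d.1 ∧ dtgt src tgt d ∈ sp d.1 := by
      obtain ⟨e, b⟩ := d
      cases b
      · exact ⟨by simpa [dsrc] using (hG.2.2 e).2, by simpa [dtgt] using (hG.2.2 e).1⟩
      · exact ⟨by simpa [dsrc] using (hG.2.2 e).1, by simpa [dtgt] using (hG.2.2 e).2⟩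
    have hinc : src d.1 ∈ U ∨ tgt d.1 ∈ U := by
      obtain ⟨e, b⟩ := d
      cases b
      · right; simp only [dsrc, Bool.false_eq_true, if_false] at h1; rw [h1]; exact hu
      · left; simp only [dsrc, if_true] at h1; rw [h1]; exact hu
    have hw : dtgt src tgt d ∈ A ∨ dtgt src tgt d ∈ U := by
      obtain ⟨e, b⟩ := d
      cases b
      · simpa [dtgt] using (hG.2.1 e).1
      · simpa [dtgt] using (hG.2.1 e).2
    have hj : ((⟨src d.1, (hG.2.1 d.1).1⟩ : {x : X // x ∈ A ∨ x ∈ U}) = u ∧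
          (⟨tgt d.1, (hG.2.1 d.1).2⟩ : {x : X // x ∈ A ∨ x ∈ U}) = ⟨dtgt src tgt d, hw⟩) ∨
        ((⟨tgt d.1, (hG.2.1 d.1).2⟩ : {x : X // x ∈ A ∨ x ∈ U}) = u ∧
          (⟨src d.1, (hG.2.1 d.1).1⟩ : {x : X // x ∈ A ∨ x ∈ U}) = ⟨dtgt src tgt d, hw⟩) := by
      obtain ⟨e, b⟩ := d
      cases b
      · right
        simp only [dsrc, Bool.false_eq_true, if_false] at h1
        exact ⟨Subtype.ext h1, Subtype.ext (by simp [dtgt])⟩
      · left
        simp only [dsrc, if_true] at h1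
        exact ⟨Subtype.ext h1, Subtype.ext (by simp [dtgt])⟩
    have hsub : sp d.1 ⊆ spL sp (d :: l) := fun z hz => ⟨d, by simp, hz⟩
    have hsub' : spL sp l ⊆ spL sp (d :: l) := by
      rintro z ⟨e, he, hz⟩
      exact ⟨e, by simp [he], hz⟩
    have huS : (u : X) ∈ spL sp (d :: l) := hsub (h1 ▸ hdsp.1)
    by_cases hwA : dtgt src tgt d ∈ A
    · refine ⟨[(⟨d.1, hinc⟩, ⟨dtgt src tgt d, hw⟩)], ⟨dtgt src tgt d, hw⟩, hwA, by simp, by simp,
        ?_, by simp, huS, ?_⟩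
      · intro p hp
        simp only [List.head?_cons, Option.mem_def, Option.some.injEq] at hp
        subst hp
        exact hj
      · intro p hp
        rw [List.mem_singleton] at hp
        subst hp
        exact ⟨hsub, hsub hdsp.2⟩
    · have hwU : dtgt src tgt d ∈ U := hw.resolve_left hwA
      obtain ⟨k, b, g1, g0, g2, g3, g4, g5, g6⟩ := ih ⟨dtgt src tgt d, hw⟩ a ha hwU h2
      refine ⟨(⟨d.1, hinc⟩, ⟨dtgt src tgt d, hw⟩) :: k, b, g1, by simp, ?_, ?_, ?_, huS, ?_⟩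
      · rw [List.isChain_cons]
        exact ⟨fun p hp => g3 p hp, g2⟩
      · intro p hp
        simp only [List.head?_cons, Option.mem_def, Option.some.injEq] at hp
        subst hp
        exact hj
      · cases k with
        | nil => exact absurd rfl g0
        | cons x k =>
          rw [List.getLast?_cons_cons]
          rw [List.getLast?_eq_some_getLast (by simp)] at g4 ⊢
          simpa using g4
      · intro p hp
        rcases List.mem_cons.1 hp with rfl | hp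
        · exact ⟨hsub, hsub hdsp.2⟩
        · exact ⟨(g6 p hp).1.trans hsub', hsub' (g6 p hp).2⟩

/-- existence of the forest -/
theorem exists_forest {K : ℕ} {D : Fin K → Set X} {sg ε : ℝ} (hε : 0 ≤ ε)
    (hD : ∀ j, Small sg (D j)) (hcov : (⋃ j, D j) = univ) (hsg : 2 ^ (K + 3) * ε ≤ sg)
    {n : ℕ} {src tgt : Fin n → X} {sp : Fin n → Set X} {A U : Finset X}
    (hG : GraphOK src tgt sp A U)
    (hsm : ∀ e, (src e ∈ U ∨ tgt e ∈ U) → Small ε (sp e))
    (hpath : ∀ u ∈ U, ∃ a ∈ A, ∃ l, IsTr src tgt u l a ∧ Small ε (spL sp l))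
    (hU : U.Nonempty) :
    ∃ (par : X → Fin n × X) (root : X → X) (rk : X → ℕ),
      ForestOK src tgt sp A U par root rk (2 * sg) := by
  classical
  obtain ⟨u0, hu0⟩ := hU
  have hEne : Nonempty {e : Fin n // src e ∈ U ∨ tgt e ∈ U} := by
    obtain ⟨a, ha, l, hl, -⟩ := hpath u0 hu0
    obtain ⟨k, b, -, g0, -⟩ := path_to_A hG l ⟨u0, Or.inr hu0⟩ a ha hu0 hl
    obtain ⟨x, -⟩ := List.exists_mem_of_ne_nil _ g0
    exact ⟨x.1⟩
  have hfin : Finite {x : X // x ∈ A ∨ x ∈ U} := by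
    have : Set.Finite {x : X | x ∈ A ∨ x ∈ U} :=
      (A.finite_toSet.union U.finite_toSet)
    exact this
  obtain ⟨par', root', rk', f1, f2, f3, f4, f5⟩ := sf' X K D sg ε hε hD hcov hsg
    {x : X // x ∈ A ∨ x ∈ U} {e : Fin n // src e ∈ U ∨ tgt e ∈ U}
    (fun e => ⟨src e, (hG.2.1 e).1⟩) (fun e => ⟨tgt e, (hG.2.1 e).2⟩) (fun v => (v : X))
    (fun v => {(v : X)}) (fun e => sp e) {v | (v : X) ∈ A} (fun v => rfl)
    (by
      rintro ⟨e, he⟩
      refine Small.mono' (hsm e he) le_rfl ?_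
      rintro z ((hz | hz) | hz)
      · rw [mem_singleton_iff] at hz; rw [hz]; exact (hG.2.2 e).1
      · exact hz
      · rw [mem_singleton_iff] at hz; rw [hz]; exact (hG.2.2 e).2)
    (by
      rintro ⟨v, hv⟩
      by_cases hvA : v ∈ A
      · refine ⟨[], ⟨v, hv⟩, hvA, by simp, by simp, by simp, ?_⟩
        intro y hy z hz
        have hc : ∀ y ∈ ({v} : Set X) ∪ {x | ∃ p ∈ ([] : List ({e : Fin n // src e ∈ U ∨ tgt e ∈ U} ×
            {x : X // x ∈ A ∨ x ∈ U})), x ∈ sp p.1 ∪ {(p.2 : X)}}, y = v := by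
          rintro y (hy | ⟨p, hp, -⟩)
          · exact hy
          · simp at hp
        rw [hc y hy, hc z hz, dist_self]
        exact hε
      · have hvU := hv.resolve_left hvA
        obtain ⟨a, ha, l, hl, hls⟩ := hpath v hvU
        obtain ⟨k, b, g1, g0, g2, g3, g4, g5, g6⟩ := path_to_A hG l ⟨v, hv⟩ a ha hvU hl
        refine ⟨k, b, g1, g2, g3, g4, Small.mono' hls le_rfl ?_⟩
        rintro z (hz | ⟨p, hp, hz | hz⟩)
        · rw [mem_singleton_iff] at hz; rw [hz]; exact g5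
        · exact (g6 p hp).1 hz
        · rw [mem_singleton_iff] at hz; rw [hz]; exact (g6 p hp).2)
  obtain ⟨e0⟩ := hEne
  refine ⟨fun x => if h : x ∈ A ∨ x ∈ U then (((par' ⟨x, h⟩).1 : Fin n), ((par' ⟨x, h⟩).2 : X))
      else ((e0 : Fin n), x), fun x => if h : x ∈ A ∨ x ∈ U then (root' ⟨x, h⟩ : X) else x,
    fun x => if h : x ∈ A ∨ x ∈ U then rk' ⟨x, h⟩ else 0, ?_, ?_⟩
  · intro a ha
    have h1 : a ∈ A ∨ a ∈ U := Or.inl ha
    simp only [dif_pos h1]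
    rw [f1 ⟨a, h1⟩ ha]
  · intro u hu
    have h1 : u ∈ A ∨ u ∈ U := Or.inr hu
    have huA : (⟨u, h1⟩ : {x : X // x ∈ A ∨ x ∈ U}) ∉ {v : {x : X // x ∈ A ∨ x ∈ U} | (v : X) ∈ A} :=
      fun h => hG.1 u h hu
    obtain ⟨g1, g2, g3⟩ := f3 ⟨u, h1⟩ huA
    have h2 := (par' ⟨u, h1⟩).2.2
    simp only [dif_pos h1]
    rw [dif_pos h2, dif_pos h2]
    refine ⟨?_, h2, ?_, ?_, f2 _, ?_, ?_⟩
    · rcases g1 with ⟨g1, g4⟩ | ⟨g1, g4⟩
      · left; exact ⟨congrArg Subtype.val g1, congrArg Subtype.val g4⟩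
      · right; exact ⟨congrArg Subtype.val g1, congrArg Subtype.val g4⟩
    · rw [g2]
    · exact g3
    · exact f4 ⟨u, h1⟩ rfl
    · exact f5 ⟨u, h1⟩ huA

theorem ForestOK.mono {n : ℕ} {src tgt : Fin n → X} {sp : Fin n → Set X} {A U : Finset X}
    {par : X → Fin n × X} {root : X → X} {rk : X → ℕ} {δ δ' : ℝ}
    (h : ForestOK src tgt sp A U par root rk δ) (hδ : δ ≤ δ') :
    ForestOK src tgt sp A U par root rk δ' := by
  refine ⟨h.1, fun u hu => ?_⟩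
  obtain ⟨h1, h2, h3, h4, h5, h6, h7⟩ := h.2 u hu
  exact ⟨h1, h2, h3, h4, h5, closedBall_subset_closedBall hδ h6,
    h7.trans (closedBall_subset_closedBall hδ)⟩

/-- the three steps together -/
theorem stage_core {K1 K2 K3 : ℕ} {D1 : Fin K1 → Set X} {D2 : Fin K2 → Set X}
    {D3 : Fin K3 → Set X} {ρ s1 s2 s3 : ℝ} (hρ : 0 ≤ ρ)
    (hD1 : ∀ j, Small s1 (D1 j)) (hcov1 : (⋃ j, D1 j) = univ) (h1 : 2 ^ (K1 + 3) * ρ ≤ s1)
    (hD2 : ∀ j, Small s2 (D2 j)) (hcov2 : (⋃ j, D2 j) = univ) (h2 : 2 ^ (K2 + 4) * (2 * s1) ≤ s2)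
    (hD3 : ∀ j, Small s3 (D3 j)) (hcov3 : (⋃ j, D3 j) = univ)
    (h3 : 2 ^ (K3 + 3) * (8 * (4 * s2)) ≤ s3) : StageOK X (4 * s3) ρ := by
  intro n src tgt sp A U hG hsm heven hpath
  have hρ1 : ρ ≤ s1 := by
    have : (1:ℝ) ≤ 2 ^ (K1 + 3) := one_le_pow₀ (by norm_num)
    nlinarith
  have hs1 : 0 ≤ s1 := hρ.trans hρ1
  have hs12 : 2 * s1 ≤ s2 := by
    have : (1:ℝ) ≤ 2 ^ (K2 + 4) := one_le_pow₀ (by norm_num)
    nlinarith
  have hs2 : 0 ≤ s2 := by linarith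
  rcases U.eq_empty_or_nonempty with rfl | hU
  · refine ⟨[], ?_, ?_, ?_, ?_⟩
    · intro l hl; simp at hl
    · refine ⟨by simp, fun e => by simp⟩
    · intro l hl; simp at hl
    · simp [openCount]
  obtain ⟨par, root, rk, hF⟩ := exists_forest hρ hD1 hcov1 h1 hG hsm hpath hU
  obtain ⟨L, M, g1, g2, g3, g4, g5⟩ := elim X K2 D2 s2 (2 * s1) (by linarith) hD2 hcov2 h2 n src tgt
    sp A U hG (fun e he => Small.mono' (hsm e he) (by linarith) Subset.rfl) heven par root rk hF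
  obtain ⟨L', f1, f2, f3, f4⟩ := ins X K3 D3 s3 (4 * s2) (by linarith) hD3 hcov3 h3 n src tgt
    sp A U hG par root rk (ForestOK.mono hF (by linarith)) L M g1 g2 g3 g4
  exact ⟨L', f1, f2, f3, f4.trans g5⟩

/-- cells -/
theorem exists_cells [CompactSpace X] {σ : ℝ} (hσ : 0 < σ) :
    ∃ (K : ℕ) (D : Fin K → Set X), (∀ j, Small σ (D j)) ∧ (⋃ j, D j) = univ := by
  obtain ⟨t, -, htf, htc⟩ := finite_cover_balls_of_compact (isCompact_univ : IsCompact (univ : Set X))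
    (half_pos hσ)
  obtain ⟨K, f, hf⟩ : ∃ (K : ℕ) (f : Fin K → X), range f = t := by
    have := htf.fin_param
    obtain ⟨K, f, -, hf⟩ := this
    exact ⟨K, f, hf⟩
  refine ⟨K, fun j => ball (f j) (σ / 2), ?_, ?_⟩
  · intro j y hy z hz
    rw [mem_ball] at hy hz
    rw [dist_comm] at hz
    linarith [dist_triangle y (f j) z]
  · rw [eq_univ_iff_forall]
    intro x
    have := htc (mem_univ x)
    rw [mem_iUnion₂] at this
    obtain ⟨y, hy, hxy⟩ := this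
    rw [← hf] at hy
    obtain ⟨j, rfl⟩ := hy
    exact mem_iUnion.2 ⟨j, hxy⟩

/-- STAGE -/
theorem stage (X : Type u) [MetricSpace X] [CompactSpace X] : StageStmt X := by
  constructor
  · intro s hs
    obtain ⟨K3, D3, hD3, hc3⟩ := exists_cells (X := X) (σ := s / 4) (by linarith)
    obtain ⟨s2, hs2, h3⟩ : ∃ s2 > 0, 2 ^ (K3 + 3) * (8 * (4 * s2)) ≤ s / 4 := by
      refine ⟨s / 4 / (2 ^ (K3 + 3) * 32), by positivity, le_of_eq ?_⟩
      have : (0:ℝ) < 2 ^ (K3 + 3) := by positivity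
      field_simp
      norm_num
    obtain ⟨K2, D2, hD2, hc2⟩ := exists_cells (X := X) hs2
    obtain ⟨s1, hs1, h2⟩ : ∃ s1 > 0, 2 ^ (K2 + 4) * (2 * s1) ≤ s2 := by
      refine ⟨s2 / (2 ^ (K2 + 4) * 2), by positivity, le_of_eq ?_⟩
      have : (0:ℝ) < 2 ^ (K2 + 4) := by positivity
      field_simp
    obtain ⟨K1, D1, hD1, hc1⟩ := exists_cells (X := X) hs1
    obtain ⟨ρ, hρ, h1⟩ : ∃ ρ > 0, 2 ^ (K1 + 3) * ρ ≤ s1 := by
      refine ⟨s1 / (2 ^ (K1 + 3)), by positivity, le_of_eq ?_⟩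
      have : (0:ℝ) < 2 ^ (K1 + 3) := by positivity
      field_simp
    refine ⟨ρ, hρ, ?_⟩
    have := stage_core (X := X) hρ.le hD1 hc1 h1 hD2 hc2 h2 hD3 hc3 h3
    have h4 : 4 * (s / 4) = s := by ring
    rwa [h4] at this
  · intro s hs ρ n src tgt sp A U hG hsm heven hpath
    rcases U.eq_empty_or_nonempty with rfl | hU
    · refine ⟨[], ?_, ?_, ?_, ?_⟩
      · intro l hl; simp at hl
      · refine ⟨by simp, fun e => by simp⟩
      · intro l hl; simp at hl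
      · simp [openCount]
    have hs0 : 0 ≤ s := by
      obtain ⟨u, -⟩ := hU
      have := hs u (mem_univ _) u (mem_univ _)
      rwa [dist_self] at this
    have hcell : ∀ σ, s ≤ σ → (∀ j : Fin 1, Small σ ((fun _ => univ : Fin 1 → Set X) j)) :=
      fun σ hσ j => Small.mono' hs hσ Subset.rfl
    have hcov : (⋃ j, (fun _ => univ : Fin 1 → Set X) j) = univ := by
      rw [eq_univ_iff_forall]
      intro x
      exact mem_iUnion.2 ⟨0, mem_univ _⟩
    have hcore := stage_core (X := X) (K1 := 1) (K2 := 1) (K3 := 1) (ρ := s)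
      (s1 := 2 ^ (1 + 3) * s) (s2 := 2 ^ (1 + 4) * (2 * (2 ^ (1 + 3) * s)))
      (s3 := 2 ^ (1 + 3) * (8 * (4 * (2 ^ (1 + 4) * (2 * (2 ^ (1 + 3) * s)))))) hs0
      (hcell _ (by norm_num; linarith)) hcov le_rfl (hcell _ (by norm_num; linarith)) hcov le_rfl
      (hcell _ (by norm_num; linarith)) hcov le_rfl
    obtain ⟨L, h1, h2, h3, h4⟩ := hcore n src tgt sp A U hG
      (fun e _ => Small.mono' hs le_rfl (subset_univ _)) heven
      (by
        intro u hu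
        obtain ⟨a, ha, l, hl, -⟩ := hpath u hu
        exact ⟨a, ha, l, hl, Small.mono' hs le_rfl (subset_univ _)⟩)
    exact ⟨L, h1, h2, fun l _ => Small.mono' hs le_rfl (subset_univ _), h4⟩

end Pool.Agent.EU.H75
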