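import Pool.Agent.Helper17_EU.DefsC

/-! # Module TDEC: trail decomposition along a pairing -/

open Set

namespace Pool.Agent.EU.H75

universe u

variable {n : ℕ}

/-- the flipped dart -/
def fl (d : Fin n × Bool) : Fin n × Bool := (d.1, !d.2)

@[simp] theorem fl_fl (d : Fin n × Bool) : fl (fl d) = d := by simp [fl]

@[simp] theorem fl_fst (d : Fin n × Bool) : (fl d).1 = d.1 := rfl

theorem fl_ne (d : Fin n × Bool) : fl d ≠ d := by
  intro h
  have := congrArg Prod.snd h
  simp [fl] at this

theorem eq_or_fl {c d : Fin n × Bool} (h : c.1 = d.1) : c = d ∨ c = fl d := by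
  obtain ⟨c1, c2⟩ := c
  obtain ⟨d1, d2⟩ := d
  simp only at h
  subst h
  cases c2 <;> cases d2 <;> simp [fl]

/-- the relation between consecutive darts -/
def RR (π : Fin n × Bool → Fin n × Bool) (P : Set (Fin n × Bool)) (d d' : Fin n × Bool) : Prop :=
  d ∈ P ∧ π d = fl d'

/-- the reversed trail -/
def rv (l : List (Fin n × Bool)) : List (Fin n × Bool) := (l.map fl).reverse

/-- open trail -/
def OT (π : Fin n × Bool → Fin n × Bool) (P : Set (Fin n × Bool)) (l : List (Fin n × Bool)) :
    Prop :=
  l ≠ [] ∧ l.IsChain (RR π P) ∧ (∀ d ∈ l.getLast?, d ∉ P) ∧ (∀ d ∈ l.head?, fl d ∉ P)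

/-- closed trail -/
def CT (π : Fin n × Bool → Fin n × Bool) (P : Set (Fin n × Bool)) (l : List (Fin n × Bool)) :
    Prop :=
  l ≠ [] ∧ l.IsChain (RR π P) ∧ (∀ d ∈ l.getLast?, ∀ d' ∈ l.head?, RR π P d d')

theorem RR.mono {π : Fin n × Bool → Fin n × Bool} {P Q : Set (Fin n × Bool)} (h : P ⊆ Q)
    {d d' : Fin n × Bool} (hr : RR π P d d') : RR π Q d d' := ⟨h hr.1, hr.2⟩

theorem CT.mono {π : Fin n × Bool → Fin n × Bool} {P Q : Set (Fin n × Bool)} (h : P ⊆ Q)
    {l : List (Fin n × Bool)} (hr : CT π P l) : CT π Q l :=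
  ⟨hr.1, hr.2.1.imp fun _ _ h' => h'.mono h, fun d hd d' hd' => (hr.2.2 d hd d' hd').mono h⟩

theorem OT.rv {π : Fin n × Bool → Fin n × Bool} {P : Set (Fin n × Bool)}
    (hP : ∀ d ∈ P, π d ∈ P ∧ π (π d) = d) {l : List (Fin n × Bool)} (h : OT π P l) :
    OT π P (rv l) := by
  obtain ⟨h1, h2, h3, h4⟩ := h
  refine ⟨by simpa [H75.rv] using h1, ?_, ?_, ?_⟩
  · rw [H75.rv, List.isChain_reverse, List.isChain_map]
    refine h2.imp fun a b hab => ?_
    obtain ⟨ha, hab⟩ := hab
    have := hP a ha
    refine ⟨by rw [← hab]; exact this.1, ?_⟩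
    rw [← hab, this.2, fl_fl]
  · intro d hd
    rw [H75.rv, List.getLast?_reverse, List.head?_map] at hd
    simp only [Option.mem_def, Option.map_eq_some_iff] at hd
    obtain ⟨a, ha, rfl⟩ := hd
    exact h4 a ha
  · intro d hd
    rw [H75.rv, List.head?_reverse, List.getLast?_map] at hd
    simp only [Option.mem_def, Option.map_eq_some_iff] at hd
    obtain ⟨a, ha, rfl⟩ := hd
    rw [fl_fl]
    exact h3 a ha

theorem rv_fst (l : List (Fin n × Bool)) : ((rv l).map Prod.fst).Perm (l.map Prod.fst) := by
  unfold rv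
  rw [List.map_reverse, List.map_map]
  exact (List.reverse_perm _).trans (by
    have : (Prod.fst ∘ fl : Fin n × Bool → Fin n) = Prod.fst := by funext d; rfl
    rw [this])

/-- a state of the algorithm -/
def St (π : Fin n × Bool → Fin n × Bool) (P : Set (Fin n × Bool))
    (L M : List (List (Fin n × Bool))) : Prop :=
  (∀ l ∈ L, OT π P l) ∧ (∀ l ∈ M, CT π P l) ∧
    ((L ++ M).flatten.map Prod.fst).Nodup ∧ ∀ e, e ∈ (L ++ M).flatten.map Prod.fst

/-- changing the open trails by a permutation -/
theorem St.perm {π : Fin n × Bool → Fin n × Bool} {P : Set (Fin n × Bool)}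
    {L L' M : List (List (Fin n × Bool))} (h : St π P L M) (hp : L.Perm L') : St π P L' M := by
  obtain ⟨h1, h2, h3, h4⟩ := h
  have hq : ((L ++ M).flatten.map Prod.fst).Perm ((L' ++ M).flatten.map Prod.fst) :=
    ((hp.append_right M).flatten).map _
  exact ⟨fun l hl => h1 l (hp.mem_iff.2 hl), h2, hq.nodup_iff.1 h3, fun e => hq.mem_iff.1 (h4 e)⟩

/-- reversing an open trail -/
theorem St.rev {π : Fin n × Bool → Fin n × Bool} {P : Set (Fin n × Bool)}
    (hP : ∀ d ∈ P, π d ∈ P ∧ π (π d) = d)
    {L1 L2 M : List (List (Fin n × Bool))} {l : List (Fin n × Bool)}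
    (h : St π P (L1 ++ l :: L2) M) : St π P (L1 ++ rv l :: L2) M := by
  obtain ⟨h1, h2, h3, h4⟩ := h
  have hq : (((L1 ++ l :: L2) ++ M).flatten.map Prod.fst).Perm
      (((L1 ++ rv l :: L2) ++ M).flatten.map Prod.fst) := by
    simp only [List.flatten_append, List.flatten_cons, List.map_append]
    refine List.Perm.append_right _ (List.Perm.append_left _ (List.Perm.append_right _ ?_))
    exact (rv_fst l).symm
  refine ⟨fun x hx => ?_, h2, hq.nodup_iff.1 h3, fun e => hq.mem_iff.1 (h4 e)⟩
  rcases List.mem_append.1 hx with hx | hx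
  · exact h1 x (List.mem_append_left _ hx)
  rcases List.mem_cons.1 hx with rfl | hx
  · exact (h1 l (by simp)).rv hP
  · exact h1 x (by simp [hx])

/-- every free dart is the end dart of an open trail -/
theorem St.end_dart {π : Fin n × Bool → Fin n × Bool} {P : Set (Fin n × Bool)}
    (hP : ∀ d ∈ P, π d ∈ P ∧ π (π d) = d)
    {L M : List (List (Fin n × Bool))} (h : St π P L M) {d : Fin n × Bool} (hd : d ∉ P) :
    ∃ l ∈ L, d ∈ l.getLast? ∨ fl d ∈ l.head? := by
  obtain ⟨h1, h2, h3, h4⟩ := h
  have := h4 d.1
  rw [List.mem_map] at this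
  obtain ⟨c, hc, hcd⟩ := this
  rw [List.mem_flatten] at hc
  obtain ⟨l, hl, hcl⟩ := hc
  have hchain : l.IsChain (RR π P) := by
    rcases List.mem_append.1 hl with hl | hl
    · exact (h1 l hl).2.1
    · exact (h2 l hl).2.1
  obtain ⟨l1, l2, rfl⟩ := List.append_of_mem hcl
  rcases eq_or_fl hcd with rfl | rfl
  · -- `c = d`
    rcases l2 with - | ⟨x, l3⟩
    · rcases List.mem_append.1 hl with hl | hl
      · exact ⟨_, hl, Or.inl (by simp)⟩
      · exfalso
        have h5 := (h2 _ hl).2.2 c (by simp)
        rcases l1 with - | ⟨y, l1⟩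
        · exact hd (h5 c (by simp)).1
        · exact hd (h5 y (by simp)).1
    · exfalso
      rw [List.isChain_append] at hchain
      have := hchain.2.1
      rw [List.isChain_cons_cons] at this
      exact hd this.1.1
  · -- `c = fl d`
    rcases List.eq_nil_or_concat l1 with rfl | ⟨l0, x, rfl⟩
    · rcases List.mem_append.1 hl with hl | hl
      · exact ⟨_, hl, Or.inr (by simp)⟩
      · exfalso
        obtain ⟨h5, h6, h7⟩ := h2 _ hl
        simp only [List.nil_append] at h7 h5
        have h8 := h7 _ (List.getLast?_eq_some_getLast h5) (fl d) (by simp)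
        obtain ⟨h9, h10⟩ := h8
        rw [fl_fl] at h10
        exact hd (h10 ▸ (hP _ h9).1)
    · exfalso
      have h5 : ((l0 ++ [x]) ++ fl d :: l2).IsChain (RR π P) := by simpa using hchain
      rw [List.isChain_append] at h5
      have h6 := h5.2.2 x (by simp) (fl d) (by simp)
      obtain ⟨h9, h10⟩ := h6
      rw [fl_fl] at h10
      exact hd (h10 ▸ (hP _ h9).1)

/-- a free dart ends the first open trail, after changes -/
theorem St.front {π : Fin n × Bool → Fin n × Bool} {P : Set (Fin n × Bool)}
    (hP : ∀ d ∈ P, π d ∈ P ∧ π (π d) = d)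
    {L M : List (List (Fin n × Bool))} (h : St π P L M) {d : Fin n × Bool} (hd : d ∉ P) :
    ∃ l L', St π P (l :: L') M ∧ d ∈ l.getLast? := by
  obtain ⟨l, hl, hdl⟩ := h.end_dart hP hd
  obtain ⟨L1, L2, rfl⟩ := List.append_of_mem hl
  have hperm : (L1 ++ l :: L2).Perm (l :: (L1 ++ L2)) := List.perm_middle
  have h' := h.perm hperm
  rcases hdl with hdl | hdl
  · exact ⟨l, _, h', hdl⟩
  · refine ⟨rv l, L1 ++ L2, ?_, ?_⟩
    · have := St.rev (L1 := []) hP h'
      simpa using this
    · rw [rv, List.getLast?_reverse, List.head?_map]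
      simp only [Option.mem_def, Option.map_eq_some_iff]
      exact ⟨fl d, hdl, fl_fl d⟩

/-- an open trail stays open if its edges do not occur in the new pairs -/
theorem OT.insert {π : Fin n × Bool → Fin n × Bool} {P : Set (Fin n × Bool)} {d d' : Fin n × Bool}
    {l : List (Fin n × Bool)} (h : OT π P l) (h1 : d.1 ∉ l.map Prod.fst)
    (h2 : d'.1 ∉ l.map Prod.fst) : OT π (insert d (insert d' P)) l := by
  obtain ⟨h3, h4, h5, h6⟩ := h
  refine ⟨h3, h4.imp fun _ _ h' => h'.mono (fun x hx => by simp [hx]), ?_, ?_⟩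
  · intro x hx hx'
    have hxl : x ∈ l := List.mem_of_getLast? hx
    rcases hx' with rfl | rfl | hx'
    · exact h1 (List.mem_map_of_mem hxl)
    · exact h2 (List.mem_map_of_mem hxl)
    · exact h5 x hx hx'
  · intro x hx hx'
    have hxl : x ∈ l := List.mem_of_head? hx
    rcases hx' with hx' | hx' | hx'
    · exact h1 (by rw [← hx', fl_fst]; exact List.mem_map_of_mem hxl)
    · exact h2 (by rw [← hx', fl_fst]; exact List.mem_map_of_mem hxl)
    · exact h6 x hx hx'

theorem St.step {π : Fin n × Bool → Fin n × Bool} {P : Set (Fin n × Bool)}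
    (hP : ∀ d ∈ P, π d ∈ P ∧ π (π d) = d)
    {L M : List (List (Fin n × Bool))} (h : St π P L M) {d : Fin n × Bool} (hd : d ∉ P)
    (hd1 : π d ∉ P) (hd3 : π d ≠ d) :
    ∃ L' M', St π (insert d (insert (π d) P)) L' M' := by
  obtain ⟨l, L', h', hdl⟩ := h.front hP hd
  obtain ⟨h1, h2, h3, h4⟩ := id h'
  have hlne : l ≠ [] := (h1 l (by simp)).1
  have hdmem : d ∈ l := List.mem_of_getLast? hdl
  have h3' : (l.map Prod.fst ++ (L' ++ M).flatten.map Prod.fst).Nodup := by
    simpa [List.flatten_cons] using h3
  rw [List.nodup_append] at h3'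
  obtain ⟨h5, h6, h7⟩ := h3'
  -- the trail containing `π d`
  obtain ⟨l', hl', hdl'⟩ := h'.end_dart hP hd1
  rcases List.mem_cons.1 hl' with rfl | hl'
  · -- closing the trail
    have hhead : fl (π d) ∈ l'.head? := by
      rcases hdl' with hdl' | hdl'
      · exfalso
        rw [Option.mem_def] at hdl hdl'
        rw [hdl] at hdl'
        exact hd3 (Option.some_injective _ hdl').symm
      · exact hdl'
    have hd'mem : fl (π d) ∈ l' := List.mem_of_head? hhead
    refine ⟨L', l' :: M, ?_, ?_, ?_, ?_⟩
    · intro x hx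
      refine (h1 x (by simp [hx])).insert ?_ ?_
      · intro hh
        refine h7 d.1 (List.mem_map_of_mem hdmem) d.1 ?_ rfl
        rw [List.mem_map] at hh ⊢
        obtain ⟨y, hy, hy'⟩ := hh
        exact ⟨y, by
          rw [List.mem_flatten]
          exact ⟨x, by simp [hx], hy⟩, hy'⟩
      · intro hh
        refine h7 (π d).1 (by
          have := List.mem_map_of_mem (f := Prod.fst) hd'mem
          simpa using this) (π d).1 ?_ rfl
        rw [List.mem_map] at hh ⊢
        obtain ⟨y, hy, hy'⟩ := hh
        exact ⟨y, by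
          rw [List.mem_flatten]
          exact ⟨x, by simp [hx], hy⟩, hy'⟩
    · intro x hx
      rcases List.mem_cons.1 hx with rfl | hx
      · refine ⟨hlne, (h1 x (by simp)).2.1.imp fun _ _ h' => h'.mono (fun x hx => by simp [hx]),
          ?_⟩
        intro a ha b hb
        rw [Option.mem_def] at ha hb hdl hhead
        rw [hdl] at ha
        rw [hhead] at hb
        obtain rfl := Option.some_injective _ ha
        obtain rfl := Option.some_injective _ hb
        exact ⟨by simp, by rw [fl_fl]⟩
      · exact (h2 x hx).mono (fun y hy => by simp [hy])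
    · have hp : ((l' :: L' ++ M).flatten.map Prod.fst).Perm
          ((L' ++ l' :: M).flatten.map Prod.fst) := by
        refine (List.Perm.flatten ?_).map _
        exact List.perm_middle.symm
      exact hp.nodup_iff.1 h3
    · have hp : ((l' :: L' ++ M).flatten.map Prod.fst).Perm
          ((L' ++ l' :: M).flatten.map Prod.fst) := by
        refine (List.Perm.flatten ?_).map _
        exact List.perm_middle.symm
      exact fun e => hp.mem_iff.1 (h4 e)
  · -- joining two trails
    obtain ⟨L1, L2, rfl⟩ := List.append_of_mem hl'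
    have hperm : (l :: (L1 ++ l' :: L2)).Perm (l :: l' :: (L1 ++ L2)) :=
      List.Perm.cons _ List.perm_middle
    have hs := h'.perm hperm
    -- after reversal the head of `l'` is `fl (π d)`
    obtain ⟨k, hk, hs'⟩ : ∃ k, fl (π d) ∈ List.head? k ∧ St π P (l :: k :: (L1 ++ L2)) M := by
      rcases hdl' with hdl' | hdl'
      · refine ⟨rv l', ?_, ?_⟩
        · rw [rv, List.head?_reverse, List.getLast?_map]
          simp only [Option.mem_def, Option.map_eq_some_iff]
          exact ⟨π d, hdl', rfl⟩
        · have := St.rev (L1 := [l]) hP hs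
          simpa using this
      · exact ⟨l', hdl', hs⟩
    clear hl' hdl' hs hperm h1 h2 h3 h4 h6 h7 h'
    obtain ⟨h1, h2, h3, h4⟩ := hs'
    set L3 := L1 ++ L2 with hL3
    have h3' : (l.map Prod.fst ++ (k.map Prod.fst ++ (L3 ++ M).flatten.map Prod.fst)).Nodup := by
      simpa [List.flatten_cons] using h3
    rw [List.nodup_append] at h3'
    obtain ⟨-, h6, h7⟩ := h3'
    rw [List.nodup_append] at h6
    obtain ⟨h8, h9, h10⟩ := h6
    have hkmem : fl (π d) ∈ k := List.mem_of_head? hk
    have hkne : k ≠ [] := (h1 k (by simp)).1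
    have hπk : (π d).1 ∈ k.map Prod.fst := by
      have := List.mem_map_of_mem (f := Prod.fst) hkmem
      simpa using this
    have hdl1 : d.1 ∈ l.map Prod.fst := List.mem_map_of_mem hdmem
    refine ⟨(l ++ k) :: L3, M, ?_, ?_, ?_, ?_⟩
    · intro x hx
      rcases List.mem_cons.1 hx with rfl | hx
      · obtain ⟨a1, a2, a3, a4⟩ := h1 l (by simp)
        obtain ⟨b1, b2, b3, b4⟩ := h1 k (by simp)
        refine ⟨by simp [a1], ?_, ?_, ?_⟩
        · rw [List.isChain_append]
          refine ⟨a2.imp fun _ _ h' => h'.mono (fun x hx => by simp [hx]),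
            b2.imp fun _ _ h' => h'.mono (fun x hx => by simp [hx]), ?_⟩
          intro a ha b hb
          rw [Option.mem_def] at ha hb hdl hk
          rw [hdl] at ha
          rw [hk] at hb
          obtain rfl := Option.some_injective _ ha
          obtain rfl := Option.some_injective _ hb
          exact ⟨by simp, by rw [fl_fl]⟩
        · intro x hx hx'
          rw [List.getLast?_append_of_ne_nil _ hkne] at hx
          have hxk : x ∈ k := List.mem_of_getLast? hx
          rcases hx' with rfl | hx' | hx'
          · exact h7 _ hdl1 x.1 (List.mem_append_left _ (List.mem_map_of_mem hxk)) rfl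
          · have : x = fl (π d) := by
              refine List.inj_on_of_nodup_map h8 hxk hkmem ?_
              rw [hx', fl_fst]
            rw [hx'] at this
            exact fl_ne _ this.symm
          · exact b3 x hx hx'
        · intro x hx hx'
          rw [List.head?_append_of_ne_nil _ a1] at hx
          have hxl : x ∈ l := List.mem_of_head? hx
          rcases hx' with hx' | hx' | hx'
          · have : x = d := by
              refine List.inj_on_of_nodup_map h5 hxl hdmem ?_
              rw [← hx', fl_fst]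
            rw [this] at hx'
            exact fl_ne _ hx'
          · refine h7 _ (List.mem_map_of_mem hxl) (π d).1 (List.mem_append_left _ hπk) ?_
            rw [← hx', fl_fst]
          · exact a4 x hx hx'
      · refine (h1 x (by simp [hx])).insert ?_ ?_
        · intro hh
          refine h7 d.1 hdl1 d.1 (List.mem_append_right _ ?_) rfl
          rw [List.mem_map] at hh ⊢
          obtain ⟨y, hy, hy'⟩ := hh
          exact ⟨y, by
            rw [List.mem_flatten]
            exact ⟨x, by simp [hx], hy⟩, hy'⟩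
        · intro hh
          refine h10 (π d).1 hπk (π d).1 ?_ rfl
          rw [List.mem_map] at hh ⊢
          obtain ⟨y, hy, hy'⟩ := hh
          exact ⟨y, by
            rw [List.mem_flatten]
            exact ⟨x, by simp [hx], hy⟩, hy'⟩
    · intro x hx
      exact (h2 x hx).mono (fun y hy => by simp [hy])
    · simpa [List.flatten_cons] using h3
    · simpa [List.flatten_cons] using h4

section final

variable {X : Type u} (src tgt : Fin n → X)

theorem dtgt_fl (d : Fin n × Bool) : dtgt src tgt (fl d) = dsrc src tgt d := by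
  obtain ⟨e, b⟩ := d
  cases b <;> simp [fl, dtgt, dsrc]

theorem dsrc_fl (d : Fin n × Bool) : dsrc src tgt (fl d) = dtgt src tgt d := by
  obtain ⟨e, b⟩ := d
  cases b <;> simp [fl, dtgt, dsrc]

theorem isTr_of_chain (l : List (Fin n × Bool)) (hl : l ≠ [])
    (h : l.IsChain (fun d d' => dtgt src tgt d = dsrc src tgt d')) :
    IsTr src tgt (dsrc src tgt (l.head hl)) l (dtgt src tgt (l.getLast hl)) := by
  induction l with
  | nil => exact absurd rfl hl
  | cons d l ih =>
    rcases l with - | ⟨d', l⟩
    · simp only [List.head_cons, List.getLast_singleton]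
      exact IsTr.cons d [] _ (IsTr.nil _)
    · rw [List.isChain_cons_cons] at h
      have := ih (by simp) h.2
      simp only [List.head_cons] at this ⊢
      rw [List.getLast_cons (by simp)]
      rw [← h.1] at this
      exact IsTr.cons d _ _ this

theorem tdec (X : Type u) : TDecStmt X := by
  intro n src tgt C π hπ
  let s : Set (Set (Fin n × Bool)) := {P | (∀ d ∈ P, dtgt src tgt d ∈ C ∧ π d ∈ P) ∧
    ∃ L M, St π P L M}
  have hs : s.Nonempty := by
    refine ⟨∅, by simp, (List.finRange n).map (fun e => [(e, true)]), [], ?_, ?_, ?_, ?_⟩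
    · intro l hl
      rw [List.mem_map] at hl
      obtain ⟨e, -, rfl⟩ := hl
      exact ⟨by simp, by simp, by simp, by simp⟩
    · intro l hl
      simp at hl
    · have : ((List.finRange n).map (fun e => [(e, true)]) ++ []).flatten.map Prod.fst
          = List.finRange n := by
        rw [List.append_nil]
        induction List.finRange n with
        | nil => rfl
        | cons a l ih => simp only [List.map_cons, List.flatten_cons, List.map_append, ih,
            List.map_nil, List.singleton_append]
      rw [this]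
      exact List.nodup_finRange n
    · have : ((List.finRange n).map (fun e => [(e, true)]) ++ []).flatten.map Prod.fst
          = List.finRange n := by
        rw [List.append_nil]
        induction List.finRange n with
        | nil => rfl
        | cons a l ih => simp only [List.map_cons, List.flatten_cons, List.map_append, ih,
            List.map_nil, List.singleton_append]
      rw [this]
      exact List.mem_finRange
  obtain ⟨P, hP⟩ := (Set.toFinite s).exists_maximal hs
  obtain ⟨⟨hPC, L, M, hst⟩, hmax⟩ := hP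
  have hPπ : ∀ d ∈ P, π d ∈ P ∧ π (π d) = d :=
    fun d hd => ⟨(hPC d hd).2, (hπ d (hPC d hd).1).2.1⟩
  have hall : ∀ d, dtgt src tgt d ∈ C → d ∈ P := by
    intro d hd
    by_contra hdP
    obtain ⟨h1, h2, h3⟩ := hπ d hd
    have hd1 : π d ∉ P := by
      intro h
      have := (hPC _ h).2
      rw [h2] at this
      exact hdP this
    obtain ⟨L', M', hst'⟩ := hst.step hPπ hdP hd1 h3
    have hmem : insert d (insert (π d) P) ∈ s := by
      refine ⟨?_, L', M', hst'⟩
      rintro x (rfl | rfl | hx)
      · exact ⟨hd, by simp⟩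
      · exact ⟨by rw [h1]; exact hd, by rw [h2]; simp⟩
      · exact ⟨(hPC x hx).1, by simp [(hPC x hx).2]⟩
    have := hmax hmem (fun x hx => by simp [hx])
    exact hdP (this (by simp))
  obtain ⟨h1, h2, h3, h4⟩ := hst
  have hR : ∀ d d', RR π P d d' → dtgt src tgt d = dsrc src tgt d' := by
    rintro d d' ⟨h5, h6⟩
    rw [← (hπ d (hPC d h5).1).1, h6, dtgt_fl]
  refine ⟨L, M, ?_, ?_, ?_, ?_, h3, h4⟩
  · intro l hl
    obtain ⟨a1, a2, a3, a4⟩ := h1 l hl
    refine ⟨_, _, isTr_of_chain src tgt l a1 (a2.imp hR), ?_, ?_, a1⟩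
    · intro h
      rw [← dtgt_fl] at h
      exact a4 _ (List.head_mem_head? a1) (hall _ h)
    · intro h
      exact a3 _ (List.getLast_mem_getLast? a1) (hall _ h)
  · intro l hl
    obtain ⟨a1, a2, a3⟩ := h2 l hl
    have a4 := a3 _ (List.getLast_mem_getLast? a1) _ (List.head_mem_head? a1)
    have a5 := isTr_of_chain src tgt l a1 (a2.imp hR)
    rw [hR _ _ a4] at a5
    refine ⟨_, ?_, a5, a1, ?_⟩
    · rw [← hR _ _ a4]
      exact (hPC _ a4.1).1
    · intro d hd
      obtain ⟨l1, l2, rfl⟩ := List.append_of_mem hd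
      rcases List.eq_nil_or_concat l1 with rfl | ⟨l0, x, rfl⟩
      · simp only [List.nil_append, List.head_cons] at a4
        rw [← hR _ _ a4]
        exact (hPC _ a4.1).1
      · have a6 : ((l0 ++ [x]) ++ d :: l2).IsChain (RR π P) := by simpa using a2
        rw [List.isChain_append] at a6
        have a7 := a6.2.2 x (by simp) d (by simp)
        rw [← hR _ _ a7]
        exact (hPC _ a7.1).1
  · intro l hl
    have hchain : l.IsChain (RR π P) := by
      rcases List.mem_append.1 hl with hl | hl
      · exact (h1 l hl).2.1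
      · exact (h2 l hl).2.1
    exact hchain.imp fun d d' h => ⟨(hPC d h.1).1, h.2⟩
  · intro l hl d hd d' hd'
    exact ((h2 l hl).2.2 d hd d' hd').2

end final

end Pool.Agent.EU.H75
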