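import Pool.Agent.Helper75_EU.TDec

/-! # Lemmas on trails, pairings and T-joins -/

open Set

namespace Pool.Agent.EU.H75

universe u

section trails

variable {X : Type u} {n : ℕ} (src tgt : Fin n → X)

@[simp] theorem isTr_nil {a b : X} : IsTr src tgt a [] b ↔ a = b := by
  constructor
  · intro h; cases h; rfl
  · rintro rfl; exact IsTr.nil _

@[simp] theorem isTr_cons {a b : X} {d : Fin n × Bool} {l : List (Fin n × Bool)} :
    IsTr src tgt a (d :: l) b ↔ dsrc src tgt d = a ∧ IsTr src tgt (dtgt src tgt d) l b := by
  constructor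
  · intro h; cases h with
    | cons _ _ _ h => exact ⟨rfl, h⟩
  · rintro ⟨rfl, h⟩; exact IsTr.cons _ _ _ h

theorem isTr_append {a c : X} {l l' : List (Fin n × Bool)} :
    IsTr src tgt a (l ++ l') c ↔ ∃ b, IsTr src tgt a l b ∧ IsTr src tgt b l' c := by
  induction l generalizing a with
  | nil => simp
  | cons d l ih =>
    rw [List.cons_append, isTr_cons, ih]
    constructor
    · rintro ⟨h1, b, h2, h3⟩
      exact ⟨b, (isTr_cons src tgt).2 ⟨h1, h2⟩, h3⟩
    · rintro ⟨b, h1, h3⟩
      rw [isTr_cons] at h1
      exact ⟨h1.1, b, h1.2, h3⟩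

theorem isTr_rv {a b : X} {l : List (Fin n × Bool)} (h : IsTr src tgt a l b) :
    IsTr src tgt b (rv l) a := by
  induction h with
  | nil x => simp [rv]
  | cons d l y h ih =>
    have : rv (d :: l) = rv l ++ [fl d] := by simp [rv]
    rw [this, isTr_append]
    refine ⟨_, ih, ?_⟩
    simp [dsrc_fl, dtgt_fl]

theorem isTr_src_unique {a b a' b' : X} {l : List (Fin n × Bool)} (h : IsTr src tgt a l b)
    (h' : IsTr src tgt a' l b') (hl : l ≠ []) : a = a' := by
  cases l with
  | nil => exact absurd rfl hl
  | cons d l => rw [isTr_cons] at h h'; rw [← h.1, h'.1]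

theorem isTr_tgt_unique {a b a' b' : X} {l : List (Fin n × Bool)} (h : IsTr src tgt a l b)
    (h' : IsTr src tgt a' l b') (hl : l ≠ []) : b = b' := by
  have hr : rv l ≠ [] := by simpa [rv] using hl
  exact isTr_src_unique src tgt (isTr_rv src tgt h) (isTr_rv src tgt h') hr

/-- nonempty trail with inner vertices in `U` -/
def TrI (U : Set X) (a : X) (l : List (Fin n × Bool)) (b : X) : Prop :=
  IsTr src tgt a l b ∧ l ≠ [] ∧ ∀ d ∈ l.tail, dsrc src tgt d ∈ U

variable {src tgt}

theorem TrI.append {U : Set X} {a b c : X} {l l' : List (Fin n × Bool)}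
    (h : TrI src tgt U a l b) (h' : TrI src tgt U b l' c) (hb : b ∈ U) :
    TrI src tgt U a (l ++ l') c := by
  obtain ⟨h1, h2, h3⟩ := h
  obtain ⟨h4, h5, h6⟩ := h'
  refine ⟨(isTr_append src tgt).2 ⟨b, h1, h4⟩, by simp [h2], ?_⟩
  intro d hd
  rw [List.tail_append_of_ne_nil h2] at hd
  rcases List.mem_append.1 hd with hd | hd
  · exact h3 d hd
  · cases l' with
    | nil => exact absurd rfl h5
    | cons x l' =>
      rcases List.mem_cons.1 hd with rfl | hd
      · rw [isTr_cons] at h4
        rw [h4.1]; exact hb
      · exact h6 d hd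

theorem TrI.rv {U : Set X} {a b : X} {l : List (Fin n × Bool)}
    (h : TrI src tgt U a l b) : TrI src tgt U b (rv l) a := by
  induction l generalizing a with
  | nil => exact absurd rfl h.2.1
  | cons d l ih =>
    have hrv : H75.rv (d :: l) = H75.rv l ++ [fl d] := by simp [H75.rv]
    rw [hrv]
    obtain ⟨h1, h2, h3⟩ := h
    rw [isTr_cons] at h1
    obtain ⟨rfl, h1⟩ := h1
    have h4 : TrI src tgt U (dtgt src tgt d) [fl d] (dsrc src tgt d) :=
      ⟨by simp [dsrc_fl, dtgt_fl], by simp, by simp⟩
    cases l with
    | nil =>
      rw [isTr_nil] at h1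
      subst h1
      simpa [H75.rv] using h4
    | cons x l =>
      have h5 : TrI src tgt U (dtgt src tgt d) (x :: l) b := by
        refine ⟨h1, by simp, fun e he => h3 e ?_⟩
        simp only [List.tail_cons] at he ⊢
        exact List.mem_cons_of_mem _ he
      refine (ih h5).append h4 ?_
      rw [isTr_cons] at h1
      rw [← h1.1]
      exact h3 x (by simp)

theorem TrI.mono {U U' : Set X} (hU : U ⊆ U') {a b : X} {l : List (Fin n × Bool)}
    (h : TrI src tgt U a l b) : TrI src tgt U' a l b :=
  ⟨h.1, h.2.1, fun d hd => hU (h.2.2 d hd)⟩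

/-- expansion of a dart -/
def exd {m : ℕ} (q : Fin m → List (Fin n × Bool)) (d : Fin m × Bool) : List (Fin n × Bool) :=
  if d.2 then q d.1 else H75.rv (q d.1)

/-- expansion of a trail -/
def exL {m : ℕ} (q : Fin m → List (Fin n × Bool)) (l : List (Fin m × Bool)) :
    List (Fin n × Bool) :=
  l.flatMap (exd q)

theorem mem_rv {d : Fin n × Bool} {l : List (Fin n × Bool)} : d ∈ H75.rv l ↔ fl d ∈ l := by
  unfold H75.rv
  rw [List.mem_reverse, List.mem_map]
  constructor
  · rintro ⟨a, ha, rfl⟩; simpa using ha
  · intro h; exact ⟨fl d, h, by simp⟩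

theorem spL_rv (sp : Fin n → Set X) (l : List (Fin n × Bool)) :
    spL sp (H75.rv l) = spL sp l := by
  ext x
  constructor
  · rintro ⟨d, hd, hx⟩
    exact ⟨fl d, mem_rv.1 hd, hx⟩
  · rintro ⟨d, hd, hx⟩
    exact ⟨fl d, mem_rv.2 (by simpa using hd), hx⟩

theorem spL_exd (sp : Fin n → Set X) {m : ℕ} (q : Fin m → List (Fin n × Bool))
    (d : Fin m × Bool) : spL sp (exd q d) = spL sp (q d.1) := by
  unfold exd
  split_ifs
  · rfl
  · exact spL_rv sp _

theorem mem_spL_exL (sp : Fin n → Set X) {m : ℕ} (q : Fin m → List (Fin n × Bool))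
    (l : List (Fin m × Bool)) (x : X) :
    x ∈ spL sp (exL q l) ↔ ∃ d ∈ l, x ∈ spL sp (q d.1) := by
  constructor
  · rintro ⟨e, he, hx⟩
    unfold exL at he
    rw [List.mem_flatMap] at he
    obtain ⟨d, hd, hed⟩ := he
    refine ⟨d, hd, ?_⟩
    rw [← spL_exd]
    exact ⟨e, hed, hx⟩
  · rintro ⟨d, hd, hx⟩
    rw [← spL_exd] at hx
    obtain ⟨e, he, hx⟩ := hx
    refine ⟨e, ?_, hx⟩
    unfold exL
    rw [List.mem_flatMap]
    exact ⟨d, hd, he⟩

theorem TrI_exd {m : ℕ} {s' t' : Fin m → X} {q : Fin m → List (Fin n × Bool)} {U : Set X}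
    (hq : ∀ i, TrI src tgt U (s' i) (q i) (t' i)) (d : Fin m × Bool) :
    TrI src tgt U (dsrc s' t' d) (exd q d) (dtgt s' t' d) := by
  obtain ⟨i, b⟩ := d
  cases b
  · simpa [exd, dsrc, dtgt] using (hq i).rv
  · simpa [exd, dsrc, dtgt] using hq i

theorem TrI_exL {m : ℕ} {s' t' : Fin m → X} {q : Fin m → List (Fin n × Bool)} {U : Set X}
    (hq : ∀ i, TrI src tgt U (s' i) (q i) (t' i)) {l : List (Fin m × Bool)} {a b : X}
    (h : TrI s' t' U a l b) : TrI src tgt U a (exL q l) b := by
  induction l generalizing a with
  | nil => exact absurd rfl h.2.1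
  | cons d l ih =>
    obtain ⟨h1, h2, h3⟩ := h
    rw [isTr_cons] at h1
    obtain ⟨rfl, h1⟩ := h1
    have h0 := TrI_exd hq d
    have hex : exL q (d :: l) = exd q d ++ exL q l := by simp [exL]
    rw [hex]
    cases l with
    | nil =>
      rw [isTr_nil] at h1
      subst h1
      simpa [exL] using h0
    | cons x l =>
      have h5 : TrI s' t' U (dtgt s' t' d) (x :: l) b := by
        refine ⟨h1, by simp, fun e he => h3 e ?_⟩
        simp only [List.tail_cons] at he ⊢
        exact List.mem_cons_of_mem _ he
      refine h0.append (ih h5) ?_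
      rw [isTr_cons] at h1
      rw [← h1.1]
      exact h3 x (by simp)

theorem exd_fst {m : ℕ} (q : Fin m → List (Fin n × Bool)) (d : Fin m × Bool) :
    ((exd q d).map Prod.fst).Perm ((q d.1).map Prod.fst) := by
  unfold exd
  split_ifs
  · exact List.Perm.refl _
  · exact rv_fst _

theorem exL_fst {m : ℕ} (q : Fin m → List (Fin n × Bool)) (l : List (Fin m × Bool)) :
    ((exL q l).map Prod.fst).Perm ((l.map Prod.fst).flatMap fun i => (q i).map Prod.fst) := by
  induction l with
  | nil => simp [exL]
  | cons d l ih =>
    have hex : exL q (d :: l) = exd q d ++ exL q l := by simp [exL]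
    rw [hex, List.map_append, List.map_cons, List.flatMap_cons]
    exact (exd_fst q d).append ih

theorem exLs_fst {m : ℕ} (q : Fin m → List (Fin n × Bool)) (S : List (List (Fin m × Bool))) :
    ((S.map (exL q)).flatten.map Prod.fst).Perm
      ((S.flatten.map Prod.fst).flatMap fun i => (q i).map Prod.fst) := by
  induction S with
  | nil => simp
  | cons l S ih =>
    rw [List.map_cons, List.flatten_cons, List.flatten_cons, List.map_append, List.map_append,
      List.flatMap_append]
    exact (exL_fst q l).append ih

end trails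

section parity

variable {X : Type u} {n : ℕ} (src tgt : Fin n → X)

open Classical in
/-- number of ends of the edge `e` at `v` -/
noncomputable def ends (v : X) (e : Fin n) : ℕ :=
  (if src e = v then 1 else 0) + (if tgt e = v then 1 else 0)

open Classical in
theorem isTr_parity (v : X) {a b : X} {l : List (Fin n × Bool)} (h : IsTr src tgt a l b) :
    Even (((l.map Prod.fst).map (ends src tgt v)).sum + ((if a = v then 1 else 0) +
      (if b = v then 1 else 0))) := by
  induction h with
  | nil x =>
    simp only [List.map_nil, List.sum_nil, zero_add]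
    exact ⟨_, rfl⟩
  | cons d l y h ih =>
    simp only [List.map_cons, List.sum_cons]
    have : ends src tgt v d.1 = (if dsrc src tgt d = v then 1 else 0) +
        (if dtgt src tgt d = v then 1 else 0) := by
      obtain ⟨e, b⟩ := d
      cases b
      · simp only [ends, dsrc, dtgt, Bool.false_eq_true, if_false]; omega
      · simp only [ends, dsrc, dtgt, if_true]
    rw [this]
    rw [Nat.even_iff] at ih ⊢
    omega

open Classical in
theorem degF_eq_sum (v : X) : degF src tgt v = ∑ e, ends src tgt v e := by
  unfold degF ends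
  rw [Finset.sum_add_distrib, Finset.card_filter, Finset.card_filter]

theorem sum_flatten (S : List (List (Fin n × Bool))) (f : Fin n → ℕ) :
    ((S.flatten.map Prod.fst).map f).sum = (S.map fun l => ((l.map Prod.fst).map f).sum).sum := by
  induction S with
  | nil => simp
  | cons l S ih =>
    rw [List.flatten_cons, List.map_append, List.map_append, List.sum_append, ih, List.map_cons,
      List.sum_cons]

open Classical in
theorem sum_eq_deg {U : Finset X} {S : List (List (Fin n × Bool))}
    (h : CoversInc src tgt U S) {v : X} (hv : v ∈ U) :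
    ((S.flatten.map Prod.fst).map (ends src tgt v)).sum = degF src tgt v := by
  rw [degF_eq_sum]
  rw [← List.sum_toFinset _ h.1]
  refine Finset.sum_subset (Finset.subset_univ _) ?_
  intro e _ he
  rw [List.mem_toFinset, h.2 e] at he
  push Not at he
  unfold ends
  rw [if_neg (by rintro rfl; exact he.1 hv), if_neg (by rintro rfl; exact he.2 hv), add_zero]

open Classical in
theorem card_darts (v : X) :
    (Finset.univ.filter (fun d : Fin n × Bool => dtgt src tgt d = v)).card = degF src tgt v := by
  rw [degF_eq_sum, Finset.card_filter, Fintype.sum_prod_type]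
  refine Finset.sum_congr rfl fun e _ => ?_
  simp only [Fintype.sum_bool, dtgt, ends, if_true, Bool.false_eq_true, if_false]
  omega

end parity

section pairing

/-- pairing lemma -/
theorem exists_pairing {D : Type*} {α β : Type*} [DecidableEq D] [DecidableEq α] [DecidableEq β]
    (g : D → α) (f : D → β) : ∀ (N : ℕ) (s : Finset D), s.card ≤ N →
    (∀ a, Even (s.filter (fun d => g d = a)).card) →
    ∃ π : D → D, (∀ d ∈ s, π d ∈ s ∧ π (π d) = d ∧ π d ≠ d ∧ g (π d) = g d) ∧
      (∀ d ∈ s, ∀ d' ∈ s, g d = g d' → f d = f d' → f (π d) ≠ f d → f (π d') ≠ f d' → d = d') := by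
  intro N
  induction N with
  | zero =>
    intro s hs _
    have : s = ∅ := by simpa using hs
    subst this
    exact ⟨id, by simp, by simp⟩
  | succ N ih =>
    intro s hs heven
    by_cases hemp : s = ∅
    · subst hemp
      exact ⟨id, by simp, by simp⟩
    -- removing a pair
    have hstep : ∀ d ∈ s, ∀ d' ∈ s, d ≠ d' → g d = g d' →
        ∃ π' : D → D, (∀ x ∈ (s.erase d).erase d', π' x ∈ (s.erase d).erase d' ∧
          π' (π' x) = x ∧ π' x ≠ x ∧ g (π' x) = g x) ∧
          (∀ x ∈ (s.erase d).erase d', ∀ x' ∈ (s.erase d).erase d', g x = g x' → f x = f x' →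
            f (π' x) ≠ f x → f (π' x') ≠ f x' → x = x') := by
      intro d hd d' hd' hne hg
      refine ih _ ?_ ?_
      · rw [Finset.card_erase_of_mem (Finset.mem_erase.2 ⟨hne.symm, hd'⟩),
          Finset.card_erase_of_mem hd]
        omega
      · intro a
        by_cases ha : g d = a
        · have h1 : ((s.erase d).erase d').filter (fun x => g x = a) =
              ((s.filter (fun x => g x = a)).erase d).erase d' := by
            ext x
            simp only [Finset.mem_filter, Finset.mem_erase]
            tauto
          have hm1 : d ∈ s.filter (fun x => g x = a) := Finset.mem_filter.2 ⟨hd, ha⟩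
          have hm2 : d' ∈ (s.filter (fun x => g x = a)).erase d :=
            Finset.mem_erase.2 ⟨hne.symm, Finset.mem_filter.2 ⟨hd', hg ▸ ha⟩⟩
          rw [h1, Finset.card_erase_of_mem hm2, Finset.card_erase_of_mem hm1]
          have h2 := heven a
          have h3 : 1 ≤ (s.filter (fun x => g x = a)).card := Finset.card_pos.2 ⟨d, hm1⟩
          rw [Nat.even_iff] at h2 ⊢
          omega
        · have h1 : ((s.erase d).erase d').filter (fun x => g x = a) =
              s.filter (fun x => g x = a) := by
            ext x
            simp only [Finset.mem_filter, Finset.mem_erase]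
            constructor
            · rintro ⟨⟨-, -, h⟩, h'⟩; exact ⟨h, h'⟩
            · rintro ⟨h, h'⟩
              refine ⟨⟨?_, ?_, h⟩, h'⟩
              · rintro rfl; exact ha (hg.trans h')
              · rintro rfl; exact ha h'
          rw [h1]; exact heven a
    by_cases hc : ∃ d ∈ s, ∃ d' ∈ s, d ≠ d' ∧ g d = g d' ∧ f d = f d'
    · obtain ⟨d, hd, d', hd', hne, hg, hf⟩ := hc
      obtain ⟨π', h1, h2⟩ := hstep d hd d' hd' hne hg
      refine ⟨fun x => if x = d then d' else if x = d' then d else π' x, ?_, ?_⟩
      · intro x hx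
        by_cases hxd : x = d
        · subst hxd
          simp [hd', hne.symm, hg]
        by_cases hxd' : x = d'
        · subst hxd'
          simp [hne.symm, hd, hne, hg]
        have hx' : x ∈ (s.erase d).erase d' :=
          Finset.mem_erase.2 ⟨hxd', Finset.mem_erase.2 ⟨hxd, hx⟩⟩
        obtain ⟨k1, k2, k3, k4⟩ := h1 x hx'
        have k5 := Finset.mem_erase.1 k1
        have k6 := Finset.mem_erase.1 k5.2
        simp only [hxd, if_false, hxd', k5.1, k6.1]
        exact ⟨k6.2, k2, k3, k4⟩
      · intro x hx x' hx' hgx hfx hm hm'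
        have key : ∀ x ∈ s, f (if x = d then d' else if x = d' then d else π' x) ≠ f x →
            x ∈ (s.erase d).erase d' ∧ f (π' x) ≠ f x := by
          intro x hx hm
          by_cases hxd : x = d
          · subst hxd
            simp [hf] at hm
          by_cases hxd' : x = d'
          · subst hxd'
            simp [hf, hxd] at hm
          simp only [hxd, hxd', if_false] at hm
          exact ⟨Finset.mem_erase.2 ⟨hxd', Finset.mem_erase.2 ⟨hxd, hx⟩⟩, hm⟩
        obtain ⟨a1, a2⟩ := key x hx hm
        obtain ⟨b1, b2⟩ := key x' hx' hm'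
        exact h2 x a1 x' b1 hgx hfx a2 b2
    · push Not at hc
      obtain ⟨d, hd⟩ := Finset.nonempty_iff_ne_empty.2 hemp
      obtain ⟨d', hd', hne, hg⟩ : ∃ d' ∈ s, d ≠ d' ∧ g d = g d' := by
        by_contra hcon
        push Not at hcon
        have : s.filter (fun x => g x = g d) = {d} := by
          ext x
          simp only [Finset.mem_filter, Finset.mem_singleton]
          constructor
          · rintro ⟨h, h'⟩
            by_contra hne
            exact hcon x h (Ne.symm hne) h'.symm
          · rintro rfl; exact ⟨hd, rfl⟩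
        have h2 := heven (g d)
        rw [this, Finset.card_singleton] at h2
        exact absurd h2 (by decide)
      obtain ⟨π', h1, h2⟩ := hstep d hd d' hd' hne hg
      refine ⟨fun x => if x = d then d' else if x = d' then d else π' x, ?_, ?_⟩
      · intro x hx
        by_cases hxd : x = d
        · subst hxd
          simp [hd', hne.symm, hg]
        by_cases hxd' : x = d'
        · subst hxd'
          simp [hne.symm, hd, hne, hg]
        have hx' : x ∈ (s.erase d).erase d' :=
          Finset.mem_erase.2 ⟨hxd', Finset.mem_erase.2 ⟨hxd, hx⟩⟩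
        obtain ⟨k1, k2, k3, k4⟩ := h1 x hx'
        have k5 := Finset.mem_erase.1 k1
        have k6 := Finset.mem_erase.1 k5.2
        simp only [hxd, if_false, hxd', k5.1, k6.1]
        exact ⟨k6.2, k2, k3, k4⟩
      · intro x hx x' hx' hgx hfx _ _
        by_contra hne
        exact hc x hx x' hx' hne hgx hfx

end pairing

section tjoin

variable {X : Type u} {m : ℕ} (s t : Fin m → X)

open Classical in
/-- T-joins in a forest -/
theorem exists_tjoin (rk : X → ℕ) (iu : X → Fin m) (wu : X → X) (B : Finset (Fin m)) :
    ∀ (C : Finset X), (∀ u ∈ C, (s (iu u) = u ∧ t (iu u) = wu u) ∨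
      (t (iu u) = u ∧ s (iu u) = wu u)) → (∀ u ∈ C, rk (wu u) < rk u) →
    (∀ u ∈ C, iu u ∉ B) →
    ∃ F : Finset (Fin m), B ⊆ F ∧ (∀ i ∈ F, i ∈ B ∨ ∃ u ∈ C, i = iu u) ∧
      ∀ v ∈ C, Even (Finset.univ.filter (fun d : Fin m × Bool =>
        dtgt s t d = v ∧ d.1 ∈ F)).card := by
  intro C
  induction C using Finset.induction_on_min_value rk with
  | empty => intro _ _ _; exact ⟨B, subset_rfl, fun i hi => Or.inl hi, by simp⟩
  | insert u C huC hmin ih =>
    intro h1 h2 h3
    obtain ⟨F, hBF, hF, hev⟩ := ih (fun v hv => h1 v (Finset.mem_insert_of_mem hv))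
      (fun v hv => h2 v (Finset.mem_insert_of_mem hv))
      (fun v hv => h3 v (Finset.mem_insert_of_mem hv))
    by_cases heu : Even (Finset.univ.filter (fun d : Fin m × Bool =>
        dtgt s t d = u ∧ d.1 ∈ F)).card
    · refine ⟨F, hBF, fun i hi => ?_, ?_⟩
      · rcases hF i hi with h | ⟨v, hv, h⟩
        · exact Or.inl h
        · exact Or.inr ⟨v, Finset.mem_insert_of_mem hv, h⟩
      · intro v hv
        rcases Finset.mem_insert.1 hv with rfl | hv
        · exact heu
        · exact hev v hv
    · -- add the edge of `u`
      have hu := h1 u (Finset.mem_insert_self _ _)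
      have hru := h2 u (Finset.mem_insert_self _ _)
      have hwu : wu u ≠ u := by
        intro h; rw [h] at hru; exact lt_irrefl _ hru
      have hiF : iu u ∉ F := by
        intro h
        rcases hF _ h with h | ⟨v, hv, h⟩
        · exact h3 u (Finset.mem_insert_self _ _) h
        · -- the edge of `v` has the ends `v` and `wu v`
          have hv1 := h1 v (Finset.mem_insert_of_mem hv)
          have hrv := h2 v (Finset.mem_insert_of_mem hv)
          have hmv := hmin v hv
          have huv : u ≠ v := by rintro rfl; exact huC hv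
          rw [← h] at hv1
          rcases hu with ⟨a1, a2⟩ | ⟨a1, a2⟩ <;> rcases hv1 with ⟨b1, b2⟩ | ⟨b1, b2⟩
          · exact huv (a1.symm.trans b1)
          · rw [← b1, a2] at hmv
            omega
          · rw [← b1, a2] at hmv
            omega
          · exact huv (a1.symm.trans b1)
      refine ⟨insert (iu u) F, fun i hi => Finset.mem_insert_of_mem (hBF hi), ?_, ?_⟩
      · intro i hi
        rcases Finset.mem_insert.1 hi with rfl | hi
        · exact Or.inr ⟨u, Finset.mem_insert_self _ _, rfl⟩
        · rcases hF i hi with h | ⟨v, hv, h⟩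
          · exact Or.inl h
          · exact Or.inr ⟨v, Finset.mem_insert_of_mem hv, h⟩
      · intro v hv
        -- the darts of the new edge
        rcases Finset.mem_insert.1 hv with rfl | hv'
        · obtain ⟨b, hb, hb'⟩ : ∃ b : Bool, dtgt s t (iu v, b) = v ∧
              dtgt s t (iu v, !b) ≠ v := by
            rcases hu with ⟨a1, a2⟩ | ⟨a1, a2⟩
            · exact ⟨false, by simpa [dtgt] using a1, by simpa [dtgt, a2] using hwu⟩
            · exact ⟨true, by simpa [dtgt] using a1, by simpa [dtgt, a2] using hwu⟩
          have : (Finset.univ.filter (fun d : Fin m × Bool =>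
              dtgt s t d = v ∧ d.1 ∈ insert (iu v) F)) = insert (iu v, b)
              (Finset.univ.filter (fun d : Fin m × Bool => dtgt s t d = v ∧ d.1 ∈ F)) := by
            ext ⟨i, c⟩
            simp only [Finset.mem_filter, Finset.mem_univ, true_and, Finset.mem_insert,
              Prod.mk.injEq]
            constructor
            · rintro ⟨h4, rfl | h5⟩
              · left
                refine ⟨rfl, ?_⟩
                by_contra hcb
                have : c = !b := by cases c <;> cases b <;> simp_all
                rw [this] at h4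
                exact hb' h4
              · exact Or.inr ⟨h4, h5⟩
            · rintro (⟨rfl, rfl⟩ | ⟨h4, h5⟩)
              · exact ⟨hb, Or.inl rfl⟩
              · exact ⟨h4, Or.inr h5⟩
          rw [this, Finset.card_insert_of_notMem (by
            simp only [Finset.mem_filter, Finset.mem_univ, true_and, not_and]
            exact fun _ => hiF)]
          rw [Nat.not_even_iff_odd] at heu
          exact heu.add_one
        · have huv : v ≠ u := by rintro rfl; exact huC hv'
          have hmv := hmin v hv'
          have hwv : v ≠ wu u := by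
            rintro rfl; omega
          have : (Finset.univ.filter (fun d : Fin m × Bool =>
              dtgt s t d = v ∧ d.1 ∈ insert (iu u) F)) =
              (Finset.univ.filter (fun d : Fin m × Bool => dtgt s t d = v ∧ d.1 ∈ F)) := by
            ext ⟨i, c⟩
            simp only [Finset.mem_filter, Finset.mem_univ, true_and, Finset.mem_insert]
            constructor
            · rintro ⟨h4, rfl | h5⟩
              · exfalso
                rcases hu with ⟨a1, a2⟩ | ⟨a1, a2⟩ <;> cases c <;>
                  simp only [dtgt, Bool.false_eq_true, if_false, if_true] at h4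
                · exact huv (h4.symm.trans a1)
                · exact hwv (h4.symm.trans a2)
                · exact hwv (h4.symm.trans a2)
                · exact huv (h4.symm.trans a1)
              · exact ⟨h4, h5⟩
            · rintro ⟨h4, h5⟩
              exact ⟨h4, Or.inr h5⟩
          rw [this]
          exact hev v hv'

end tjoin

end Pool.Agent.EU.H75
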