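import Pool.Agent.Helper17_EU.DefsR

/-! # Basic lemmas on walks -/

open Set Metric Topology unitInterval

namespace Pool.Agent.EU.H75

universe u v

variable {X : Type u} [MetricSpace X] {ι : Type v} (𝓔 : EdgeSys X ι)

theorem isW_nil {x y : X} : 𝓔.IsW x [] y ↔ x = y := by
  constructor
  · intro h
    cases h
    rfl
  · rintro rfl
    exact .nil x

theorem isW_cons {x y : X} {s : Step X ι} {w : List (Step X ι)} :
    𝓔.IsW x (s :: w) y ↔ 𝓔.src s = x ∧ 𝓔.IsW (𝓔.tgt s) w y := by
  constructor
  · intro h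
    cases h with
    | cons s w y h => exact ⟨rfl, h⟩
  · rintro ⟨rfl, h⟩
    exact .cons s w y h

theorem isW_append {x y : X} {w w' : List (Step X ι)} :
    𝓔.IsW x (w ++ w') y ↔ ∃ z, 𝓔.IsW x w z ∧ 𝓔.IsW z w' y := by
  induction w generalizing x with
  | nil =>
    simp only [List.nil_append, isW_nil]
    exact ⟨fun h => ⟨x, rfl, h⟩, fun ⟨z, h1, h2⟩ => h1 ▸ h2⟩
  | cons s w ih =>
    simp only [List.cons_append, isW_cons, ih]
    constructor
    · rintro ⟨h1, z, h2, h3⟩
      exact ⟨z, ⟨h1, h2⟩, h3⟩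
    · rintro ⟨z, ⟨h1, h2⟩, h3⟩
      exact ⟨h1, z, h2, h3⟩

theorem src_rev (s : Step X ι) : 𝓔.src s.rev = 𝓔.tgt s := by
  cases s with
  | edge i b => cases b <;> rfl
  | jump x y => rfl
  | mark k x => rfl

theorem tgt_rev (s : Step X ι) : 𝓔.tgt s.rev = 𝓔.src s := by
  cases s with
  | edge i b => cases b <;> rfl
  | jump x y => rfl
  | mark k x => rfl

theorem supp_rev (s : Step X ι) : 𝓔.supp s.rev = 𝓔.supp s := by
  cases s with
  | edge i b => rfl
  | jump x y => exact pair_comm y x
  | mark k x => rfl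

omit [MetricSpace X] in
theorem rev_rev (s : Step X ι) : s.rev.rev = s := by
  cases s with
  | edge i b => simp [Step.rev]
  | jump x y => rfl
  | mark k x => rfl

omit [MetricSpace X] in
theorem item_rev (s : Step X ι) : s.rev.item = s.item := by
  cases s <;> rfl

omit [MetricSpace X] in
theorem revW_nil : revW ([] : List (Step X ι)) = [] := rfl

omit [MetricSpace X] in
theorem revW_cons (s : Step X ι) (w : List (Step X ι)) : revW (s :: w) = revW w ++ [s.rev] := by
  simp [revW]

omit [MetricSpace X] in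
theorem revW_append (w w' : List (Step X ι)) : revW (w ++ w') = revW w' ++ revW w := by
  simp [revW]

omit [MetricSpace X] in
theorem revW_revW (w : List (Step X ι)) : revW (revW w) = w := by
  have : (Step.rev ∘ Step.rev : Step X ι → Step X ι) = id := by
    funext s
    exact rev_rev s
  simp [revW, List.map_reverse, this]

omit [MetricSpace X] in
theorem items_append (w w' : List (Step X ι)) : items (w ++ w') = items w ++ items w' := by
  simp [items]

omit [MetricSpace X] in
theorem items_revW (w : List (Step X ι)) : items (revW w) = (items w).reverse := by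
  induction w with
  | nil => rfl
  | cons s w ih =>
    rw [revW_cons, items_append, ih]
    simp only [items, List.filterMap_cons, List.filterMap_nil, item_rev]
    cases s.item <;> simp

omit [MetricSpace X] in
theorem mem_items_revW {w : List (Step X ι)} {i : ι ⊕ ℕ} : i ∈ items (revW w) ↔ i ∈ items w := by
  rw [items_revW, List.mem_reverse]

theorem supW_append (w w' : List (Step X ι)) : 𝓔.supW (w ++ w') = 𝓔.supW w ∪ 𝓔.supW w' := by
  ext z
  simp only [EdgeSys.supW, List.mem_append, mem_ofPred_eq, mem_union]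
  constructor
  · rintro ⟨s, h | h, hz⟩
    · exact Or.inl ⟨s, h, hz⟩
    · exact Or.inr ⟨s, h, hz⟩
  · rintro (⟨s, h, hz⟩ | ⟨s, h, hz⟩)
    · exact ⟨s, Or.inl h, hz⟩
    · exact ⟨s, Or.inr h, hz⟩

theorem supW_nil : 𝓔.supW [] = ∅ := by
  ext z
  simp [EdgeSys.supW]

theorem supW_revW (w : List (Step X ι)) : 𝓔.supW (revW w) = 𝓔.supW w := by
  ext z
  simp only [EdgeSys.supW, revW, List.mem_reverse, List.mem_map, mem_ofPred_eq]
  constructor
  · rintro ⟨s, ⟨t, ht, rfl⟩, hz⟩
    exact ⟨t, ht, by rwa [supp_rev] at hz⟩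
  · rintro ⟨t, ht, hz⟩
    exact ⟨t.rev, ⟨t, ht, rfl⟩, by rwa [supp_rev]⟩

theorem isW_revW {x y : X} {w : List (Step X ι)} : 𝓔.IsW x w y → 𝓔.IsW y (revW w) x := by
  intro h
  induction h with
  | nil x => exact .nil x
  | cons s w y h ih =>
    rw [revW_cons, isW_append]
    refine ⟨_, ih, ?_⟩
    rw [isW_cons, isW_nil]
    exact ⟨src_rev 𝓔 s, tgt_rev 𝓔 s⟩

end Pool.Agent.EU.H75
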